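import Pool.Agent.Lib.MP_f9c8ff_an.P3.St

/-! The constant `Cn n` and the largest feasible multiplier. -/

namespace Pool.Agent.Lib.MP_f9c8ff_an.P3

open Real

namespace CnF

lemma cont (n : ℕ) (a b : ℕ → ℝ) : Continuous (trig n a b) := by
  unfold trig; fun_prop

lemma shift (n : ℕ) (a b : ℕ → ℝ) (t θ : ℝ) :
    trig n (fun k => a k * cos (k * t) + b k * sin (k * t))
      (fun k => b k * cos (k * t) - a k * sin (k * t)) θ = trig n a b (t + θ) := by
  unfold trig
  congr 1
  · simp
  · refine Finset.sum_congr rfl fun k _ => ?_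
    rw [mul_add (k : ℝ) t θ, cos_add, sin_add]; ring

lemma neg (n : ℕ) (a b : ℕ → ℝ) (θ : ℝ) :
    trig n (fun k => -a k) (fun k => -b k) θ = -trig n a b θ := by
  unfold trig
  rw [neg_add, ← Finset.sum_neg_distrib]
  congr 1
  · ring
  · exact Finset.sum_congr rfl fun k _ => by ring

lemma per (n : ℕ) (a b : ℕ → ℝ) : Function.Periodic (fun θ => |trig n a b θ|) (2 * π) := by
  intro θ
  unfold trig
  simp only [mul_add, cos_add_nat_mul_two_pi, sin_add_nat_mul_two_pi]

lemma feas_abs {n : ℕ} {lam : ℝ} (h : Feas n lam) (a b : ℕ → ℝ) (t : ℝ) :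
    lam * |trig n a b t| ≤ 1 / (2 * π) * ∫ θ in (-π)..π, |trig n a b θ| := by
  have A : ∀ a b : ℕ → ℝ, lam * trig n a b t ≤ 1 / (2 * π) * ∫ θ in (-π)..π, |trig n a b θ| := by
    intro a b
    have := h (fun k => a k * cos (k * t) + b k * sin (k * t))
      (fun k => b k * cos (k * t) - a k * sin (k * t))
    simp only [shift, add_zero] at this
    rw [intervalIntegral.integral_comp_add_left (fun θ => |trig n a b θ|) t] at this
    have e := (per n a b).intervalIntegral_add_eq (t + -π) (-π)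
    rw [show t + -π + 2 * π = t + π by ring, show -π + 2 * π = π by ring] at e
    rwa [e] at this
  rcases abs_choice (trig n a b t) with e | e <;> rw [e]
  · exact A a b
  · simpa only [neg, abs_neg] using A (fun k => -a k) fun k => -b k

lemma int_nonneg (n : ℕ) (a b : ℕ → ℝ) : 0 ≤ ∫ θ in (-π)..π, |trig n a b θ| :=
  intervalIntegral.integral_nonneg (by linarith [pi_pos]) fun _ _ => abs_nonneg _

lemma ratio {n : ℕ} (hn : 1 ≤ n) {lam : ℝ} (h0 : 0 < lam) (h : Feas n lam) (a b : ℕ → ℝ) :
    sSup ((fun θ => |trig n a b θ|) '' Set.Icc (-π) π) /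
      (n / (2 * π) * ∫ θ in (-π)..π, |trig n a b θ|) ≤ 1 / (n * lam) := by
  have n0 : (0 : ℝ) < n := by exact_mod_cast hn
  have := pi_pos
  rcases (int_nonneg n a b).eq_or_lt with e | e
  · rw [← e, mul_zero, div_zero]; positivity
  have s : sSup ((fun θ => |trig n a b θ|) '' Set.Icc (-π) π) ≤
      (1 / (2 * π) * ∫ θ in (-π)..π, |trig n a b θ|) / lam := by
    refine csSup_le (Set.Nonempty.image _ ⟨0, by constructor <;> linarith⟩) ?_
    rintro _ ⟨t, -, rfl⟩
    rw [le_div_iff₀ h0, mul_comm]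
    exact feas_abs h a b t
  rw [div_le_iff₀ (by positivity)]
  refine s.trans_eq ?_
  field_simp

end CnF

open CnF in
theorem stCn : StCn := by
  rintro n hn ⟨lam, h0, h⟩
  have n0 : (0 : ℝ) < n := by exact_mod_cast hn
  have := pi_pos
  have bd : BddAbove {r : ℝ | ∃ a b : ℕ → ℝ, trig n a b ≠ 0 ∧
      r = sSup ((fun θ => |trig n a b θ|) '' Set.Icc (-π) π) /
        (n / (2 * π) * ∫ θ in (-π)..π, |trig n a b θ|)} :=
    ⟨1 / (n * lam), by rintro _ ⟨a, b, -, rfl⟩; exact ratio hn h0 h a b⟩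
  have one : trig n (fun k => if k = 0 then 2 else 0) (fun _ => 0) = fun _ => 1 := by
    funext θ
    unfold trig
    rw [Finset.sum_eq_zero fun k hk => by
      have : k ≠ 0 := by have := (Finset.mem_Icc.1 hk).1; omega
      simp [this]]
    simp
  have mem : 1 / (n : ℝ) ∈ {r : ℝ | ∃ a b : ℕ → ℝ, trig n a b ≠ 0 ∧
      r = sSup ((fun θ => |trig n a b θ|) '' Set.Icc (-π) π) /
        (n / (2 * π) * ∫ θ in (-π)..π, |trig n a b θ|)} := by
    refine ⟨fun k => if k = 0 then 2 else 0, fun _ => 0, ?_, ?_⟩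
    · rw [one]; exact fun e => one_ne_zero (congrFun e 0)
    · rw [one, Set.Nonempty.image_const ⟨0, by constructor <;> linarith⟩]
      simp only [abs_one, csSup_singleton, intervalIntegral.integral_const, smul_eq_mul]
      field_simp
      ring
  have l1 : 1 / (n : ℝ) ≤ Cn n := le_csSup bd mem
  have l2 : 1 ≤ n * Cn n := by rwa [div_le_iff₀ n0, mul_comm] at l1
  have c0 : 0 < Cn n := lt_of_lt_of_le (by positivity) l1
  refine ⟨l2, fun a b => ?_, fun μ hμ => ?_⟩
  · rcases le_or_gt (trig n a b 0) 0 with e | e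
    · have := int_nonneg n a b
      exact (mul_nonpos_of_nonneg_of_nonpos (by positivity) e).trans (by positivity)
    have z : (0 : ℝ) ∈ Set.Icc (-π) π := by constructor <;> linarith
    have ip : 0 < ∫ θ in (-π)..π, |trig n a b θ| :=
      intervalIntegral.integral_pos (by linarith) (cont n a b).abs.continuousOn
        (fun _ _ => abs_nonneg _) ⟨0, z, abs_pos.2 e.ne'⟩
    have r := le_csSup bd ⟨a, b, fun c => e.ne' (congrFun c 0), rfl⟩
    have s := le_csSup (isCompact_Icc.image (cont n a b).abs).bddAbove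
      (Set.mem_image_of_mem _ z)
    rw [div_le_iff₀ (by positivity)] at r
    have t := (le_abs_self _).trans (s.trans r)
    change _ ≤ Cn n * _ at t
    rw [one_div_mul_eq_div, div_le_iff₀ (by positivity)]
    refine t.trans_eq ?_
    ring
  · rcases le_or_gt μ 0 with e | e
    · exact e.trans (by positivity)
    have : Cn n ≤ 1 / (n * μ) := csSup_le ⟨_, mem⟩ (by
      rintro _ ⟨a, b, -, rfl⟩; exact ratio hn e hμ a b)
    rw [le_div_iff₀ (by positivity)] at this ⊢
    linarith

end Pool.Agent.Lib.MP_f9c8ff_an.P3
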