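import Pool.Agent.Lib.MP_f9c8ff_an.P3.Flow

/-! Taylor expansions at `0` modulo `z ^ M`, and the start of the Schur algorithm. -/

namespace Pool.Agent.Lib.MP_f9c8ff_an.P3

open PowerSeries Filter Topology Asymptotics
open scoped Nat

/-- `f` has the expansion `F` at `0` modulo `z ^ M`. -/
def Asym (f : ℂ → ℂ) (F : ℂ⟦X⟧) (M : ℕ) : Prop :=
  ∃ T : Polynomial ℂ, (X : ℂ⟦X⟧) ^ M ∣ F - T ∧
    (fun z => f z - T.eval z) =O[𝓝[≠] 0] fun z : ℂ => z ^ M

namespace Asym

variable {f g : ℂ → ℂ} {F G : ℂ⟦X⟧} {M : ℕ}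

theorem poly_one (T : Polynomial ℂ) : (fun z => T.eval z) =O[𝓝[≠] (0 : ℂ)] fun _ => (1 : ℂ) :=
  ((T.continuous.tendsto 0).mono_left nhdsWithin_le_nhds).isBigO_one ℂ

theorem pow_one' (M : ℕ) : (fun z : ℂ => z ^ M) =O[𝓝[≠] (0 : ℂ)] fun _ => (1 : ℂ) := by
  simpa using poly_one (Polynomial.X ^ M)

theorem poly (T : Polynomial ℂ) (M : ℕ) : Asym (fun z => T.eval z) T M :=
  ⟨T, by simp, by simpa using isBigO_zero _ _⟩

theorem const (c : ℂ) (M : ℕ) : Asym (fun _ => c) (PowerSeries.C c) M := by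
  simpa using poly (Polynomial.C c) M

theorem add (h : Asym f F M) (h' : Asym g G M) : Asym (fun z => f z + g z) (F + G) M := by
  obtain ⟨T, h1, h2⟩ := h
  obtain ⟨U, h3, h4⟩ := h'
  refine ⟨T + U, ?_, (h2.add h4).congr_left fun z => by simp; ring⟩
  have := h1.add h3
  push_cast
  convert this using 1
  ring

theorem mul (h : Asym f F M) (h' : Asym g G M) : Asym (fun z => f z * g z) (F * G) M := by
  obtain ⟨T, h1, h2⟩ := h
  obtain ⟨U, h3, h4⟩ := h'
  refine ⟨T * U, ?_, ?_⟩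
  · have := (h1.mul_right G).add (h3.mul_left (T : ℂ⟦X⟧))
    push_cast
    convert this using 1
    ring
  · have a1 := (h2.mul (h4.trans (pow_one' M))).add
      ((h2.mul (poly_one U)).add ((h4.mul (poly_one T))))
    simp only [mul_one] at a1
    exact a1.congr_left fun z => by simp; ring

theorem sub (h : Asym f F M) (h' : Asym g G M) : Asym (fun z => f z - g z) (F - G) M := by
  have := h.add ((const (-1) M).mul h')
  simpa [sub_eq_add_neg] using this

theorem pow (h : Asym f F M) : ∀ j : ℕ, Asym (fun z => f z ^ j) (F ^ j) M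
  | 0 => by simpa using const 1 M
  | j + 1 => by simpa [pow_succ] using (pow h j).mul h

theorem sum {ι : Type*} (s : Finset ι) {f : ι → ℂ → ℂ} {F : ι → ℂ⟦X⟧}
    (h : ∀ i ∈ s, Asym (f i) (F i) M) : Asym (fun z => ∑ i ∈ s, f i z) (∑ i ∈ s, F i) M := by
  classical
  induction s using Finset.induction_on with
  | empty => simpa using const 0 M
  | insert a s ha ih =>
    simp only [Finset.sum_insert ha]
    exact (h a (Finset.mem_insert_self _ _)).add
      (ih fun i hi => h i (Finset.mem_insert_of_mem hi))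

theorem congr (h : Asym f F M) (hg : (fun z => g z - f z) =O[𝓝[≠] 0] fun z : ℂ => z ^ M)
    (hG : (X : ℂ⟦X⟧) ^ M ∣ G - F) : Asym g G M := by
  obtain ⟨T, h1, h2⟩ := h
  refine ⟨T, ?_, (hg.add h2).congr_left fun z => by ring⟩
  convert hG.add h1 using 1
  ring

theorem mono (h : Asym f F (M + 1)) : Asym f F M := by
  obtain ⟨T, h1, h2⟩ := h
  refine ⟨T, (pow_dvd_pow _ M.le_succ).trans h1, h2.trans ?_⟩
  have := (isBigO_refl (fun z : ℂ => z ^ M) (𝓝[≠] 0)).mul (pow_one' 1)
  simpa [pow_succ] using this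

theorem small (h : Asym f F M) (hF : (X : ℂ⟦X⟧) ^ M ∣ F) :
    f =O[𝓝[≠] 0] fun z : ℂ => z ^ M := by
  obtain ⟨T, h1, h2⟩ := h
  have h3 : (X : ℂ⟦X⟧) ^ M ∣ (T : ℂ⟦X⟧) := by
    convert hF.sub h1 using 1
    ring
  have h4 : (Polynomial.X : Polynomial ℂ) ^ M ∣ T := by
    rw [Polynomial.X_pow_dvd_iff]
    intro d hd
    simpa using X_pow_dvd_iff.mp h3 d hd
  obtain ⟨U, rfl⟩ := h4
  have h5 := (isBigO_refl (fun z : ℂ => z ^ M) (𝓝[≠] 0)).mul (poly_one U)
  simp only [mul_one] at h5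
  exact (h2.add h5).congr_left fun z => by simp

theorem zero (h : Asym f F (M + 1)) (hf : ContinuousAt f 0) : f 0 = coeff 0 F := by
  obtain ⟨T, h1, h2⟩ := h
  have h3 : coeff 0 F = T.eval 0 := by
    have := X_pow_dvd_iff.mp h1 0 (Nat.succ_pos M)
    rw [map_sub, sub_eq_zero, Polynomial.coeff_coe, Polynomial.coeff_zero_eq_eval_zero] at this
    exact this
  have h4 : Tendsto (fun z => f z - T.eval z) (𝓝[≠] 0) (𝓝 (f 0 - T.eval 0)) :=
    (hf.sub T.continuous.continuousAt).tendsto.mono_left nhdsWithin_le_nhds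
  have h5 : Tendsto (fun z : ℂ => z ^ (M + 1)) (𝓝[≠] 0) (𝓝 0) := by
    have : Tendsto (fun z : ℂ => z ^ (M + 1)) (𝓝 0) (𝓝 (0 ^ (M + 1))) :=
      (continuous_pow (M + 1)).tendsto 0
    rw [zero_pow (Nat.succ_ne_zero M)] at this
    exact this.mono_left nhdsWithin_le_nhds
  have := tendsto_nhds_unique h4 (h2.trans_tendsto h5)
  rw [h3]; exact sub_eq_zero.mp this

theorem div (h : Asym f (X * G) (M + 1)) (hg : ∀ᶠ z in 𝓝[≠] (0 : ℂ), z * g z = f z) :
    Asym g G M := by
  obtain ⟨T, h1, h2⟩ := h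
  have h3 : T.coeff 0 = 0 := by
    have := X_pow_dvd_iff.mp h1 0 (Nat.succ_pos M)
    simpa using this
  have h4 : T = Polynomial.X * T.divX := by
    have := T.X_mul_divX_add
    rw [h3] at this
    simpa using this.symm
  refine ⟨T.divX, ?_, ?_⟩
  · rw [h4] at h1
    push_cast at h1
    rw [← mul_sub, pow_succ'] at h1
    exact (mul_dvd_mul_iff_left X_ne_zero).mp h1
  · have h5 := h2.mul (isBigO_refl (fun z : ℂ => z⁻¹) (𝓝[≠] 0))
    refine h5.congr' ?_ ?_
    · filter_upwards [hg, self_mem_nhdsWithin] with z h6 h7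
      have h8 : z ≠ 0 := h7
      rw [← h6]
      nth_rewrite 1 [h4]
      simp only [Polynomial.eval_mul, Polynomial.eval_X]
      field_simp
    · filter_upwards [self_mem_nhdsWithin] with z h7
      have h8 : z ≠ 0 := h7
      rw [pow_succ, mul_inv_cancel_right₀ h8]

end Asym

/-- Complexification of a real power series. -/
noncomputable def cx : ℝ⟦X⟧ →+* ℂ⟦X⟧ := PowerSeries.map Complex.ofRealHom

theorem coeff_cx (F : ℝ⟦X⟧) (m : ℕ) : coeff m (cx F) = ((coeff m F : ℝ) : ℂ) := by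
  simp [cx]

theorem cx_C (r : ℝ) : cx (PowerSeries.C r) = PowerSeries.C (r : ℂ) := by simp [cx]
theorem cx_X : cx X = X := by simp [cx]

theorem ev_ne : ∀ᶠ z in 𝓝[≠] (0 : ℂ), 1 - z ≠ 0 := by
  have : ContinuousAt (fun z : ℂ => 1 - z) 0 := by fun_prop
  exact (this.eventually_ne (by simp)).filter_mono nhdsWithin_le_nhds

theorem inv_one : (fun z : ℂ => (1 - z)⁻¹) =O[𝓝[≠] (0 : ℂ)] fun _ => (1 : ℂ) := by
  have : ContinuousAt (fun z : ℂ => (1 - z)⁻¹) 0 :=
    ContinuousAt.inv₀ (by fun_prop) (by simp)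
  exact (this.tendsto.mono_left nhdsWithin_le_nhds).isBigO_one ℂ

theorem asym_gg (M : ℕ) : Asym (fun z => z / (1 - z)) (cx gg) M := by
  refine ⟨∑ k ∈ Finset.range M, Polynomial.X ^ (k + 1), ?_, ?_⟩
  · rw [X_pow_dvd_iff]
    intro m hm
    rw [map_sub, coeff_cx, Polynomial.coeff_coe, Polynomial.finsetSum_coeff]
    simp only [Polynomial.coeff_X_pow, gg, coeff_mk]
    cases m with
    | zero => simp
    | succ m =>
      simp only [Nat.succ_ne_zero, if_false, add_left_inj, Finset.sum_ite_eq, Finset.mem_range]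
      rw [if_pos (by omega)]; simp
  · have h1 := ((isBigO_refl (fun z : ℂ => z ^ M) (𝓝[≠] 0)).mul (Asym.pow_one' 1)).mul inv_one
    simp only [mul_one] at h1
    refine h1.congr' ?_ EventuallyEq.rfl
    filter_upwards [ev_ne] with z hz
    have h2 := mul_neg_geom_sum z M
    simp only [Polynomial.eval_finsetSum, Polynomial.eval_pow, Polynomial.eval_X]
    simp only [pow_succ, ← Finset.sum_mul]
    field_simp
    linear_combination z * h2

theorem asym_exp (μ : ℝ) (M : ℕ) :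
    Asym (fun z => Complex.exp (Complex.I * uu μ z)) (mk (F0 μ)) M := by
  have h1 : Asym (fun z => Complex.exp (Complex.I * μ / 4) *
      ∑ j ∈ Finset.range M, tt μ j * (z / (1 - z)) ^ j)
      (PowerSeries.C (Complex.exp (Complex.I * μ / 4)) *
        ∑ j ∈ Finset.range M, PowerSeries.C (tt μ j) * cx gg ^ j) M :=
    (Asym.const _ M).mul (Asym.sum _ fun j _ => (Asym.const _ M).mul ((asym_gg M).pow j))
  refine h1.congr ?_ ?_
  · have hw : (fun z : ℂ => Complex.I * μ / 2 * (z / (1 - z))) =O[𝓝[≠] 0] fun z : ℂ => z := by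
      have := ((isBigO_refl (fun z : ℂ => z) (𝓝[≠] 0)).mul inv_one).const_mul_left
        (Complex.I * μ / 2)
      simpa [div_eq_mul_inv] using this
    have ht : Tendsto (fun z : ℂ => Complex.I * μ / 2 * (z / (1 - z))) (𝓝[≠] 0) (𝓝 0) :=
      hw.trans_tendsto (tendsto_id.mono_left nhdsWithin_le_nhds)
    have h2 := (((Complex.exp_sub_sum_range_isBigO_pow M).comp_tendsto ht).trans
      (hw.pow M)).const_mul_left (Complex.exp (Complex.I * μ / 4))
    refine h2.congr' ?_ EventuallyEq.rfl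
    filter_upwards [ev_ne] with z hz
    have e : Complex.I * uu μ z = Complex.I * μ / 4 + Complex.I * μ / 2 * (z / (1 - z)) := by
      rw [uu]; field_simp; ring
    rw [e, Complex.exp_add, ← mul_sub]
    simp only [Function.comp, tt, mul_pow]
    congr 2
    exact Finset.sum_congr rfl fun j _ => by ring
  · rw [X_pow_dvd_iff]
    intro m hm
    rw [map_sub, coeff_mk, F0_ext μ hm, coeff_C_mul, map_sum, sub_eq_zero]
    congr 1
    refine Finset.sum_congr rfl fun j _ => ?_
    rw [coeff_C_mul, ← map_pow, coeff_cx, cf]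

theorem F0_neg (μ : ℝ) (m : ℕ) : F0 (-μ) m = (starRingEnd ℂ) (F0 μ m) := by
  simp only [F0, tt, map_mul, map_sum, ← Complex.exp_conj, map_div₀, map_pow, Complex.conj_I,
    Complex.conj_ofReal, map_natCast, map_ofNat]
  push_cast
  simp

theorem uu_neg (μ : ℝ) (z : ℂ) : uu (-μ) z = -uu μ z := by
  simp only [uu]; push_cast; ring

theorem asym_sin (μ : ℝ) (M : ℕ) : Asym (fun z => Complex.sin (uu μ z)) (cx (PP 0 μ)) M := by
  have h := ((asym_exp (-μ) M).sub (asym_exp μ M)).mul (Asym.const (Complex.I / 2) M)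
  convert h using 1
  · funext z
    rw [uu_neg, Complex.sin]
    ring_nf
  · ext m
    rw [coeff_cx, coeff_mul_C, map_sub, coeff_mk, coeff_mk, F0_neg]
    simp only [PP, PQ, P0, coeff_mk]
    apply Complex.ext <;> simp
    ring

theorem asym_cos (μ : ℝ) (M : ℕ) : Asym (fun z => Complex.cos (uu μ z)) (cx (QQ 0 μ)) M := by
  have h := ((asym_exp (-μ) M).add (asym_exp μ M)).mul (Asym.const (1 / 2) M)
  convert h using 1
  · funext z
    rw [uu_neg, Complex.cos]
    ring_nf
  · ext m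
    rw [coeff_cx, coeff_mul_C, map_add, coeff_mk, coeff_mk, F0_neg]
    simp only [QQ, PQ, Q0, coeff_mk]
    apply Complex.ext <;> simp
    ring

end Pool.Agent.Lib.MP_f9c8ff_an.P3
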