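import Pool.Agent.Lib.MP_f9c8ff_an.P3.St

/-! From a pair `p, q` matching `tan u` to order `n` back to feasibility of `μ / π`. -/

namespace Pool.Agent.Lib.MP_f9c8ff_an.P3

open Real Filter Topology Asymptotics

namespace Back

/-- The point `exp (i θ)` of the unit circle. -/
noncomputable def w (θ : ℝ) : ℂ := Complex.exp (θ * Complex.I)

theorem w_ne (θ : ℝ) : w θ ≠ 0 := Complex.exp_ne_zero _

theorem norm_w (θ : ℝ) : ‖w θ‖ = 1 := Complex.norm_exp_ofReal_mul_I θ

theorem cont_w : Continuous w := by unfold w; fun_prop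

theorem cont_wz (m : ℤ) : Continuous fun θ => w θ ^ m :=
  cont_w.zpow₀ m fun θ => Or.inl (w_ne θ)

theorem per_w : Function.Periodic w (2 * π) := fun θ => by
  unfold w
  push_cast
  rw [add_mul, Complex.exp_add, Complex.exp_two_pi_mul_I, mul_one]

theorem wz (m : ℤ) (θ : ℝ) : w θ ^ m = Complex.exp ((m * Complex.I) * θ) := by
  unfold w
  rw [← Complex.exp_int_mul]
  congr 1
  ring

theorem orth (m : ℤ) : ∫ θ in (-π)..π, w θ ^ m = if m = 0 then (2 * π : ℂ) else 0 := by
  split_ifs with h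
  · subst h
    simp
    ring
  · simp only [wz]
    have hc : (m : ℂ) * Complex.I ≠ 0 :=
      mul_ne_zero (Int.cast_ne_zero.2 h) Complex.I_ne_zero
    rw [integral_exp_mul_complex hc]
    have : Complex.exp (m * Complex.I * (π : ℝ)) =
        Complex.exp (m * Complex.I * ((-π : ℝ) : ℂ)) := by
      rw [Complex.exp_eq_exp_iff_exists_int]
      exact ⟨m, by push_cast; ring⟩
    rw [this]
    simp

theorem vanish {n : ℕ} {E : ℂ → ℂ} (hE : ∀ z : ℂ, ‖z‖ ≤ 1 → DifferentiableAt ℂ E z)
    (hO : E =O[𝓝[≠] 0] fun z : ℂ => z ^ (n + 1)) (m : ℤ) (hm : -(n : ℤ) ≤ m) :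
    ∫ θ in (-π)..π, E (w θ) * w θ ^ m = 0 := by
  have hd : ∀ z : ℂ, ‖z‖ ≤ 1 → z ≠ 0 → DifferentiableAt ℂ (fun z => E z * z ^ m) z :=
    fun z hz h0 => (hE z hz).mul (differentiableAt_zpow.2 (Or.inl h0))
  have ht : Tendsto (fun z : ℂ => E z * z ^ m) (𝓝[≠] 0) (𝓝 0) := by
    obtain ⟨k, hk⟩ : ∃ k : ℕ, (k : ℤ) = m + n := ⟨(m + n).toNat, by omega⟩
    have h1 : (fun z : ℂ => E z * z ^ m) =O[𝓝[≠] 0] fun z : ℂ => z ^ (n + 1) * z ^ m :=
      hO.mul (isBigO_refl _ _)
    refine h1.trans_tendsto ?_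
    have h2 : Tendsto (fun z : ℂ => z ^ (k + 1)) (𝓝[≠] 0) (𝓝 0) := by
      have : Tendsto (fun z : ℂ => z ^ (k + 1)) (𝓝 0) (𝓝 (0 ^ (k + 1))) :=
        (continuous_pow (k + 1)).tendsto 0
      rw [zero_pow (Nat.succ_ne_zero k)] at this
      exact this.mono_left nhdsWithin_le_nhds
    refine h2.congr' ?_
    filter_upwards [self_mem_nhdsWithin] with z hz
    rw [← zpow_natCast, ← zpow_natCast, ← zpow_add₀ hz]
    congr 1
    push_cast
    omega
  have key := Complex.circleIntegral_sub_center_inv_smul_of_differentiable_on_off_countable_of_tendsto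
    (c := 0) (R := 1) one_pos (f := fun z => E z * z ^ m) (y := 0) (s := ∅) Set.countable_empty
    (fun z hz => (hd z (by simpa using hz.1) hz.2).continuousAt.continuousWithinAt)
    (fun z hz => hd z (by simpa using (Metric.ball_subset_closedBall hz.1.1)) hz.1.2) ht
  rw [smul_zero, circleIntegral] at key
  have e : ∀ θ : ℝ, circleMap 0 1 θ = w θ := fun θ => by simp [circleMap, w]
  have e2 : (fun θ : ℝ => deriv (circleMap 0 1) θ •
      ((circleMap 0 1 θ - 0)⁻¹ • (E (circleMap 0 1 θ) * circleMap 0 1 θ ^ m))) =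
      fun θ => Complex.I * (E (w θ) * w θ ^ m) := by
    funext θ
    rw [deriv_circleMap, e, sub_zero, smul_eq_mul, smul_eq_mul]
    have := w_ne θ
    field_simp
  rw [e2, intervalIntegral.integral_const_mul] at key
  have hp : Function.Periodic (fun θ => E (w θ) * w θ ^ m) (2 * π) := fun θ => by
    simp only [per_w θ]
  have h3 := hp.intervalIntegral_add_eq (-π) 0
  rw [zero_add, show -π + 2 * π = π by ring] at h3
  rw [h3]
  exact (mul_eq_zero.1 key).resolve_left Complex.I_ne_zero

/-- The Taylor polynomial of `2 i u`. -/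
noncomputable def T (n : ℕ) (μ : ℝ) (z : ℂ) : ℂ :=
  Complex.I * μ / 2 * (1 + 2 * ∑ j ∈ Finset.Icc 1 n, z ^ j)

theorem diff_T (n : ℕ) (μ : ℝ) : Differentiable ℂ (T n μ) := by
  unfold T
  fun_prop

theorem int_T (n : ℕ) (μ : ℝ) (m : ℤ) : ∫ θ in (-π)..π, T n μ (w θ) * w θ ^ m =
    Complex.I * μ / 2 * ((if m = 0 then (2 * π : ℂ) else 0) +
      2 * ∑ j ∈ Finset.Icc 1 n, if (j : ℤ) + m = 0 then (2 * π : ℂ) else 0) := by
  have e : (fun θ => T n μ (w θ) * w θ ^ m) = fun θ => Complex.I * μ / 2 *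
      (w θ ^ m + 2 * ∑ j ∈ Finset.Icc 1 n, w θ ^ ((j : ℤ) + m)) := by
    funext θ
    simp only [T, zpow_add₀ (w_ne θ), zpow_natCast, ← Finset.sum_mul]
    ring
  rw [e, intervalIntegral.integral_const_mul, intervalIntegral.integral_add,
    intervalIntegral.integral_const_mul, intervalIntegral.integral_finsetSum]
  · simp only [orth]
  · exact fun j _ => (cont_wz _).intervalIntegrable _ _
  · exact (cont_wz _).intervalIntegrable _ _
  · exact (continuous_const.mul
      (continuous_finsetSum _ fun j _ => cont_wz _)).intervalIntegrable _ _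

theorem T_big (n : ℕ) (μ : ℝ) :
    (fun z : ℂ => 2 * Complex.I * uu μ z - T n μ z) =O[𝓝[≠] 0] fun z : ℂ => z ^ (n + 1) := by
  have hs : ∀ z : ℂ, (1 - z) * ∑ j ∈ Finset.Icc 1 n, z ^ j = z - z ^ (n + 1) := fun z => by
    induction n with
    | zero => simp
    | succ k ih => rw [Finset.sum_Icc_succ_top (by omega), mul_add, ih]; ring
  have hc : Tendsto (fun z : ℂ => Complex.I * μ / (1 - z)) (𝓝[≠] 0)
      (𝓝 (Complex.I * μ / (1 - 0))) :=
    ((continuousAt_const.div (continuousAt_const.sub continuousAt_id) (by simp)).tendsto).mono_left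
      nhdsWithin_le_nhds
  have h1 := (hc.isBigO_one ℂ).mul (isBigO_refl (fun z : ℂ => z ^ (n + 1)) _)
  simp only [one_mul] at h1
  refine h1.congr' ?_ EventuallyEq.rfl
  have : ∀ᶠ z : ℂ in 𝓝[≠] 0, z ≠ 1 :=
    (eventually_ne_nhds (zero_ne_one' ℂ)).filter_mono nhdsWithin_le_nhds
  filter_upwards [this] with z hz
  have h1 : (1 : ℂ) - z ≠ 0 := sub_ne_zero.2 hz.symm
  have h2 : ∑ j ∈ Finset.Icc 1 n, z ^ j = (z - z ^ (n + 1)) / (1 - z) := by
    rw [← hs z]; field_simp
  simp only [uu, T, h2]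
  field_simp
  ring

theorem feas_of {n : ℕ} {μ : ℝ} {L : ℂ → ℂ} (hL : ∀ z : ℂ, ‖z‖ ≤ 1 → DifferentiableAt ℂ L z)
    (hi : ∀ z : ℂ, ‖z‖ ≤ 1 → |(L z).im| ≤ π / 2)
    (hO : (fun z => L z - T n μ z) =O[𝓝[≠] 0] fun z : ℂ => z ^ (n + 1)) : Feas n (μ / π) := by
  have cL : Continuous fun θ => L (w θ) := continuous_iff_continuousAt.2 fun θ =>
    ContinuousAt.comp (f := w) (hL _ (norm_w θ).le).continuousAt cont_w.continuousAt
  have cT : Continuous fun θ => T n μ (w θ) := (diff_T n μ).continuous.comp cont_w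
  have hA : ∀ m : ℤ, -(n : ℤ) ≤ m → ∫ θ in (-π)..π, L (w θ) * w θ ^ m =
      ∫ θ in (-π)..π, T n μ (w θ) * w θ ^ m := fun m hm => by
    have := vanish (E := fun z => L z - T n μ z)
      (fun z hz => (hL z hz).sub (diff_T n μ z)) hO m hm
    simp only [sub_mul] at this
    exact sub_eq_zero.1 ((intervalIntegral.integral_sub
      ((cL.mul (cont_wz m)).intervalIntegrable _ _)
      ((cT.mul (cont_wz m)).intervalIntegrable _ _)).symm.trans this)
  have h0 : ∫ θ in (-π)..π, L (w θ) = Complex.I * μ * π := by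
    have := hA 0 (by omega)
    rw [int_T, Finset.sum_eq_zero fun j hj => if_neg (by
      have := (Finset.mem_Icc.1 hj).1; omega)] at this
    simp only [zpow_zero, mul_one, if_true] at this
    rw [this]; ring
  have hp : ∀ k ∈ Finset.Icc 1 n, ∫ θ in (-π)..π, L (w θ) * w θ ^ (k : ℤ) = 0 := fun k hk => by
    have hk1 := (Finset.mem_Icc.1 hk).1
    rw [hA k (by omega), int_T, Finset.sum_eq_zero fun j _ => if_neg (by omega),
      if_neg (by omega)]
    ring
  have hn : ∀ k ∈ Finset.Icc 1 n, ∫ θ in (-π)..π, L (w θ) * w θ ^ (-k : ℤ) =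
      2 * Complex.I * μ * π := fun k hk => by
    have hk1 := Finset.mem_Icc.1 hk
    rw [hA (-k) (by omega), int_T, if_neg (by omega),
      Finset.sum_eq_single k (fun j _ hj => if_neg (by omega)) (fun h => absurd hk h),
      if_pos (by omega)]
    ring
  intro a b
  have cP : Continuous (trig n a b) := by unfold trig; fun_prop
  have e : (fun θ => L (w θ) * (trig n a b θ : ℂ)) = fun θ => (a 0 / 2 : ℂ) * L (w θ) +
      ∑ k ∈ Finset.Icc 1 n, (((a k - b k * Complex.I) / 2) * (L (w θ) * w θ ^ (k : ℤ)) +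
        ((a k + b k * Complex.I) / 2) * (L (w θ) * w θ ^ (-k : ℤ))) := by
    funext θ
    simp only [trig]
    push_cast
    rw [mul_add, Finset.mul_sum]
    congr 1
    · ring
    · refine Finset.sum_congr rfl fun k _ => ?_
      rw [wz, wz, Complex.cos, Complex.sin]
      push_cast
      rw [show (k : ℂ) * Complex.I * θ = k * θ * Complex.I by ring,
        show -(k : ℂ) * Complex.I * θ = -(k * θ) * Complex.I by ring]
      ring
  have i1 : ∀ (c : ℂ) (m : ℤ), IntervalIntegrable (fun θ => c * (L (w θ) * w θ ^ m))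
      MeasureTheory.volume (-π) π := fun c m =>
    (continuous_const.mul (cL.mul (cont_wz m))).intervalIntegrable _ _
  have hI : ∫ θ in (-π)..π, L (w θ) * (trig n a b θ : ℂ) = (a 0 / 2 : ℂ) * (Complex.I * μ * π) +
      ∑ k ∈ Finset.Icc 1 n, ((a k + b k * Complex.I) / 2) * (2 * Complex.I * μ * π) := by
    rw [e, intervalIntegral.integral_add, intervalIntegral.integral_const_mul, h0,
      intervalIntegral.integral_finsetSum]
    · congr 1
      refine Finset.sum_congr rfl fun k hk => ?_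
      rw [intervalIntegral.integral_add (i1 _ _) (i1 _ _), intervalIntegral.integral_const_mul,
        intervalIntegral.integral_const_mul, hp k hk, hn k hk, mul_zero, zero_add]
    · exact fun k _ => (i1 _ _).add (i1 _ _)
    · exact (continuous_const.mul cL).intervalIntegrable _ _
    · exact (continuous_finsetSum _ fun k _ => (continuous_const.mul (cL.mul (cont_wz _))).add
        (continuous_const.mul (cL.mul (cont_wz _)))).intervalIntegrable _ _
  have hIm : ∫ θ in (-π)..π, (L (w θ)).im * trig n a b θ = μ * π * trig n a b 0 := by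
    have h1 : ∫ θ in (-π)..π, (L (w θ)).im * trig n a b θ =
        (∫ θ in (-π)..π, L (w θ) * (trig n a b θ : ℂ)).im := by
      have := Complex.imCLM.intervalIntegral_comp_comm (a := -π) (b := π)
        ((cL.mul (Complex.continuous_ofReal.comp cP)).intervalIntegrable (μ := MeasureTheory.volume)
          _ _)
      simpa using this
    rw [h1, hI]
    simp [trig, Complex.im_sum, Finset.mul_sum, mul_add]
    congr 1
    · ring
    · exact Finset.sum_congr rfl fun k _ => by ring
  have hle : ∫ θ in (-π)..π, (L (w θ)).im * trig n a b θ ≤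
      ∫ θ in (-π)..π, π / 2 * |trig n a b θ| := by
    refine intervalIntegral.integral_mono_on (by linarith [pi_pos])
      (((Complex.continuous_im.comp cL).mul cP).intervalIntegrable _ _)
      ((continuous_const.mul cP.abs).intervalIntegrable _ _) fun θ _ => ?_
    refine (le_abs_self _).trans ?_
    rw [abs_mul]
    exact mul_le_mul_of_nonneg_right (hi _ (norm_w θ).le) (abs_nonneg _)
  rw [hIm, intervalIntegral.integral_const_mul] at hle
  have hpi := pi_pos
  calc μ / π * trig n a b 0 = 1 / π ^ 2 * (μ * π * trig n a b 0) := by field_simp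
    _ ≤ 1 / π ^ 2 * (π / 2 * ∫ θ in (-π)..π, |trig n a b θ|) :=
      mul_le_mul_of_nonneg_left hle (by positivity)
    _ = _ := by field_simp

theorem re_pos {p q : ℂ} (h : ‖p‖ < ‖q‖) :
    q - Complex.I * p ≠ 0 ∧ 0 < ((q + Complex.I * p) / (q - Complex.I * p)).re := by
  have h0 : q - Complex.I * p ≠ 0 := fun e => by
    rw [sub_eq_zero.1 e] at h
    simp at h
  refine ⟨h0, ?_⟩
  have h1 : Complex.normSq p < Complex.normSq q := by
    rw [Complex.normSq_eq_norm_sq, Complex.normSq_eq_norm_sq]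
    exact pow_lt_pow_left₀ h (norm_nonneg _) two_ne_zero
  rw [Complex.div_re, ← add_div]
  refine div_pos ?_ (Complex.normSq_pos.2 h0)
  simp only [Complex.normSq_apply] at h1
  simp
  nlinarith

end Back

open Back in
theorem stBack : StBack := by
  intro n μ p q h0 h2 hp hq hpq hO
  set G : ℂ → ℂ := fun z => (q z + Complex.I * p z) / (q z - Complex.I * p z) with hG
  have dG : ∀ z : ℂ, ‖z‖ ≤ 1 → DifferentiableAt ℂ G z := fun z hz =>
    ((hq z).add ((hp z).const_mul _)).div ((hq z).sub ((hp z).const_mul _)) (re_pos (hpq z hz)).1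
  have rG : ∀ z : ℂ, ‖z‖ ≤ 1 → 0 < (G z).re := fun z hz => (re_pos (hpq z hz)).2
  have dL : ∀ z : ℂ, ‖z‖ ≤ 1 → DifferentiableAt ℂ (fun z => Complex.log (G z)) z := fun z hz =>
    (dG z hz).clog (Or.inl (rG z hz))
  have z0 : ‖(0 : ℂ)‖ ≤ 1 := by simp
  have cu : ContinuousAt (uu μ) 0 := by
    unfold uu
    exact continuousAt_const.mul ((continuousAt_const.add continuousAt_id).div
      (continuousAt_const.sub continuousAt_id) (by simp))
  have ev : ∀ᶠ z : ℂ in 𝓝[≠] 0, ‖z‖ ≤ 1 := by
    have : ∀ᶠ z : ℂ in 𝓝 0, ‖z‖ ≤ 1 := by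
      filter_upwards [Metric.closedBall_mem_nhds (0 : ℂ) one_pos] with z hz using by simpa using hz
    exact this.filter_mono nhdsWithin_le_nhds
  have hE : (fun z => G z * Complex.exp (-(2 * Complex.I * uu μ z)) - 1) =O[𝓝[≠] 0]
      fun z : ℂ => z ^ (n + 1) := by
    have hc : ContinuousAt (fun z => -2 * Complex.I /
        ((q z - Complex.I * p z) * Complex.exp (uu μ z * Complex.I))) 0 :=
      continuousAt_const.div
        ((((hq 0).sub ((hp 0).const_mul _)).continuousAt).mul
          (cu.mul continuousAt_const).cexp)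
        (mul_ne_zero (re_pos (hpq 0 z0)).1 (Complex.exp_ne_zero _))
    have h1 := ((hc.tendsto.mono_left (nhdsWithin_le_nhds (s := {0}ᶜ))).isBigO_one ℂ).mul hO
    simp only [one_mul] at h1
    refine h1.congr' ?_ EventuallyEq.rfl
    filter_upwards [ev] with z hz
    have hd := (re_pos (hpq z hz)).1
    have he := Complex.exp_ne_zero (uu μ z * Complex.I)
    have e1 : Complex.exp (-(2 * Complex.I * uu μ z)) =
        (Complex.exp (uu μ z * Complex.I))⁻¹ * (Complex.exp (uu μ z * Complex.I))⁻¹ := by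
      rw [← Complex.exp_neg, ← Complex.exp_add]; congr 1; ring
    simp only [hG, Complex.sin, Complex.cos, neg_mul, Complex.exp_neg (uu μ z * Complex.I), e1]
    generalize Complex.exp (uu μ z * Complex.I) = y at he ⊢
    field_simp
    linear_combination (q z * (-1 + y ^ 2)) * Complex.I_mul_I
  have t0 : Tendsto (fun z : ℂ => z ^ (n + 1)) (𝓝[≠] 0) (𝓝 0) := by
    have : Tendsto (fun z : ℂ => z ^ (n + 1)) (𝓝 0) (𝓝 (0 ^ (n + 1))) :=
      (continuous_pow (n + 1)).tendsto 0
    rw [zero_pow (Nat.succ_ne_zero n)] at this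
    exact this.mono_left nhdsWithin_le_nhds
  have G0 : G 0 = Complex.exp (2 * Complex.I * uu μ 0) := by
    have hc : ContinuousAt (fun z => G z * Complex.exp (-(2 * Complex.I * uu μ z)) - 1) 0 :=
      ((dG 0 z0).continuousAt.mul (continuousAt_const.mul cu).neg.cexp).sub continuousAt_const
    have := tendsto_nhds_unique (hc.tendsto.mono_left (nhdsWithin_le_nhds (s := {0}ᶜ)))
      (hE.trans_tendsto t0)
    rw [sub_eq_zero, Complex.exp_neg] at this
    exact (mul_inv_eq_one₀ (Complex.exp_ne_zero _)).1 this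
  have L0 : Complex.log (G 0) = 2 * Complex.I * uu μ 0 := by
    have : (2 * Complex.I * uu μ 0).im = μ / 2 := by simp [uu]; ring
    rw [G0, Complex.log_exp] <;> rw [this] <;> linarith [pi_pos]
  have hd : Tendsto (fun z => Complex.log (G z) - 2 * Complex.I * uu μ z) (𝓝[≠] 0) (𝓝 0) := by
    have hc : ContinuousAt (fun z => Complex.log (G z) - 2 * Complex.I * uu μ z) 0 :=
      (dL 0 z0).continuousAt.sub (continuousAt_const.mul cu)
    have := hc.tendsto
    simp only [L0, sub_self] at this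
    exact this.mono_left nhdsWithin_le_nhds
  have h3 : (fun z => Complex.log (G z) - 2 * Complex.I * uu μ z) =O[𝓝[≠] 0]
      fun z => G z * Complex.exp (-(2 * Complex.I * uu μ z)) - 1 := by
    refine IsBigO.of_bound 2 ?_
    filter_upwards [ev, hd.eventually (Metric.closedBall_mem_nhds (0 : ℂ) (half_pos one_pos))]
      with z hz hz2
    have g0 : G z ≠ 0 := fun e => by have := rG z hz; rw [e] at this; simp at this
    have e : G z * Complex.exp (-(2 * Complex.I * uu μ z)) =
        Complex.exp (Complex.log (G z) - 2 * Complex.I * uu μ z) := by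
      rw [sub_eq_add_neg, Complex.exp_add, Complex.exp_log g0]
    rw [e]
    generalize Complex.log (G z) - 2 * Complex.I * uu μ z = d at hz2 ⊢
    have hz3 : ‖d‖ ≤ 1 / 2 := by simpa using hz2
    have h4 := Complex.norm_exp_sub_one_sub_id_le (x := d) (by linarith)
    have h5 : ‖d‖ ≤ ‖Complex.exp d - 1‖ + ‖Complex.exp d - 1 - d‖ := by
      have := norm_sub_le (Complex.exp d - 1) (Complex.exp d - 1 - d)
      rwa [sub_sub_cancel] at this
    nlinarith [norm_nonneg d]
  refine feas_of dL (fun z hz => ?_) ?_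
  · rw [Complex.log_im]
    exact (Complex.abs_arg_lt_pi_div_two_iff.2 (Or.inl (rG z hz))).le
  · have := (h3.trans hE).add (T_big n μ)
    simpa only [sub_add_sub_cancel] using this

end Pool.Agent.Lib.MP_f9c8ff_an.P3
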