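import Pool.Agent.Lib.MP_f9c8ff_an.P3.St

/-! The barrier for the power series and its radius of convergence. -/

namespace Pool.Agent.Lib.MP_f9c8ff_an.P3

open Real Filter Topology Finset

namespace Bar

variable {v c s a : ℕ → ℝ} {x y : ℝ}

theorem nonneg (h : Rec v c s) (k : ℕ) : 0 ≤ v k ∧ 0 ≤ c k ∧ 0 ≤ s k := by
  obtain ⟨h0, h1, h2, h⟩ := h
  have hv : ∀ k, 0 ≤ c k → 0 ≤ v (k + 1) := fun k hk =>
    nonneg_of_mul_nonneg_right ((h k).1 ▸ hk) (by positivity)
  have : ∀ k, 0 ≤ c k ∧ 0 ≤ s k := fun k => by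
    induction k using Nat.strong_induction_on with
    | _ k ih =>
      cases k with
      | zero => exact ⟨h1 ▸ zero_le_one, h2.ge⟩
      | succ k =>
        have e : ∀ j ∈ range (k + 1), 0 ≤ (j + 1) * v (j + 1) := fun j hj =>
          mul_nonneg (by positivity) (hv j (ih j (mem_range.1 hj)).1)
        exact ⟨nonneg_of_mul_nonneg_right ((h k).2.1 ▸ sum_nonneg fun j hj =>
          mul_nonneg (e j hj) (ih _ (by omega)).2) (by positivity),
          nonneg_of_mul_nonneg_right ((h k).2.2 ▸ sum_nonneg fun j hj =>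
          mul_nonneg (e j hj) (ih _ (by omega)).1) (by positivity)⟩
  refine ⟨?_, this k⟩
  cases k with
  | zero => exact h0.ge
  | succ k => exact hv k (this k).1

theorem der (a : ℕ → ℝ) (K : ℕ) (x : ℝ) : HasDerivAt (fun x => ∑ k ∈ range (K + 1), a k * x ^ k)
    (∑ k ∈ range K, (k + 1) * a (k + 1) * x ^ k) x := by
  refine (HasDerivAt.fun_sum fun k _ => (hasDerivAt_pow k x).const_mul (a k)).congr_deriv ?_
  rw [sum_range_succ']
  simp only [Nat.cast_zero, zero_mul, mul_zero, add_zero, Nat.add_sub_cancel]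
  exact sum_congr rfl fun k _ => by push_cast; ring

theorem mono (ha : ∀ k, 0 ≤ a k) (hx : 0 ≤ x) (h : x ≤ y) (k : ℕ) : a k * x ^ k ≤ a k * y ^ k :=
  mul_le_mul_of_nonneg_left (pow_le_pow_left₀ hx h k) (ha k)

theorem cauchy {a b : ℕ → ℝ} (ha : ∀ k, 0 ≤ a k) (hb : ∀ k, 0 ≤ b k) (K : ℕ) :
    ∑ k ∈ range K, ∑ j ∈ range (k + 1), a j * b (k - j) ≤
      (∑ k ∈ range K, a k) * ∑ k ∈ range (K + 1), b k := by
  rw [sum_range_diag_flip K fun j i => a j * b i, sum_mul]
  refine sum_le_sum fun j _ => ?_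
  rw [← mul_sum]
  exact mul_le_mul_of_nonneg_left (sum_le_sum_of_subset_of_nonneg (range_mono (by omega))
    fun _ _ _ => hb _) (ha j)

theorem le_exp (h : Rec v c s) (K : ℕ) (hx : 0 ≤ x) :
    ∑ k ∈ range K, (c k + s k) * x ^ k ≤ exp (∑ k ∈ range K, v k * x ^ k) := by
  cases K with
  | zero => simp
  | succ K =>
    have n := nonneg h
    have d := fun x => (der (fun k => c k + s k) K x).mul (der v K x).neg.exp
    have m := antitoneOn_of_deriv_nonpos (convex_Ici (0 : ℝ))
      (fun x _ => (d x).continuousAt.continuousWithinAt)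
      (fun x _ => (d x).differentiableAt.differentiableWithinAt) fun x hx => by
        have x0 : 0 ≤ x := interior_subset hx
        have e := cauchy (a := fun j => (j + 1) * v (j + 1) * x ^ j)
          (b := fun j => (c j + s j) * x ^ j)
          (fun j => mul_nonneg (mul_nonneg (by positivity) (n _).1) (by positivity))
          (fun j => mul_nonneg (add_nonneg (n _).2.1 (n _).2.2) (by positivity)) K
        have e2 : ∑ k ∈ range K, (k + 1) * (c (k + 1) + s (k + 1)) * x ^ k = ∑ k ∈ range K,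
            ∑ j ∈ range (k + 1), (j + 1) * v (j + 1) * x ^ j *
              ((c (k - j) + s (k - j)) * x ^ (k - j)) := sum_congr rfl fun k _ => by
          rw [mul_add, (h.2.2.2 k).2.1, (h.2.2.2 k).2.2, ← sum_add_distrib, sum_mul]
          refine sum_congr rfl fun j hj => ?_
          rw [← pow_mul_pow_sub x (Nat.lt_succ_iff.1 (mem_range.1 hj))]
          ring
        rw [(d x).deriv, e2]
        simp only [Pi.neg_apply]
        nlinarith [mul_le_mul_of_nonneg_right e
          (exp_pos (-∑ k ∈ range (K + 1), v k * x ^ k)).le]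
    have := m Set.self_mem_Ici hx hx
    simp only [Pi.mul_apply, Pi.neg_apply, exp_neg] at this
    rw [← div_eq_mul_inv, div_le_iff₀ (exp_pos _)] at this
    simpa [sum_range_succ', h.1, h.2.1, h.2.2.1] using this

theorem bar (h : Rec v c s) {t M : ℝ} (ht : 0 ≤ t) (hM : ∀ K, ∑ k ∈ range K, v k * t ^ k ≤ M)
    (K : ℕ) : ∑ k ∈ range K, v k * (t + exp (-(M + 1))) ^ k ≤ M + 1 := by
  have n := nonneg h
  induction K with
  | zero => simpa using (hM 0).trans (lt_add_one M).le
  | succ K ih =>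
    have p := (exp_pos (-(M + 1))).le
    have := (convex_Icc t (t + exp (-(M + 1)))).image_sub_le_mul_sub_of_deriv_le
      (C := exp (M + 1)) (fun x _ => (der v K x).continuousAt.continuousWithinAt)
      (fun x _ => (der v K x).differentiableAt.differentiableWithinAt) (fun x hx => by
        have x0 := interior_subset hx
        have x1 := ht.trans x0.1
        rw [(der v K x).deriv]
        refine (sum_le_sum fun k _ => ?_).trans ((le_exp h K x1).trans (exp_le_exp.2
          ((sum_le_sum fun k _ => mono (fun k => (n k).1) x1 x0.2 k).trans ih)))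
        refine mul_le_mul_of_nonneg_right ?_ (by positivity)
        rw [← (h.2.2.2 k).1]
        nlinarith [(n (k + 1)).1, (n k).2.2, mul_nonneg (mul_nonneg k.cast_nonneg
          (by positivity : (0 : ℝ) ≤ k + 1)) (n (k + 1)).1])
      t ⟨le_rfl, by linarith⟩ _ ⟨by linarith, le_rfl⟩ (by linarith)
    rw [add_sub_cancel_left, ← exp_add, add_neg_cancel, exp_zero] at this
    linarith [hM (K + 1)]

/-- The coefficients of `cosh v` and `sinh v`. -/
noncomputable def cs : ℕ → ℝ × ℝ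
  | 0 => (1, 0)
  | k + 1 => ((∑ j : Fin (k + 1), (cs j).1 / (j + 1) * (cs (k - j)).2) / (k + 1),
      (∑ j : Fin (k + 1), (cs j).1 / (j + 1) * (cs (k - j)).1) / (k + 1))
decreasing_by all_goals omega

theorem ex : ∃ v c s : ℕ → ℝ, Rec v c s := by
  have e : ∀ j : ℕ, ((j : ℝ) + 1) * ((cs j).1 / (j + 1) ^ 2) = (cs j).1 / (j + 1) := fun j => by
    field_simp
  refine ⟨fun k => Nat.casesOn k 0 fun k => (cs k).1 / (k + 1) ^ 2, fun k => (cs k).1,
    fun k => (cs k).2, rfl, by simp [cs], by simp [cs], fun k => ⟨by field_simp, ?_, ?_⟩⟩ <;>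
  · simp only [e]
    rw [cs, mul_div_cancel₀ _ (by positivity), sum_range]

end Bar

theorem stBar : StBar := fun _ _ _ h => ⟨Bar.nonneg h, fun _ _ ht hM => summable_of_sum_range_le
  (fun k => mul_nonneg (Bar.nonneg h k).1 (by positivity)) (Bar.bar h ht hM)⟩

theorem stSer (hb : StBar) (ho : StOde) (hf : StFin) : StSer := by
  refine ⟨Bar.ex, fun v c s h => ?_⟩
  obtain ⟨n, hb⟩ := hb v c s h
  have n1 := fun k => (n k).1
  let A : Set ℝ := {t | 0 ≤ t ∧ Summable fun k => v k * t ^ k}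
  have dn : ∀ t ∈ A, ∀ x, 0 ≤ x → x ≤ t → Summable fun k => v k * x ^ k := fun t ht x hx e =>
    ht.2.of_nonneg_of_le (fun k => mul_nonneg (n1 k) (by positivity)) (Bar.mono n1 hx e)
  have up : ∀ t ∈ A, ∀ M, ∑' k, v k * t ^ k ≤ M → t + exp (-(M + 1)) ∈ A := fun t ht M e =>
    ⟨add_nonneg ht.1 (exp_pos _).le, hb t M ht.1 fun K => (ht.2.sum_le_tsum _ fun k _ =>
      mul_nonneg (n1 k) (pow_nonneg ht.1 _)).trans e⟩
  have a0 : 0 ∈ A := ⟨le_rfl, summable_of_ne_finset_zero (s := {0}) fun k hk => by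
    rw [zero_pow (by simpa using hk), mul_zero]⟩
  have bd : BddAbove A := ⟨4, fun t ht => ht.1.eq_or_lt.elim (fun e => e ▸ by norm_num) fun e =>
    hf t _ (ho v c s h n t e fun x hx => dn t ht x hx.1 hx.2.le)⟩
  have lt : ∀ t ∈ A, t < sSup A := fun t ht =>
    (lt_add_of_pos_right t (exp_pos _)).trans_le (le_csSup bd (up t ht _ le_rfl))
  have sm : ∀ t, 0 ≤ t → t < sSup A → Summable fun k => v k * t ^ k := fun t h0 ht =>
    let ⟨x, hx, e⟩ := exists_lt_of_lt_csSup ⟨0, a0⟩ ht
    dn x hx t h0 e.le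
  obtain ⟨p1, p2, p3, p4⟩ := ho v c s h n _ (lt 0 a0) fun t ht => sm t ht.1 ht.2
  refine ⟨sSup A, ⟨p1, p2, p3, p4, tendsto_atTop.2 fun M => ?_⟩,
    fun t ht => ⟨fun e => lt t ⟨ht, e⟩, sm t ht⟩⟩
  obtain ⟨x, hx, e⟩ := exists_lt_of_lt_csSup ⟨0, a0⟩ (sub_lt_self (sSup A) (exp_pos (-(M + 1))))
  have e2 : M ≤ ∑' k, v k * x ^ k := by
    by_contra q
    linarith [lt _ (up x hx M (not_le.1 q).le)]
  filter_upwards [Ioo_mem_nhdsLT (lt x hx)] with t ht
  exact e2.trans (hx.2.tsum_le_tsum (Bar.mono n1 hx.1 ht.1.le) (sm t (hx.1.trans ht.1.le) ht.2))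

end Pool.Agent.Lib.MP_f9c8ff_an.P3
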