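import Pool.Agent.Lib.MP_f9c8ff_an.P3.St

/-! The comparison principle for the triangular system, positivity and uniqueness. -/

namespace Pool.Agent.Lib.MP_f9c8ff_an.P3

open Real Filter Topology Set

namespace Cmp

theorem cont {f f' : ℝ → ℝ} {b x : ℝ} (h : ∀ y ∈ Ico 0 b, HasDerivWithinAt f (f' y) (Ici 0) y)
    (hx : x < b) : ContinuousOn f (Icc 0 x) := fun y hy =>
  (h y ⟨hy.1, hy.2.trans_lt hx⟩).continuousWithinAt.mono Icc_subset_Ici_self

theorem right {f f' : ℝ → ℝ} {b x : ℝ} (h : ∀ y ∈ Ico 0 b, HasDerivWithinAt f (f' y) (Ici 0) y)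
    (hx : x < b) : ∀ y ∈ Ico 0 x, HasDerivWithinAt f (f' y) (Ici y) y := fun y hy =>
  (h y ⟨hy.1, hy.2.trans hx⟩).mono (Ici_subset_Ici.mpr hy.1)

theorem rhs_pos (S : ℕ → ℝ → ℝ) (k : ℕ) (x : ℝ) : 0 < rhs S k x :=
  add_pos_of_nonneg_of_pos (Finset.sum_nonneg fun _ _ => (cosh_pos _).le)
    (half_pos (cosh_pos _))

end Cmp

theorem stCmp : StCmp := by
  intro N b S T S' T' h0 hpos hS hT hlt k
  induction k using Nat.strong_induction_on with
  | _ k ih =>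
    intro hk x hx
    refine image_le_of_deriv_right_lt_deriv_boundary' (Cmp.cont (hS k hk) hx.2)
      (Cmp.right (hS k hk) hx.2) (h0 k hk) (Cmp.cont (hT k hk) hx.2) (Cmp.right (hT k hk) hx.2)
      (fun y hy he => ?_) ⟨hx.1, le_rfl⟩
    have hy' : y ∈ Ico 0 b := ⟨hy.1, hy.2.trans hx.2⟩
    have h1 : rhs S k y ≤ rhs T k y := by
      unfold rhs
      rw [he]
      refine add_le_add (Finset.sum_le_sum fun j hj => ?_) le_rfl
      have hj' := Finset.mem_Ico.mp hj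
      have hjN : j ∈ Finset.Icc 1 N :=
        Finset.mem_Icc.mpr ⟨hj'.1, hj'.2.le.trans (Finset.mem_Icc.mp hk).2⟩
      have h2 := hpos j hjN y hy'
      have h3 := ih j hj'.2 hjN y hy'
      rw [cosh_le_cosh, abs_of_nonneg h2, abs_of_nonneg (h2.trans h3)]
      exact h3
    have := hlt k hk y hy'
    linarith

theorem stTriPos : StTriPos := by
  intro N μ S h k hk x hx
  have hS : ∀ y ∈ Ico 0 μ, HasDerivWithinAt (S k) (rhs S k y) (Ici 0) y := (h.2.1 k hk).2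
  exact image_le_of_deriv_right_lt_deriv_boundary' (f := fun _ => 0) (f' := fun _ => 0)
    continuousOn_const (fun y _ => hasDerivWithinAt_const y _ _) (h.2.1 k hk).1.ge
    (Cmp.cont hS hx.2) (Cmp.right hS hx.2) (fun y _ _ => Cmp.rhs_pos S k y) ⟨hx.1, le_rfl⟩

theorem Cmp.not_lt {N : ℕ} {μ μ' : ℝ} {S S' : ℕ → ℝ → ℝ} (hN : 1 ≤ N) (h : Tri N μ S)
    (h' : Tri N μ' S') : ¬ μ < μ' := by
  intro hlt
  have hμ := h.1
  obtain ⟨l, hl1, hl2⟩ : ∃ l : ℝ, 1 < l ∧ l * μ < μ' := by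
    refine ⟨(μ + μ') / (2 * μ), ?_, ?_⟩
    · rw [lt_div_iff₀ (by positivity)]
      linarith
    · have : (μ + μ') / (2 * μ) * μ = (μ + μ') / 2 := by field_simp
      rw [this]
      linarith
  have hm : ∀ x ∈ Ico 0 μ, l * x ∈ Icc 0 (l * μ) := fun x hx =>
    ⟨mul_nonneg (by linarith) hx.1, mul_le_mul_of_nonneg_left hx.2.le (by linarith)⟩
  have hS' : ∀ k ∈ Finset.Icc 1 N, ∀ y ∈ Ico 0 μ',
      HasDerivWithinAt (S' k) (rhs S' k y) (Ici 0) y := fun k hk => (h'.2.1 k hk).2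
  have hNN : N ∈ Finset.Icc 1 N := Finset.mem_Icc.mpr ⟨hN, le_rfl⟩
  have hc := stCmp N μ S (fun k x => S' k (l * x)) (rhs S) (fun k x => rhs S' k (l * x) * l)
    (fun k hk => by simp only [mul_zero, (h.2.1 k hk).1, (h'.2.1 k hk).1, le_refl])
    (stTriPos N μ S h) (fun k hk => (h.2.1 k hk).2)
    (fun k hk x hx => by
      have h1 : HasDerivWithinAt (fun x : ℝ => l * x) l (Ici 0) x := by
        simpa using (hasDerivWithinAt_id x (Ici (0 : ℝ))).const_mul l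
      exact (hS' k hk (l * x) ⟨(hm x hx).1, (hm x hx).2.trans_lt hl2⟩).comp x h1
        fun y hy => mul_nonneg (zero_le_one.trans hl1.le) (mem_Ici.mp hy))
    (fun k _ x _ => by
      have h1 : rhs (fun k x => S' k (l * x)) k x = rhs S' k (l * x) := rfl
      have h2 := Cmp.rhs_pos S' k (l * x)
      rw [h1]
      nlinarith) N hNN
  obtain ⟨M, hM⟩ := isCompact_Icc.bddAbove_image (Cmp.cont (hS' N hNN) hl2)
  obtain ⟨x, hx1, hx2⟩ := ((h.2.2.eventually_gt_atTop M).and (Ico_mem_nhdsLT hμ)).exists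
  exact absurd ((hc x hx2).trans (hM ⟨_, hm x hx2, rfl⟩)) (not_le.mpr hx1)

theorem stTriUniq : StTriUniq := fun _ _ _ _ _ hN h h' =>
  le_antisymm (not_lt.mp (Cmp.not_lt hN h' h)) (not_lt.mp (Cmp.not_lt hN h h'))

end Pool.Agent.Lib.MP_f9c8ff_an.P3
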