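import Mathlib

/-! Definitions for the Nikolskii constant and the Painleve III description. -/

namespace Pool.Agent.Lib.MP_f9c8ff_an.P3

open Real Filter Topology

/-- The real trigonometric polynomial of degree at most `n` with coefficients `a k`, `b k`. -/
noncomputable def trig (n : ℕ) (a b : ℕ → ℝ) (θ : ℝ) : ℝ :=
  a 0 / 2 + ∑ k ∈ Finset.Icc 1 n, (a k * cos (k * θ) + b k * sin (k * θ))

/-- `Cn n` is the supremum of `max |P| / (n / (2π) * ∫ |P|)` over nonzero `P` of degree `≤ n`. -/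
noncomputable def Cn (n : ℕ) : ℝ :=
  sSup {r : ℝ | ∃ a b : ℕ → ℝ, trig n a b ≠ 0 ∧
    r = sSup ((fun θ => |trig n a b θ|) '' Set.Icc (-π) π) /
      (n / (2 * π) * ∫ θ in (-π)..π, |trig n a b θ|)}

/-- The asymptotic sharp constant. -/
noncomputable def C : ℝ := limsup Cn atTop

/-- `v` solves `(t v')' = cosh v` on `(0, κ)`, is right-continuous at `0` with `v 0 = 0`,
and tends to `+∞` as `t ↑ κ`. -/
def Sol (κ : ℝ) (v : ℝ → ℝ) : Prop :=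
  0 < κ ∧ v 0 = 0 ∧ ContinuousWithinAt v (Set.Ici 0) 0 ∧
  (∀ t ∈ Set.Ioo 0 κ, DifferentiableAt ℝ v t ∧
    HasDerivAt (fun s => s * deriv v s) (cosh (v t)) t) ∧
  Tendsto v (𝓝[<] κ) atTop

/-- `S 1, …, S N` solve `S k ' = cosh (S 1) + … + cosh (S (k-1)) + cosh (S k) / 2` on `[0, μ)`
with `S k 0 = 0`, and `S N` tends to `+∞` as `x ↑ μ`. -/
def Tri (N : ℕ) (μ : ℝ) (S : ℕ → ℝ → ℝ) : Prop :=
  0 < μ ∧
  (∀ k ∈ Finset.Icc 1 N, S k 0 = 0 ∧ ∀ x ∈ Set.Ico 0 μ,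
    HasDerivWithinAt (S k) (∑ j ∈ Finset.Ico 1 k, cosh (S j x) + cosh (S k x) / 2)
      (Set.Ici 0) x) ∧
  Tendsto (S N) (𝓝[<] μ) atTop

/-- The recursion for the Taylor coefficients `v k`, `c k`, `s k` of `v`, `cosh v`, `sinh v`. -/
def Rec (v c s : ℕ → ℝ) : Prop :=
  v 0 = 0 ∧ c 0 = 1 ∧ s 0 = 0 ∧ ∀ k : ℕ,
    (k + 1) ^ 2 * v (k + 1) = c k ∧
    (k + 1) * c (k + 1) = ∑ j ∈ Finset.range (k + 1), (j + 1) * v (j + 1) * s (k - j) ∧
    (k + 1) * s (k + 1) = ∑ j ∈ Finset.range (k + 1), (j + 1) * v (j + 1) * c (k - j)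

end Pool.Agent.Lib.MP_f9c8ff_an.P3
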