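import Pool.Agent.Lib.MP_f9c8ff_an.P3.St

/-! The Schur algorithm for `tan ((μ/4)(1+z)/(1-z))` on power series and its flow in `μ`. -/

namespace Pool.Agent.Lib.MP_f9c8ff_an.P3

open PowerSeries Filter Topology
open scoped Nat

/-- The series `X / (1 - X)`. -/
noncomputable def gg : ℝ⟦X⟧ := mk fun k => if k = 0 then 0 else 1

theorem gg_eq : X * (1 + gg) = gg := by
  ext k
  cases k with
  | zero => simp [gg]
  | succ k =>
    rw [coeff_succ_X_mul]
    cases k <;> simp [gg, coeff_one]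

noncomputable def cf (j m : ℕ) : ℝ := coeff m (gg ^ j)

theorem cf_zero {j m : ℕ} (h : m < j) : cf j m = 0 := by
  have h1 : (X : ℝ⟦X⟧) ^ j ∣ gg ^ j := pow_dvd_pow_of_dvd ⟨_, gg_eq.symm⟩ j
  exact X_pow_dvd_iff.mp h1 m h

theorem cf_succ (j m : ℕ) :
    cf (j + 1) m = ∑ p ∈ Finset.HasAntidiagonal.antidiagonal m, coeff p.1 gg * cf j p.2 := by
  simp only [cf]
  rw [pow_succ', coeff_mul]

noncomputable def tt (μ : ℝ) (j : ℕ) : ℂ := (Complex.I * μ / 2) ^ j / j !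

noncomputable def F0 (μ : ℝ) (m : ℕ) : ℂ :=
  Complex.exp (Complex.I * μ / 4) * ∑ j ∈ Finset.range (m + 1), tt μ j * cf j m

theorem F0_ext (μ : ℝ) {m K : ℕ} (h : m < K) :
    F0 μ m = Complex.exp (Complex.I * μ / 4) * ∑ j ∈ Finset.range K, tt μ j * cf j m := by
  rw [F0]
  congr 1
  refine Finset.sum_subset (Finset.range_subset_range.mpr h) fun j _ hj => ?_
  rw [cf_zero (by simpa using hj)]
  simp

theorem tt_deriv (μ : ℝ) (j : ℕ) :
    HasDerivAt (fun x : ℝ => tt x (j + 1)) (Complex.I / 2 * tt μ j) μ := by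
  have h1 : HasDerivAt (fun x : ℝ => Complex.I * (x : ℂ) / 2) (Complex.I / 2) μ := by
    simpa using ((Complex.ofRealCLM.hasDerivAt (x := μ)).const_mul Complex.I).div_const 2
  have h2 := (h1.fun_pow (j + 1)).div_const ((j + 1)! : ℂ)
  refine h2.congr_deriv ?_
  have : ((j ! : ℕ) : ℂ) ≠ 0 := by exact_mod_cast Nat.factorial_ne_zero j
  have h3 : ((j : ℂ) + 1) ≠ 0 := by exact_mod_cast Nat.succ_ne_zero j
  simp only [tt, Nat.factorial_succ, Nat.add_sub_cancel]
  push_cast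
  field_simp

theorem F0_deriv (μ : ℝ) (m : ℕ) : HasDerivAt (fun x : ℝ => F0 x m)
    (Complex.I / 4 * F0 μ m + Complex.I / 2 *
      ∑ p ∈ Finset.HasAntidiagonal.antidiagonal m, ((coeff p.1 gg : ℝ) : ℂ) * F0 μ p.2) μ := by
  have h1 : HasDerivAt (fun x : ℝ => Complex.exp (Complex.I * (x : ℂ) / 4))
      (Complex.exp (Complex.I * μ / 4) * (Complex.I / 4)) μ := by
    have : HasDerivAt (fun x : ℝ => Complex.I * (x : ℂ) / 4) (Complex.I / 4) μ := by
      simpa using ((Complex.ofRealCLM.hasDerivAt (x := μ)).const_mul Complex.I).div_const 4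
    exact this.cexp
  have h2 : HasDerivAt (fun x : ℝ => ∑ j ∈ Finset.range (m + 1), tt x j * (cf j m : ℂ))
      (∑ j ∈ Finset.range m, Complex.I / 2 * tt μ j * cf (j + 1) m) μ := by
    simp only [Finset.sum_range_succ']
    have h0 : (fun x : ℝ => ∑ j ∈ Finset.range m, tt x (j + 1) * (cf (j + 1) m : ℂ)
        + tt x 0 * (cf 0 m : ℂ)) = fun x : ℝ =>
        ∑ j ∈ Finset.range m, tt x (j + 1) * (cf (j + 1) m : ℂ) + (cf 0 m : ℂ) := by
      funext x; simp [tt]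
    rw [h0]
    exact (HasDerivAt.fun_sum fun j _ => (tt_deriv μ j).mul_const _).add_const _
  refine (h1.mul h2).congr_deriv ?_
  have h3 : ∑ p ∈ Finset.HasAntidiagonal.antidiagonal m, ((coeff p.1 gg : ℝ) : ℂ) * F0 μ p.2
      = Complex.exp (Complex.I * μ / 4) * ∑ j ∈ Finset.range m, tt μ j * cf (j + 1) m := by
    have h4 : ∑ j ∈ Finset.range m, tt μ j * (cf (j + 1) m : ℂ)
        = ∑ j ∈ Finset.range (m + 1), tt μ j * (cf (j + 1) m : ℂ) := by
      rw [Finset.sum_range_succ, cf_zero (Nat.lt_succ_self m)]; simp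
    rw [h4]
    simp only [cf_succ]
    push_cast
    simp only [Finset.mul_sum]
    rw [Finset.sum_comm]
    refine Finset.sum_congr rfl fun p hp => ?_
    have hp' : p.2 < m + 1 := by
      have := Finset.HasAntidiagonal.mem_antidiagonal.mp hp
      omega
    rw [F0_ext μ hp']
    simp only [Finset.mul_sum]
    exact Finset.sum_congr rfl fun j _ => by ring
  rw [h3, F0]
  simp only [mul_assoc, ← Finset.mul_sum]
  ring

noncomputable def P0 (μ : ℝ) : ℝ⟦X⟧ := mk fun m => (F0 μ m).im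
noncomputable def Q0 (μ : ℝ) : ℝ⟦X⟧ := mk fun m => (F0 μ m).re

/-- Coefficientwise derivative in the parameter. -/
def HD (F : ℝ → ℝ⟦X⟧) (G : ℝ⟦X⟧) (μ : ℝ) : Prop :=
  ∀ m, HasDerivAt (fun x => coeff m (F x)) (coeff m G) μ

/-- The series `(1 + X) / (1 - X)`. -/
noncomputable def ga : ℝ⟦X⟧ := 1 + 2 * gg

theorem coeff_ga_mul (r : ℝ) (F : ℝ⟦X⟧) (m : ℕ) : coeff m (PowerSeries.C r * ga * F)
    = r * coeff m F + 2 * r * ∑ p ∈ Finset.HasAntidiagonal.antidiagonal m, coeff p.1 gg * coeff p.2 F := by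
  have : PowerSeries.C r * ga * F
      = PowerSeries.C r * F + PowerSeries.C (2 * r) * (gg * F) := by
    rw [ga, map_mul, map_ofNat]; ring
  rw [this, map_add, coeff_C_mul, coeff_C_mul, coeff_mul]

theorem P0_deriv (μ : ℝ) : HD P0 (PowerSeries.C (1 / 4) * ga * Q0 μ) μ := by
  intro m
  have h := (Complex.imCLM.hasFDerivAt.comp_hasDerivAt μ (F0_deriv μ m))
  simp only [P0, coeff_mk]
  refine h.congr_deriv ?_
  rw [coeff_ga_mul]
  simp [Q0, Complex.re_sum, Complex.im_sum]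
  norm_num

theorem Q0_deriv (μ : ℝ) : HD Q0 (PowerSeries.C (-(1 / 4)) * ga * P0 μ) μ := by
  intro m
  have h := (Complex.reCLM.hasFDerivAt.comp_hasDerivAt μ (F0_deriv μ m))
  simp only [Q0, coeff_mk]
  refine h.congr_deriv ?_
  rw [coeff_ga_mul]
  simp [P0, Complex.re_sum, Complex.im_sum]
  norm_num

/-- Division by `X`. -/
noncomputable def dv (F : ℝ⟦X⟧) : ℝ⟦X⟧ := mk fun m => coeff (m + 1) F

theorem dv_X_mul (F : ℝ⟦X⟧) : dv (X * F) = F := by
  ext m; simp [dv, coeff_succ_X_mul]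

theorem X_mul_dv {F : ℝ⟦X⟧} (h : coeff 0 F = 0) : X * dv F = F := by
  ext m
  cases m with
  | zero => simpa using h.symm
  | succ m => simp [dv, coeff_succ_X_mul]

theorem HD.dv {F : ℝ → ℝ⟦X⟧} {G : ℝ⟦X⟧} {μ : ℝ} (h : HD F (X * G) μ) :
    HD (fun x => dv (F x)) G μ := by
  intro m
  have := h (m + 1)
  rw [coeff_succ_X_mul] at this
  simpa [P3.dv] using this

theorem HD.comb {F G : ℝ → ℝ⟦X⟧} {F' G' : ℝ⟦X⟧} {a : ℝ → ℝ} {a' μ : ℝ} (hF : HD F F' μ)
    (hG : HD G G' μ) (ha : HasDerivAt a a' μ) :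
    HD (fun x => F x - PowerSeries.C (a x) * G x)
      (F' - PowerSeries.C a' * G μ - PowerSeries.C (a μ) * G') μ := by
  intro m
  simp only [map_sub, coeff_C_mul]
  refine ((hF m).sub (ha.mul (hG m))).congr_deriv ?_
  ring

/-- The Schur algorithm. -/
noncomputable def PQ (μ : ℝ) : ℕ → ℝ⟦X⟧ × ℝ⟦X⟧
  | 0 => (P0 μ, Q0 μ)
  | k + 1 =>
    (dv ((PQ μ k).1 - PowerSeries.C (coeff 0 (PQ μ k).1 / coeff 0 (PQ μ k).2) * (PQ μ k).2),
      (PQ μ k).2 - PowerSeries.C (coeff 0 (PQ μ k).1 / coeff 0 (PQ μ k).2) * (PQ μ k).1)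

noncomputable def PP (k : ℕ) (μ : ℝ) : ℝ⟦X⟧ := (PQ μ k).1
noncomputable def QQ (k : ℕ) (μ : ℝ) : ℝ⟦X⟧ := (PQ μ k).2
/-- The Schur parameters. -/
noncomputable def aa (k : ℕ) (μ : ℝ) : ℝ := coeff 0 (PP k μ) / coeff 0 (QQ k μ)
noncomputable def EE (k : ℕ) (μ : ℝ) : ℝ := ∏ j ∈ Finset.range k, (1 + aa j μ) / (1 - aa j μ)

theorem PP_succ (k : ℕ) (μ : ℝ) :
    PP (k + 1) μ = dv (PP k μ - PowerSeries.C (aa k μ) * QQ k μ) := rfl
theorem QQ_succ (k : ℕ) (μ : ℝ) :
    QQ (k + 1) μ = QQ k μ - PowerSeries.C (aa k μ) * PP k μ := rfl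

theorem F0_zero (μ : ℝ) : F0 μ 0 = Complex.exp (Complex.I * μ / 4) := by
  simp [F0, tt, cf]

theorem QQ_zero (μ : ℝ) : coeff 0 (QQ 0 μ) = Real.cos (μ / 4) := by
  have : Complex.I * μ / 4 = ((μ / 4 : ℝ) : ℂ) * Complex.I := by push_cast; ring
  simp only [QQ, PQ, Q0, coeff_mk, F0_zero, this, Complex.exp_ofReal_mul_I_re]

theorem QQ_ne {μ : ℝ} (hc : Real.cos (μ / 4) ≠ 0) :
    ∀ k, (∀ j < k, |aa j μ| < 1) → coeff 0 (QQ k μ) ≠ 0
  | 0, _ => by rwa [QQ_zero]
  | k + 1, h => by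
    have h1 := QQ_ne hc k fun j hj => h j (by omega)
    have h2 := h k (by omega)
    have h3 : coeff 0 (PP k μ) = aa k μ * coeff 0 (QQ k μ) := by rw [aa]; field_simp
    rw [QQ_succ, map_sub, coeff_C_mul, h3]
    have h4 : aa k μ ^ 2 < 1 := by rwa [sq_lt_one_iff_abs_lt_one]
    have : coeff 0 (QQ k μ) - aa k μ * (aa k μ * coeff 0 (QQ k μ))
        = (1 - aa k μ ^ 2) * coeff 0 (QQ k μ) := by ring
    rw [this]
    exact mul_ne_zero (by linarith) h1

theorem X_mul_PP {μ : ℝ} {k : ℕ} (h : coeff 0 (QQ k μ) ≠ 0) :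
    X * PP (k + 1) μ = PP k μ - PowerSeries.C (aa k μ) * QQ k μ := by
  rw [PP_succ]
  refine X_mul_dv ?_
  rw [map_sub, coeff_C_mul, aa]
  field_simp
  ring

theorem EE_pos {μ : ℝ} {k : ℕ} (h : ∀ j < k, |aa j μ| < 1) : 0 < EE k μ :=
  Finset.prod_pos fun j hj => by
    have := abs_lt.mp (h j (Finset.mem_range.mp hj))
    exact div_pos (by linarith [this.1]) (by linarith [this.2])

noncomputable def ss (k : ℕ) (μ : ℝ) : ℝ := (EE k μ - (EE k μ)⁻¹) / 8
noncomputable def dd (k : ℕ) (μ : ℝ) : ℝ := (EE k μ + (EE k μ)⁻¹) / 8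
noncomputable def cc (k : ℕ) (μ : ℝ) : ℝ := if k = 0 then 0 else dd k μ

/-- The linear flow at level `k`. -/
def Lax (k : ℕ) (μ : ℝ) : Prop := ∃ σ : ℝ,
  HD (PP k) ((PowerSeries.C σ + PowerSeries.C (ss k μ) * ga) * PP k μ
    + (PowerSeries.C (cc k μ) + PowerSeries.C (dd k μ) * ga) * QQ k μ) μ ∧
  HD (QQ k) ((PowerSeries.C (cc k μ) - PowerSeries.C (dd k μ) * ga) * PP k μ
    + (PowerSeries.C σ - PowerSeries.C (ss k μ) * ga) * QQ k μ) μ

theorem ga_zero : constantCoeff ga = 1 := by simp [ga, gg]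

theorem Lax.aa_deriv {k : ℕ} {μ : ℝ} (h : Lax k μ) (hq : coeff 0 (QQ k μ) ≠ 0) :
    HasDerivAt (aa k) (cc k μ * (1 - aa k μ ^ 2) + dd k μ * (1 + aa k μ ^ 2)
      + 2 * ss k μ * aa k μ) μ := by
  obtain ⟨σ, hP, hQ⟩ := h
  have h1 := (hP 0).div (hQ 0) hq
  refine h1.congr_deriv ?_
  have h3 : coeff 0 (PP k μ) = aa k μ * coeff 0 (QQ k μ) := by rw [aa]; field_simp
  simp only [coeff_zero_eq_constantCoeff, map_add, map_sub, map_mul, constantCoeff_C, ga_zero]
    at h3 hq ⊢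
  rw [h3]
  field_simp
  ring

theorem lax {μ : ℝ} (hc : Real.cos (μ / 4) ≠ 0) : ∀ k, (∀ j < k, |aa j μ| < 1) → Lax k μ
  | 0, _ => by
    refine ⟨0, ?_, ?_⟩
    · have := P0_deriv μ
      have e : dd 0 μ = 1 / 4 := by simp [dd, EE]; norm_num
      change HD P0 _ μ
      simpa [ss, cc, e, EE, PP, QQ, PQ] using this
    · have := Q0_deriv μ
      have e : dd 0 μ = 1 / 4 := by simp [dd, EE]; norm_num
      change HD Q0 _ μ
      simpa [ss, cc, e, EE, PP, QQ, PQ] using this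
  | k + 1, h => by
    have h' : ∀ j < k, |aa j μ| < 1 := fun j hj => h j (by omega)
    have hL := lax hc k h'
    have hq := QQ_ne hc k h'
    have ha := hL.aa_deriv hq
    obtain ⟨σ, hP, hQ⟩ := hL
    have hE := EE_pos h'
    have hab := abs_lt.mp (h k (by omega))
    have h1 : 1 - aa k μ ≠ 0 := by linarith [hab.2]
    have h2 : 1 + aa k μ ≠ 0 := by linarith [hab.1]
    have hE' : EE (k + 1) μ = EE k μ * ((1 + aa k μ) / (1 - aa k μ)) := by
      rw [EE, Finset.prod_range_succ, ← EE]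
    set a := aa k μ with ha0
    set s := ss k μ with hs0
    set d := dd k μ with hd0
    set c := cc k μ with hc0
    set s' := ss (k + 1) μ with hs1
    set d' := dd (k + 1) μ with hd1
    have e1 : s' = s + a * d + a * d' := by
      rw [hs1, hs0, hd0, hd1, ss, ss, dd, dd, hE']; field_simp; ring
    have e2 : d' = d + a * s + a * s' := by
      rw [hs1, hs0, hd0, hd1, ss, ss, dd, dd, hE']; field_simp; ring
    have e3 : c * (1 - a ^ 2) + d * (1 + a ^ 2) + 2 * s * a = (1 - a ^ 2) * (c + d') := by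
      linear_combination (-1 : ℝ) * e2 - a * e1
    rw [e3] at ha
    have hX := X_mul_PP hq
    have hg : X * (ga + 1) = ga - 1 := by rw [ga]; linear_combination 2 * gg_eq
    have E1 := congrArg (PowerSeries.C (R := ℝ)) e1
    have E2 := congrArg (PowerSeries.C (R := ℝ)) e2
    simp only [map_add, map_mul] at E1 E2
    refine ⟨σ - a * (c + d'), ?_, ?_⟩
    · have h5 := hP.comb hQ ha
      have : (fun x => PP (k + 1) x) = fun x =>
          dv (PP k x - PowerSeries.C (aa k x) * QQ k x) := rfl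
      change HD (fun x => PP (k + 1) x) _ μ
      rw [this]
      refine HD.dv ?_
      convert h5 using 1
      rw [QQ_succ]
      simp only [cc, Nat.succ_ne_zero, if_false, ← hd1, ← ha0, map_sub, map_add, map_mul,
        map_pow, map_one] at hX ⊢
      linear_combination
        (PowerSeries.C σ - PowerSeries.C a * (PowerSeries.C c + PowerSeries.C d')
          + PowerSeries.C s' * ga) * hX
        + PowerSeries.C d' * (QQ k μ - PowerSeries.C a * PP k μ) * hg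
        + ga * PP k μ * E1 + ga * QQ k μ * E2
    · have h5 := hQ.comb hP ha
      change HD (fun x => QQ k x - PowerSeries.C (aa k x) * PP k x) _ μ
      convert h5 using 1
      rw [QQ_succ]
      simp only [cc, Nat.succ_ne_zero, if_false, ← hd1, ← ha0, map_sub, map_add, map_mul,
        map_pow, map_one] at hX ⊢
      linear_combination
        -(PowerSeries.C d' * (ga + 1)) * hX + PowerSeries.C d' * PP (k + 1) μ * hg
        - ga * PP k μ * E2 - ga * QQ k μ * E1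

theorem aa_deriv {μ : ℝ} (hc : Real.cos (μ / 4) ≠ 0) {k : ℕ} (h : ∀ j < k, |aa j μ| < 1) :
    HasDerivAt (aa k) (cc k μ * (1 - aa k μ ^ 2)
      + (EE k μ * (1 + aa k μ) ^ 2 + (EE k μ)⁻¹ * (1 - aa k μ) ^ 2) / 8) μ := by
  refine ((lax hc k h).aa_deriv (QQ_ne hc k h)).congr_deriv ?_
  rw [ss, dd]; ring

theorem aa_at_zero : ∀ k, PP k 0 = 0 ∧ aa k 0 = 0
  | 0 => by
    have : PP 0 0 = 0 := by
      ext m
      simp only [PP, PQ, P0, coeff_mk, F0, map_zero]
      rw [Finset.sum_range_succ']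
      simp [tt]
    exact ⟨this, by simp [aa, this]⟩
  | k + 1 => by
    obtain ⟨h1, h2⟩ := aa_at_zero k
    have : PP (k + 1) 0 = 0 := by
      rw [PP_succ, h1, h2]; ext m; simp [dv]
    exact ⟨this, by simp [aa, this]⟩

end Pool.Agent.Lib.MP_f9c8ff_an.P3
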