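import Pool.Agent.Lib.MP_f9c8ff_an.P3.St

/-! From a feasible constant to a holomorphic function with bounded real part. -/

namespace Pool.Agent.Lib.MP_f9c8ff_an.P3

open Real Filter Topology Asymptotics

namespace Herg

noncomputable def cs (k : ℕ) : C(ℝ, ℝ) := ⟨fun θ => cos (k * θ), by fun_prop⟩

noncomputable def sn (k : ℕ) : C(ℝ, ℝ) := ⟨fun θ => sin (k * θ), by fun_prop⟩

/-- The mean value. -/
noncomputable def mv : C(ℝ, ℝ) →ₗ[ℝ] ℝ where
  toFun f := 1 / (2 * π) * ∫ θ in (-π)..π, f θ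
  map_add' f g := by
    simp only [ContinuousMap.add_apply]
    rw [intervalIntegral.integral_add (f.continuous.intervalIntegrable _ _)
      (g.continuous.intervalIntegrable _ _), mul_add]
  map_smul' c f := by
    simp only [ContinuousMap.smul_apply, smul_eq_mul, intervalIntegral.integral_const_mul,
      RingHom.id_apply]
    ring

theorem mv_mono {f g : C(ℝ, ℝ)} (h : ∀ θ, f θ ≤ g θ) : mv f ≤ mv g :=
  mul_le_mul_of_nonneg_left (intervalIntegral.integral_mono_on (by linarith [pi_pos])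
    (f.continuous.intervalIntegrable _ _) (g.continuous.intervalIntegrable _ _) fun θ _ => h θ)
    (by positivity)

theorem mv_cs (k : ℕ) : mv (cs k) = if k = 0 then 1 else 0 := by
  change 1 / (2 * π) * ∫ θ in (-π)..π, cos (k * θ) = _
  split_ifs with h
  · simp [h]
    field_simp
    ring
  · rw [intervalIntegral.integral_comp_mul_left cos (Nat.cast_ne_zero.2 h)]
    simp

theorem mv_sn (k : ℕ) : mv (sn k) = 0 := by
  change 1 / (2 * π) * ∫ θ in (-π)..π, sin (k * θ) = _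
  by_cases h : k = 0
  · simp [h]
  · rw [intervalIntegral.integral_comp_mul_left sin (Nat.cast_ne_zero.2 h)]
    simp

/-- The trigonometric polynomials. -/
def dom (n : ℕ) : Submodule ℝ C(ℝ, ℝ) where
  carrier := {f | ∃ a b, ∀ θ, f θ = trig n a b θ}
  zero_mem' := ⟨0, 0, fun θ => by simp [trig]⟩
  add_mem' := by
    rintro f g ⟨a, b, h⟩ ⟨a', b', h'⟩
    refine ⟨a + a', b + b', fun θ => ?_⟩
    simp only [ContinuousMap.add_apply, h, h', trig, Pi.add_apply, add_mul, Finset.sum_add_distrib]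
    ring
  smul_mem' := by
    rintro c f ⟨a, b, h⟩
    refine ⟨c • a, c • b, fun θ => ?_⟩
    simp only [ContinuousMap.smul_apply, h, trig, Pi.smul_apply, smul_eq_mul, mul_add,
      Finset.mul_sum, mul_assoc]
    ring

theorem cs_mem {n k : ℕ} (h : k ≤ n) : cs k ∈ dom n := by
  rcases Nat.eq_zero_or_pos k with rfl | hk
  · refine ⟨Pi.single 0 2, 0, fun θ => ?_⟩
    rw [trig, Finset.sum_eq_zero fun j hj => by
      simp [Pi.single_eq_of_ne (Nat.ne_of_gt (Finset.mem_Icc.1 hj).1)]]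
    simp [cs]
  · refine ⟨Pi.single k 1, 0, fun θ => ?_⟩
    rw [trig, Finset.sum_eq_single_of_mem k (Finset.mem_Icc.2 ⟨hk, h⟩) fun j _ hj => by
      simp [Pi.single_eq_of_ne hj]]
    simp [cs, Pi.single_eq_of_ne hk.ne]

theorem sn_mem {n k : ℕ} (h : k ≤ n) : sn k ∈ dom n := by
  rcases Nat.eq_zero_or_pos k with rfl | hk
  · exact ⟨0, 0, fun θ => by simp [sn, trig]⟩
  · refine ⟨0, Pi.single k 1, fun θ => ?_⟩
    rw [trig, Finset.sum_eq_single_of_mem k (Finset.mem_Icc.2 ⟨hk, h⟩) fun j _ hj => by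
      simp [Pi.single_eq_of_ne hj]]
    simp [sn]

theorem ext {n : ℕ} {lam : ℝ} (h : Feas n lam) : ∃ g : C(ℝ, ℝ) →ₗ[ℝ] ℝ,
    (∀ f ∈ dom n, g f = lam * f 0) ∧ ∀ f, |g f| ≤ mv |f| := by
  let φ : C(ℝ, ℝ) →ₗ[ℝ] ℝ :=
    { toFun := fun f => lam * f 0
      map_add' := fun f g => by simp [mul_add]
      map_smul' := fun c f => by simp [mul_left_comm] }
  obtain ⟨g, h1, h2⟩ := exists_extension_of_le_sublinear (φ.toPMap (dom n)) (fun f => mv |f|)
    (fun c hc f => by
      rw [← smul_eq_mul, ← map_smul]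
      congr 1
      ext θ
      simp [abs_mul, abs_of_pos hc])
    (fun f g => by
      rw [← map_add]
      exact mv_mono fun θ => by simpa using abs_add_le _ _)
    (by
      rintro ⟨f, a, b, hf⟩
      have := h a b
      simp only [← hf] at this
      exact this)
  refine ⟨g, fun f hf => h1 ⟨f, hf⟩, fun f => abs_le.2 ⟨?_, h2 f⟩⟩
  have := h2 (-f)
  rw [map_neg, abs_neg] at this
  linarith

theorem half {w : ℂ} (hw : ‖w‖ < 1) : 1 ≤ 2 * (1 - w)⁻¹.re := by
  have h0 : 0 < Complex.normSq (1 - w) := Complex.normSq_pos.2 fun h => by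
    rw [← sub_eq_zero.1 h] at hw
    simp at hw
  have h1 : Complex.normSq w < 1 := by
    rw [Complex.normSq_eq_norm_sq]
    exact pow_lt_one₀ (norm_nonneg _) hw two_ne_zero
  rw [Complex.inv_re, ← mul_div_assoc, le_div_iff₀ h0]
  simp only [Complex.normSq_apply, Complex.sub_re, Complex.sub_im, Complex.one_re,
    Complex.one_im] at h1 ⊢
  nlinarith

theorem geo {w : ℂ} (hw : ‖w‖ < 1) (M : ℕ) :
    -(2 * ‖w‖ ^ M / (1 - ‖w‖)) ≤ ∑ k ∈ Finset.range M, 2 * (w ^ k).re - 1 := by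
  have h0 : 1 - w ≠ 0 := fun h => by
    rw [← sub_eq_zero.1 h] at hw
    simp at hw
  have h1 : ∑ k ∈ Finset.range M, w ^ k = (1 - w)⁻¹ - w ^ M / (1 - w) := by
    have := geom_sum_mul_neg w M
    field_simp
    exact this
  have h2 : (w ^ M / (1 - w)).re ≤ ‖w‖ ^ M / (1 - ‖w‖) := by
    refine (Complex.re_le_norm _).trans ?_
    rw [norm_div, norm_pow]
    refine div_le_div_of_nonneg_left (by positivity) (by linarith) ?_
    simpa using norm_sub_norm_le 1 w
  rw [← Finset.mul_sum, ← Complex.re_sum, h1, Complex.sub_re, mul_div_assoc]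
  linarith [half hw]

/-- The truncated kernel. -/
noncomputable def kk (z : ℂ) (M : ℕ) : C(ℝ, ℝ) :=
  ∑ k ∈ Finset.range M, ((2 * (z ^ k).re) • cs k + (2 * (z ^ k).im) • sn k) - cs 0

theorem kk_bd {z : ℂ} (hz : ‖z‖ < 1) (M : ℕ) :
    mv |kk z (M + 1)| ≤ 1 + 2 * (2 * ‖z‖ ^ (M + 1) / (1 - ‖z‖)) := by
  obtain ⟨e, he⟩ : ∃ e, e = 2 * ‖z‖ ^ (M + 1) / (1 - ‖z‖) := ⟨_, rfl⟩
  have e0 : 0 ≤ e := by
    have : 0 < 1 - ‖z‖ := by linarith
    rw [he]
    positivity
  have h1 : ∀ θ, -e ≤ kk z (M + 1) θ := fun θ => by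
    have hn : ‖z * Complex.exp (((-θ : ℝ) : ℂ) * Complex.I)‖ = ‖z‖ := by
      rw [norm_mul, Complex.norm_exp_ofReal_mul_I, mul_one]
    have := geo (hn.trans_lt hz) (M + 1)
    rw [hn, ← he] at this
    refine this.trans_eq ?_
    simp only [kk, ContinuousMap.sub_apply, ContinuousMap.coe_sum, Finset.sum_apply,
      ContinuousMap.add_apply, ContinuousMap.smul_apply, smul_eq_mul, cs, sn, ContinuousMap.coe_mk,
      Nat.cast_zero, zero_mul, cos_zero]
    congr 1
    refine Finset.sum_congr rfl fun k _ => ?_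
    have e1 : (k : ℂ) * (((-θ : ℝ) : ℂ) * Complex.I) = ((-(k * θ) : ℝ) : ℂ) * Complex.I := by
      push_cast
      ring
    rw [mul_pow, ← Complex.exp_nat_mul, e1, Complex.mul_re, Complex.exp_ofReal_mul_I_re,
      Complex.exp_ofReal_mul_I_im, cos_neg, sin_neg]
    ring
  have h2 : mv |kk z (M + 1)| ≤ mv (kk z (M + 1) + (2 * e) • cs 0) := mv_mono fun θ => by
    have := h1 θ
    simp only [ContinuousMap.abs_apply, ContinuousMap.add_apply, ContinuousMap.smul_apply,
      smul_eq_mul, cs, ContinuousMap.coe_mk, Nat.cast_zero, zero_mul, cos_zero]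
    rw [abs_le]
    constructor <;> linarith
  refine h2.trans_eq ?_
  simp [kk, mv_cs, mv_sn, he]
  norm_num

end Herg

open Herg in
theorem stHerg : StHerg := by
  intro n lam hF
  obtain ⟨g, g1, g2⟩ := ext hF
  have b1 : ∀ f : C(ℝ, ℝ), (∀ θ, |f θ| ≤ 1) → |g f| ≤ 1 := fun f hf =>
    (g2 f).trans ((mv_mono (g := cs 0) fun θ => by simpa [cs] using hf θ).trans_eq (mv_cs 0))
  obtain ⟨a, ha⟩ : ∃ a : ℕ → ℂ, ∀ k, a k = 2 * (g (cs k) - g (sn k) * Complex.I) := ⟨_, fun _ => rfl⟩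
  have a1 : ∀ k, ‖a k‖ ≤ 4 := fun k => by
    have h1 := b1 (cs k) fun θ => abs_cos_le_one _
    have h2 := b1 (sn k) fun θ => abs_sin_le_one _
    have h3 := norm_sub_le (g (cs k) : ℂ) (g (sn k) * Complex.I)
    rw [norm_mul, Complex.norm_I, Complex.norm_real, Complex.norm_real, Real.norm_eq_abs,
      Real.norm_eq_abs] at h3
    rw [ha, norm_mul, Complex.norm_ofNat]
    linarith
  have c0 : ∀ k ≤ n, g (cs k) = lam := fun k hk => by rw [g1 _ (cs_mem hk)]; simp [cs]
  have a2 : ∀ k ≤ n, a k = 2 * lam := fun k hk => by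
    rw [ha, c0 k hk, g1 _ (sn_mem hk)]
    simp [sn]
  have bd : ∀ (c : ℕ → ℂ) (B r : ℝ) (z : ℂ), (∀ k, ‖c k‖ ≤ B) → ‖z‖ ≤ r → ∀ k,
      ‖c k * z ^ k‖ ≤ B * r ^ k := fun c B r z hc hz k => by
    rw [norm_mul, norm_pow]
    exact mul_le_mul (hc k) (pow_le_pow_left₀ (norm_nonneg _) hz k) (by positivity)
      ((norm_nonneg _).trans (hc k))
  have sm : ∀ (c : ℕ → ℂ) (B : ℝ) (z : ℂ), (∀ k, ‖c k‖ ≤ B) → ‖z‖ < 1 →
      Summable fun k => c k * z ^ k := fun c B z hc hz => .of_norm_bounded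
    ((summable_geometric_of_lt_one (norm_nonneg z) hz).mul_left B) (bd c B _ z hc le_rfl)
  refine ⟨fun z => ∑' k, a k * z ^ k - lam, fun z hz => ?_, fun z hz => ?_, ?_⟩
  · obtain ⟨r, h1, h2⟩ := exists_between (mem_ball_zero_iff.1 hz)
    refine (((Complex.differentiableOn_tsum_of_summable_norm
      ((summable_geometric_of_lt_one ((norm_nonneg z).trans h1.le) h2).mul_left 4)
      (F := fun k z => a k * z ^ k) (fun k => by fun_prop) (Metric.isOpen_ball (x := 0) (ε := r))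
      fun k w hw => bd a 4 r w a1 (mem_ball_zero_iff.1 hw).le k).differentiableAt
      (Metric.isOpen_ball.mem_nhds (mem_ball_zero_iff.2 h1))).sub_const _).differentiableWithinAt
  · replace hz := mem_ball_zero_iff.1 hz
    have t1 := ((Complex.continuous_re.tendsto _).comp (((sm a 4 z a1 hz).hasSum.tendsto_sum_nat.comp
      (tendsto_add_atTop_nat 1)).sub_const (lam : ℂ))).abs
    have t2 : Tendsto (fun M : ℕ => 1 + 2 * (2 * ‖z‖ ^ (M + 1) / (1 - ‖z‖))) atTop (𝓝 1) := by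
      simpa using ((((((tendsto_pow_atTop_nhds_zero_of_lt_one (norm_nonneg z) hz).comp
        (tendsto_add_atTop_nat 1)).const_mul 2).div_const (1 - ‖z‖)).const_mul 2).const_add 1)
    refine le_of_tendsto_of_tendsto' t1 t2 fun M => le_trans (le_of_eq ?_)
      ((g2 _).trans (kk_bd hz M))
    congr 1
    simp only [Function.comp, kk, map_sub, map_sum, map_add, map_smul, smul_eq_mul,
      c0 0 n.zero_le, Complex.sub_re, Complex.re_sum, Complex.ofReal_re]
    congr 1
    refine Finset.sum_congr rfl fun k _ => ?_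
    simp [ha]
    ring
  · have a3 : ∀ k, ‖a k - 2 * lam‖ ≤ 4 + ‖(2 * lam : ℂ)‖ := fun k =>
      (norm_sub_le _ _).trans (by linarith [a1 k])
    refine IsBigO.of_bound ((4 + ‖(2 * lam : ℂ)‖) * 2) (mem_nhdsWithin_of_mem_nhds ?_)
    filter_upwards [Metric.ball_mem_nhds (0 : ℂ) one_half_pos] with z hz
    replace hz := mem_ball_zero_iff.1 hz
    have h1 : ‖z‖ < 1 := by linarith
    have h0 : 1 - z ≠ 0 := fun h => by
      rw [← sub_eq_zero.1 h] at h1
      simp at h1
    have s1 := (sm a 4 z a1 h1).hasSum.sub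
      ((hasSum_geometric_of_norm_lt_one h1).mul_left (2 * lam : ℂ))
    simp only [← sub_mul] at s1
    have s2 := (hasSum_nat_add_iff' (n + 1)).2 s1
    rw [Finset.sum_eq_zero fun k hk => by
      rw [a2 k (Nat.lt_succ_iff.1 (Finset.mem_range.1 hk)), sub_self, zero_mul], sub_zero] at s2
    have e : ∑' k, a k * z ^ k - lam - lam * ((1 + z) / (1 - z)) =
        ∑' k, a k * z ^ k - 2 * lam * (1 - z)⁻¹ := by
      field_simp
      ring
    change ‖∑' k, a k * z ^ k - lam - lam * ((1 + z) / (1 - z))‖ ≤ _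
    rw [e, mul_right_comm _ (2 : ℝ)]
    refine s2.norm_le_of_bounded (hasSum_geometric_two.mul_left _) fun k => ?_
    rw [pow_add, ← mul_assoc, norm_mul, mul_right_comm _ ‖z ^ (n + 1)‖]
    exact mul_le_mul_of_nonneg_right (bd (fun k => a (k + (n + 1)) - 2 * lam) _ _ z
      (fun k => a3 _) hz.le k) (norm_nonneg _)

end Pool.Agent.Lib.MP_f9c8ff_an.P3
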