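import Pool.Agent.Lib.MP_f9c8ff_an.P3.St

/-! The blow-up time of the triangular system is at most `κ / (N - 1/2)`. -/

namespace Pool.Agent.Lib.MP_f9c8ff_an.P3

open Real Filter Topology Set

namespace Lower

variable {κ : ℝ} {f : ℝ → ℝ}

theorem int (hc : ContinuousOn f (Ico 0 κ)) {p q : ℝ} (hp : 0 ≤ p) (hpq : p ≤ q) (hq : q < κ) :
    IntervalIntegrable f MeasureTheory.volume p q :=
  (hc.mono fun _ ht => ⟨hp.trans ht.1, ht.2.trans_lt hq⟩).intervalIntegrable_of_Icc hpq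

/-- The trapezoid rule for a convex function. -/
theorem trap (hc : ContinuousOn f (Ico 0 κ)) (hx : ConvexOn ℝ (Ico 0 κ) f) {p q : ℝ} (hp : 0 ≤ p)
    (hpq : p < q) (hq : q < κ) : ∫ t in p..q, f t ≤ (q - p) * (f p + f q) / 2 := by
  have d : 0 < q - p := sub_pos.2 hpq
  have e : ∫ t in p..q, ((q * f p - p * f q) / (q - p) + (f q - f p) / (q - p) * t) =
      (q - p) * (f p + f q) / 2 := by
    rw [intervalIntegral.integral_add (by simp) (by
      exact (continuous_const.mul continuous_id).intervalIntegrable _ _),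
      intervalIntegral.integral_const, intervalIntegral.integral_const_mul, integral_id,
      smul_eq_mul]
    field_simp
    ring
  rw [← e]
  refine intervalIntegral.integral_mono_on hpq.le (int hc hp hpq.le hq)
    ((continuous_const.add (continuous_const.mul continuous_id)).intervalIntegrable _ _)
    fun t ht => ?_
  have := hx.2 (x := p) (y := q) ⟨hp, hpq.trans hq⟩ ⟨hp.trans hpq.le, hq⟩
    (div_nonneg (sub_nonneg.2 ht.2) d.le) (div_nonneg (sub_nonneg.2 ht.1) d.le)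
    (by field_simp; ring)
  simp only [smul_eq_mul] at this
  rw [show (q - t) / (q - p) * p + (t - p) / (q - p) * q = t by field_simp; ring] at this
  refine this.trans_eq ?_
  field_simp
  ring

theorem sum_le (hc : ContinuousOn f (Ico 0 κ)) (hm : MonotoneOn f (Ico 0 κ))
    (hx : ConvexOn ℝ (Ico 0 κ) f) {h : ℝ} (h0 : 0 < h) (k : ℕ) (hk : 1 ≤ k) :
    ((k : ℝ) - 1 / 2) * h < κ → ∫ t in (0 : ℝ)..((k : ℝ) - 1 / 2) * h, f t ≤
      h * (∑ j ∈ Finset.Ico 1 k, f (((j : ℝ) - 1 / 2) * h) + f (((k : ℝ) - 1 / 2) * h) / 2) := by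
  induction k, hk using Nat.le_induction with
  | base =>
    intro e
    have p : 0 ≤ (((1 : ℕ) : ℝ) - 1 / 2) * h := by norm_num; exact h0.le
    refine (intervalIntegral.integral_mono_on p (int hc le_rfl p e) (by simp)
      fun t ht => hm ⟨ht.1, ht.2.trans_lt e⟩ ⟨p, e⟩ ht.2).trans_eq ?_
    simp only [intervalIntegral.integral_const, smul_eq_mul, Finset.Ico_self, Finset.sum_empty]
    push_cast
    ring
  | succ k hk ih =>
    intro e
    have k1 : (1 : ℝ) ≤ k := by exact_mod_cast hk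
    have p : 0 ≤ ((k : ℝ) - 1 / 2) * h := mul_nonneg (by linarith) h0.le
    have l : ((k : ℝ) - 1 / 2) * h < (((k + 1 : ℕ) : ℝ) - 1 / 2) * h :=
      mul_lt_mul_of_pos_right (by push_cast; linarith) h0
    rw [← intervalIntegral.integral_add_adjacent_intervals (int hc le_rfl p (l.trans e))
      (int hc p l.le e), Finset.sum_Ico_succ_top hk]
    refine (add_le_add (ih (l.trans e)) (trap hc hx p l e)).trans_eq ?_
    push_cast
    ring

end Lower

open Lower in
theorem stLower (hc : StCmp) (hp : StPre) : StLower := by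
  intro κ v N μ S hN hv hS
  obtain ⟨v0, vc, -, fm, fx, d0, d1⟩ := hp κ v hv.pre
  have fc : ContinuousOn (fun t => cosh (v t)) (Ico 0 κ) := continuous_cosh.comp_continuousOn vc
  have k0 := hv.1
  by_contra! lt
  have ap : ∀ k : ℕ, 1 ≤ k → 0 < (k : ℝ) - 1 / 2 := fun k hk => by
    have : (1 : ℝ) ≤ k := by exact_mod_cast hk
    linarith
  obtain ⟨θ, t1, t2⟩ := exists_between ((div_lt_one (k0.trans lt)).2 lt)
  have t0 : 0 < θ := (div_pos k0 (k0.trans lt)).trans t1
  have c0 : 0 < ((N : ℝ) - 1 / 2) * θ := mul_pos (ap N hN) t0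
  obtain ⟨b, hb⟩ : ∃ b, ((N : ℝ) - 1 / 2) * (θ * b) = κ :=
    ⟨κ / (((N : ℝ) - 1 / 2) * θ), by rw [← mul_assoc, mul_div_cancel₀ _ c0.ne']⟩
  have b0 : 0 < b := (mul_pos_iff_of_pos_left c0).1 (by rw [mul_assoc, hb]; exact k0)
  have bm : b < μ := lt_of_mul_lt_mul_left (by
    rw [div_lt_iff₀ (k0.trans lt)] at t1
    linarith) c0.le
  have mem : ∀ k ∈ Finset.Icc 1 N, ∀ x ∈ Ico 0 b, ((k : ℝ) - 1 / 2) * (θ * x) ∈ Ico 0 κ := by
    intro k hk x hx
    rw [Finset.mem_Icc] at hk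
    have k2 : (k : ℝ) ≤ N := by exact_mod_cast hk.2
    have x0 := mul_nonneg t0.le hx.1
    refine ⟨mul_nonneg (ap k hk.1).le x0, (mul_le_mul_of_nonneg_right (by linarith) x0).trans_lt
      (hb ▸ mul_lt_mul_of_pos_left (mul_lt_mul_of_pos_left hx.2 t0) (ap N hN))⟩
  have lin : ∀ (k : ℕ) x, HasDerivAt (fun x => ((k : ℝ) - 1 / 2) * (θ * x))
      (((k : ℝ) - 1 / 2) * θ) x := fun k x => by
    simpa using ((hasDerivAt_id x).const_mul θ).const_mul ((k : ℝ) - 1 / 2)
  have cmp := hc N b (fun k x => v (((k : ℝ) - 1 / 2) * (θ * x))) S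
    (fun k x => if x = 0 then ((k : ℝ) - 1 / 2) * θ
      else (∫ s in (0 : ℝ)..((k : ℝ) - 1 / 2) * (θ * x), cosh (v s)) / x) (rhs S)
    (fun k hk => by simp [hv.2.1, (hS.2.1 k hk).1]) (fun k hk x hx => v0 _ (mem k hk x hx))
    (fun k hk x hx => ?_) (fun k hk x hx => (hS.2.1 k hk).2 x ⟨hx.1, hx.2.trans bm⟩)
    (fun k hk x hx => ?_) N (Finset.mem_Icc.2 ⟨hN, le_rfl⟩)
  · have a1 : Tendsto (fun x => ((N : ℝ) - 1 / 2) * (θ * x)) (𝓝[<] b) (𝓝[<] κ) :=
      tendsto_nhdsWithin_iff.2 ⟨hb ▸ (lin N b).continuousAt.continuousWithinAt,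
        eventually_nhdsWithin_of_forall fun x hx =>
          hb ▸ mul_lt_mul_of_pos_left (mul_lt_mul_of_pos_left hx t0) (ap N hN)⟩
    have a2 : Tendsto (S N) (𝓝[<] b) atTop := tendsto_atTop_mono' _
      (mem_of_superset (Ico_mem_nhdsLT b0) cmp) (hv.2.2.2.2.comp a1)
    exact not_tendsto_atTop_of_tendsto_nhds (((hS.2.1 N (Finset.mem_Icc.2 ⟨hN, le_rfl⟩)).2 b
      ⟨b0.le, bm⟩).hasDerivAt (Ici_mem_nhds b0)).continuousAt.continuousWithinAt a2
  · have a := ap k (Finset.mem_Icc.1 hk).1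
    split_ifs with e
    · subst e
      have := HasDerivWithinAt.comp_of_eq (0 : ℝ) d0 (lin k 0).hasDerivWithinAt (s := Ici 0)
        (fun x hx => mul_nonneg a.le (mul_nonneg t0.le hx)) (by simp)
      rwa [one_mul] at this
    · have x0 := lt_of_le_of_ne hx.1 (Ne.symm e)
      have := (d1 _ ⟨mul_pos a (mul_pos t0 x0), (mem k hk x hx).2⟩).comp x (lin k x)
      refine this.hasDerivWithinAt.congr_deriv ?_
      generalize (k : ℝ) - 1 / 2 = c at a ⊢
      field_simp
  · have k1 := (Finset.mem_Icc.1 hk).1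
    have a := ap k k1
    rw [sub_self, sub_neg]
    split_ifs with e
    · subst e
      simp only [rhs, mul_zero, hv.2.1, cosh_zero, Finset.sum_const, Nat.card_Ico, nsmul_eq_mul,
        Nat.cast_sub k1]
      nlinarith
    · have x0 := lt_of_le_of_ne hx.1 (Ne.symm e)
      rw [div_lt_iff₀ x0]
      refine (sum_le fc fm fx (mul_pos t0 x0) k k1 (mem k hk x hx).2).trans_lt ?_
      rw [mul_comm (rhs _ _ _) x]
      exact mul_lt_mul_of_pos_right (mul_lt_of_lt_one_left x0 t2) (add_pos_of_nonneg_of_pos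
        (Finset.sum_nonneg fun _ _ => (cosh_pos _).le) (half_pos (cosh_pos _)))

end Pool.Agent.Lib.MP_f9c8ff_an.P3
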