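import Pool.Agent.Lib.MP_f9c8ff_an.P3.St

/-! The power series with coefficients given by the recursion solves the differential equation. -/

namespace Pool.Agent.Lib.MP_f9c8ff_an.P3

open Real Filter Topology

namespace Ode

/-- The power series with coefficients `a` converges absolutely on `[0, ρ)`. -/
def Good (ρ : ℝ) (a : ℕ → ℝ) : Prop := ∀ t ∈ Set.Ico 0 ρ, Summable fun k => |a k| * t ^ k

/-- The sum of the power series. -/
noncomputable def F (a : ℕ → ℝ) (t : ℝ) : ℝ := ∑' k, a k * t ^ k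

/-- The coefficients of the derivative. -/
def D (a : ℕ → ℝ) (k : ℕ) : ℝ := (k + 1) * a (k + 1)

theorem Good.mono {ρ : ℝ} {a b : ℕ → ℝ} (h : Good ρ a) (hb : ∀ k, |b k| ≤ |a k|) : Good ρ b := by
  intro t ht
  refine Summable.of_nonneg_of_le (fun k => ?_) (fun k => ?_) (h t ht)
  · exact mul_nonneg (abs_nonneg _) (pow_nonneg ht.1 _)
  · exact mul_le_mul_of_nonneg_right (hb k) (pow_nonneg ht.1 _)

theorem Good.mul {ρ : ℝ} {a : ℕ → ℝ} (h : Good ρ a) : Good ρ fun k => (k + 1) * a k := by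
  intro t ht
  obtain ⟨h0, h1⟩ := ht
  set u := (t + ρ) / 2 with hu
  have hu0 : 0 < u := by linarith
  have htu : t < u := by linarith
  have hs := h u ⟨hu0.le, by linarith⟩
  have hr0 : 0 ≤ t / u := div_nonneg h0 hu0.le
  have hr1 : t / u < 1 := (div_lt_one hu0).2 htu
  have hn : ‖t / u‖ < 1 := by rw [Real.norm_eq_abs, abs_of_nonneg hr0]; exact hr1
  have hg : Summable fun k : ℕ => ((k : ℝ) + 1) * (t / u) ^ k := by
    have e1 := summable_pow_mul_geometric_of_norm_lt_one 1 hn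
    have e2 := summable_geometric_of_lt_one hr0 hr1
    refine (e1.add e2).congr fun k => ?_
    ring
  have hB : ∀ k : ℕ, ((k : ℝ) + 1) * (t / u) ^ k ≤ ∑' k : ℕ, ((k : ℝ) + 1) * (t / u) ^ k :=
    fun k => hg.le_tsum k fun j _ => by positivity
  refine Summable.of_nonneg_of_le (fun k => by positivity) (fun k => ?_)
    (hs.mul_left (∑' k : ℕ, ((k : ℝ) + 1) * (t / u) ^ k))
  have e : |((k : ℝ) + 1) * a k| * t ^ k = (((k : ℝ) + 1) * (t / u) ^ k) * (|a k| * u ^ k) := by
    rw [abs_mul, abs_of_nonneg (by positivity : (0 : ℝ) ≤ (k : ℝ) + 1), div_pow]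
    field_simp
  rw [e]
  exact mul_le_mul_of_nonneg_right (hB k) (by positivity)

theorem Good.shift {ρ : ℝ} {a : ℕ → ℝ} (h : Good ρ a) : Good ρ fun k => a (k + 1) := by
  intro t ht
  obtain ⟨h0, h1⟩ := ht
  set u := (t + ρ) / 2 with hu
  have hu0 : 0 < u := by linarith
  have htu : t < u := by linarith
  have hs := (summable_nat_add_iff 1).2 (h u ⟨hu0.le, by linarith⟩)
  refine Summable.of_nonneg_of_le (fun k => by positivity) (fun k => ?_) (hs.mul_left u⁻¹)
  have e : u⁻¹ * (|a (k + 1)| * u ^ (k + 1)) = |a (k + 1)| * u ^ k := by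
    rw [pow_succ]
    field_simp
  rw [e]
  exact mul_le_mul_of_nonneg_left (pow_le_pow_left₀ h0 htu.le k) (abs_nonneg _)

theorem Good.unshift {ρ : ℝ} {a : ℕ → ℝ} (h : Good ρ fun k => a (k + 1)) : Good ρ a := by
  intro t ht
  rw [← summable_nat_add_iff 1]
  refine ((h t ht).mul_left t).congr fun k => ?_
  ring

theorem Good.deriv {ρ : ℝ} {a : ℕ → ℝ} (h : Good ρ a) : Good ρ (D a) := h.shift.mul

theorem Good.of_deriv {ρ : ℝ} {a : ℕ → ℝ} (h : Good ρ (D a)) : Good ρ a := by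
  refine Good.unshift (h.mono fun k => ?_)
  rw [D, abs_mul, abs_of_nonneg (by positivity : (0 : ℝ) ≤ (k : ℝ) + 1)]
  have : (0 : ℝ) ≤ k := Nat.cast_nonneg k
  nlinarith [abs_nonneg (a (k + 1))]

theorem Good.norm {ρ : ℝ} {a : ℕ → ℝ} (h : Good ρ a) {x : ℝ} (hx : x ∈ Set.Ioo (-ρ) ρ) :
    Summable fun k => ‖a k * x ^ k‖ := by
  refine (h |x| ⟨abs_nonneg x, abs_lt.2 hx⟩).congr fun k => ?_
  rw [Real.norm_eq_abs, abs_mul, abs_pow]

theorem cauchy_term (a b : ℕ → ℝ) (x : ℝ) (k : ℕ) :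
    ∑ j ∈ Finset.range (k + 1), a j * x ^ j * (b (k - j) * x ^ (k - j)) =
      (∑ j ∈ Finset.range (k + 1), a j * b (k - j)) * x ^ k := by
  rw [Finset.sum_mul]
  refine Finset.sum_congr rfl fun j hj => ?_
  have hj' : j ≤ k := Nat.lt_succ_iff.1 (Finset.mem_range.1 hj)
  have : x ^ k = x ^ j * x ^ (k - j) := by rw [← pow_add, Nat.add_sub_cancel' hj']
  rw [this]; ring

theorem Good.cauchy {ρ : ℝ} {a b : ℕ → ℝ} (ha : Good ρ a) (hb : Good ρ b) :
    Good ρ fun k => ∑ j ∈ Finset.range (k + 1), a j * b (k - j) := by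
  intro t ht
  have hx : t ∈ Set.Ioo (-ρ) ρ := ⟨by linarith [ht.1, ht.2], ht.2⟩
  refine (summable_norm_sum_mul_range_of_summable_norm (ha.norm hx) (hb.norm hx)).congr
    fun k => ?_
  rw [cauchy_term, Real.norm_eq_abs, abs_mul, abs_of_nonneg (pow_nonneg ht.1 k)]

theorem F_mul {ρ : ℝ} {a b : ℕ → ℝ} (ha : Good ρ a) (hb : Good ρ b) {x : ℝ}
    (hx : x ∈ Set.Ioo (-ρ) ρ) :
    F a x * F b x = F (fun k => ∑ j ∈ Finset.range (k + 1), a j * b (k - j)) x := by
  unfold F
  rw [tsum_mul_tsum_eq_tsum_sum_range_of_summable_norm (ha.norm hx) (hb.norm hx)]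
  exact tsum_congr fun k => cauchy_term a b x k

theorem F_zero (a : ℕ → ℝ) : F a 0 = a 0 := by
  unfold F
  rw [tsum_eq_single 0]
  · simp
  · intro k hk
    simp [hk]

theorem Good.hasDerivAt {ρ : ℝ} {a : ℕ → ℝ} (h : Good ρ a) {x : ℝ} (hx : x ∈ Set.Ioo (-ρ) ρ) :
    HasDerivAt (F a) (F (D a) x) x := by
  have hx' : |x| < ρ := abs_lt.2 hx
  set r := (|x| + ρ) / 2 with hr
  have hr0 : 0 < r := by linarith [abs_nonneg x]
  have hxr : |x| < r := by linarith
  have hu : Summable fun n : ℕ => |a n| * (n * r ^ (n - 1)) := by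
    rw [← summable_nat_add_iff 1]
    refine (h.deriv r ⟨hr0.le, by linarith⟩).congr fun k => ?_
    rw [D, abs_mul, abs_of_nonneg (by positivity : (0 : ℝ) ≤ (k : ℝ) + 1)]
    simp only [Nat.add_sub_cancel]
    push_cast
    ring
  have hb : ∀ (n : ℕ) (y : ℝ), y ∈ Set.Ioo (-r) r →
      ‖a n * (n * y ^ (n - 1))‖ ≤ |a n| * (n * r ^ (n - 1)) := by
    intro n y hy
    rw [Real.norm_eq_abs, abs_mul, abs_mul, abs_pow, Nat.abs_cast]
    refine mul_le_mul_of_nonneg_left (mul_le_mul_of_nonneg_left ?_ (Nat.cast_nonneg n))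
      (abs_nonneg _)
    exact pow_le_pow_left₀ (abs_nonneg y) (abs_lt.2 hy).le _
  have hxm : x ∈ Set.Ioo (-r) r := abs_lt.1 hxr
  have key := hasDerivAt_tsum_of_isPreconnected (g := fun n y => a n * y ^ n)
    (g' := fun n y => a n * (n * y ^ (n - 1))) hu isOpen_Ioo isPreconnected_Ioo
    (fun n y _ => (hasDerivAt_pow n y).const_mul (a n)) hb hxm (h.norm hx).of_norm hxm
  have hs : Summable fun n : ℕ => a n * (n * x ^ (n - 1)) :=
    Summable.of_norm_bounded hu fun n => hb n x hxm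
  have e : ∑' n : ℕ, a n * (n * x ^ (n - 1)) = F (D a) x := by
    rw [hs.tsum_eq_zero_add]
    simp only [Nat.cast_zero, zero_mul, mul_zero, zero_add, Nat.add_sub_cancel]
    refine tsum_congr fun k => ?_
    rw [D]
    push_cast
    ring
  rw [← e]
  exact key

theorem const_of_deriv {ρ : ℝ} (hρ : 0 < ρ) {f : ℝ → ℝ}
    (hf : ∀ x ∈ Set.Ioo (-ρ) ρ, HasDerivAt f 0 x) {x : ℝ} (hx : x ∈ Set.Ioo (-ρ) ρ) :
    f x = f 0 := by
  refine IsOpen.is_const_of_deriv_eq_zero isOpen_Ioo isPreconnected_Ioo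
    (fun y hy => (hf y hy).differentiableAt.differentiableWithinAt)
    (fun y hy => (hf y hy).deriv) hx ⟨by linarith, hρ⟩

end Ode

open Ode in
theorem stOde : StOde := by
  intro v c s hR hpos ρ hρ hsum
  obtain ⟨hv0, hc0, hs0, hk⟩ := hR
  have gv : Good ρ v := fun t ht =>
    (hsum t ht).congr fun k => by rw [abs_of_nonneg (hpos k).1]
  have gc : Good ρ c := by
    have e : c = fun k : ℕ => ((k : ℝ) + 1) * D v k := by
      funext k
      rw [← (hk k).1, D]; ring
    rw [e]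
    exact gv.deriv.mul
  have eDs : D s = fun k => ∑ j ∈ Finset.range (k + 1), D v j * c (k - j) := by
    funext k
    exact (hk k).2.2
  have eDc : D c = fun k => ∑ j ∈ Finset.range (k + 1), D v j * s (k - j) := by
    funext k
    exact (hk k).2.1
  have gs : Good ρ s := Good.of_deriv (eDs ▸ gv.deriv.cauchy gc)
  have dV : ∀ x ∈ Set.Ioo (-ρ) ρ, HasDerivAt (F v) (F (D v) x) x := fun x hx => gv.hasDerivAt hx
  have dC : ∀ x ∈ Set.Ioo (-ρ) ρ, HasDerivAt (F c) (F (D v) x * F s x) x := fun x hx => by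
    rw [F_mul gv.deriv gs hx, ← eDc]
    exact gc.hasDerivAt hx
  have dS : ∀ x ∈ Set.Ioo (-ρ) ρ, HasDerivAt (F s) (F (D v) x * F c x) x := fun x hx => by
    rw [F_mul gv.deriv gc hx, ← eDs]
    exact gs.hasDerivAt hx
  have p1 : ∀ x ∈ Set.Ioo (-ρ) ρ, (F c x + F s x) * exp (-F v x) = 1 := by
    intro x hx
    have := const_of_deriv hρ (f := fun y => (F c y + F s y) * exp (-F v y)) (fun y hy => by
      have h := ((dC y hy).add (dS y hy)).mul (dV y hy).neg.exp
      refine h.congr_deriv ?_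
      simp only [Pi.add_apply, Pi.neg_apply]
      ring) hx
    rw [this, F_zero, F_zero, F_zero, hv0, hc0, hs0]
    simp
  have p2 : ∀ x ∈ Set.Ioo (-ρ) ρ, (F c x - F s x) * exp (F v x) = 1 := by
    intro x hx
    have := const_of_deriv hρ (f := fun y => (F c y - F s y) * exp (F v y)) (fun y hy => by
      have h := ((dC y hy).sub (dS y hy)).mul (dV y hy).exp
      refine h.congr_deriv ?_
      simp only [Pi.sub_apply]
      ring) hx
    rw [this, F_zero, F_zero, F_zero, hv0, hc0, hs0]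
    simp
  have hcosh : ∀ x ∈ Set.Ioo (-ρ) ρ, F c x = cosh (F v x) := by
    intro x hx
    have a1 := p1 x hx
    have a2 := p2 x hx
    have a3 : exp (F v x) * exp (-F v x) = 1 := by rw [← exp_add]; simp
    have b1 : F c x + F s x = exp (F v x) := by
      have : (F c x + F s x) * (exp (F v x) * exp (-F v x)) = exp (F v x) := by
        rw [mul_comm (exp (F v x)), ← mul_assoc, a1, one_mul]
      rwa [a3, mul_one] at this
    have b2 : F c x - F s x = exp (-F v x) := by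
      have : (F c x - F s x) * (exp (F v x) * exp (-F v x)) = exp (-F v x) := by
        rw [← mul_assoc, a2, one_mul]
      rwa [a3, mul_one] at this
    rw [cosh_eq]
    linarith
  have gg : Good ρ fun k : ℕ => (k : ℝ) * v k := gv.mul.mono fun k => by
    rw [abs_mul, abs_mul, Nat.abs_cast, abs_of_nonneg (by positivity : (0 : ℝ) ≤ (k : ℝ) + 1)]
    nlinarith [abs_nonneg (v k)]
  have eg : D (fun k : ℕ => (k : ℝ) * v k) = c := by
    funext k
    rw [← (hk k).1, D]
    push_cast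
    ring
  have hmul : ∀ x ∈ Set.Ioo (-ρ) ρ, x * deriv (F v) x = F (fun k : ℕ => (k : ℝ) * v k) x := by
    intro x hx
    rw [(dV x hx).deriv]
    unfold F
    rw [(gg.norm hx).of_norm.tsum_eq_zero_add, ← tsum_mul_left]
    simp only [Nat.cast_zero, zero_mul, zero_add]
    refine tsum_congr fun k => ?_
    rw [D]
    push_cast
    ring
  change Pre ρ (F v)
  refine ⟨hρ, by rw [F_zero, hv0], ?_, fun t ht => ?_⟩
  · exact (dV 0 ⟨by linarith, hρ⟩).continuousAt.continuousWithinAt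
  · have hx : t ∈ Set.Ioo (-ρ) ρ := ⟨by linarith [ht.1], ht.2⟩
    refine ⟨(dV t hx).differentiableAt, ?_⟩
    have h := gg.hasDerivAt hx
    rw [eg, hcosh t hx] at h
    refine h.congr_of_eventuallyEq ?_
    filter_upwards [isOpen_Ioo.mem_nhds hx] with y hy
    exact hmul y hy

end Pool.Agent.Lib.MP_f9c8ff_an.P3
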