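import Pool.Agent.Lib.MP_f9c8ff_an.P3.St

/-! Basic properties of solutions of `(t v')' = cosh v` near `0`, and the bound `κ ≤ 4`. -/

namespace Pool.Agent.Lib.MP_f9c8ff_an.P3

open Real Filter Topology

namespace PreA

variable {κ : ℝ} {v : ℝ → ℝ}

theorem contOn (h : Pre κ v) : ContinuousOn v (Set.Ico 0 κ) := by
  intro t ht
  rcases ht.1.eq_or_lt with h0 | h0
  · subst h0
    exact h.2.2.1.mono Set.Ico_subset_Ici_self
  · exact (h.2.2.2 t ⟨h0, ht.2⟩).1.continuousAt.continuousWithinAt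

theorem coshContOn (h : Pre κ v) : ContinuousOn (fun t => cosh (v t)) (Set.Ico 0 κ) :=
  continuous_cosh.comp_continuousOn (contOn h)

/-- The primitive of `cosh ∘ v` vanishing at `0`. -/
noncomputable def F (v : ℝ → ℝ) (t : ℝ) : ℝ := ∫ s in (0 : ℝ)..t, cosh (v s)

theorem F_zero : F v 0 = 0 := by simp [F]

theorem intInt (h : Pre κ v) {t : ℝ} (ht : t ∈ Set.Ico 0 κ) :
    IntervalIntegrable (fun s => cosh (v s)) MeasureTheory.volume 0 t := by
  apply ContinuousOn.intervalIntegrable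
  rw [Set.uIcc_of_le ht.1]
  exact (coshContOn h).mono (fun s hs => ⟨hs.1, hs.2.trans_lt ht.2⟩)

theorem F_deriv (h : Pre κ v) {t : ℝ} (ht : t ∈ Set.Ioo 0 κ) :
    HasDerivAt (F v) (cosh (v t)) t := by
  have hc : ContinuousOn (fun t => cosh (v t)) (Set.Ioo 0 κ) :=
    (coshContOn h).mono Set.Ioo_subset_Ico_self
  exact intervalIntegral.integral_hasDerivAt_right (intInt h ⟨ht.1.le, ht.2⟩)
    (hc.stronglyMeasurableAtFilter isOpen_Ioo t ht) (hc.continuousAt (isOpen_Ioo.mem_nhds ht))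

theorem F_deriv0 (h : Pre κ v) : HasDerivWithinAt (F v) 1 (Set.Ici 0) 0 := by
  have hc : ContinuousWithinAt (fun t => cosh (v t)) (Set.Ioi 0) 0 :=
    continuous_cosh.continuousAt.comp_continuousWithinAt (h.2.2.1.mono Set.Ioi_subset_Ici_self)
  have hm : StronglyMeasurableAtFilter (fun t => cosh (v t)) (𝓝[Set.Ioi 0] 0) :=
    ⟨Set.Ioo 0 κ, Ioo_mem_nhdsGT h.1,
      ((coshContOn h).mono Set.Ioo_subset_Ico_self).aestronglyMeasurable measurableSet_Ioo⟩
  have h1 := intervalIntegral.integral_hasDerivWithinAt_right (s := Set.Ici 0) (t := Set.Ioi 0)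
    (intInt h ⟨le_rfl, h.1⟩) hm hc
  rw [h.2.1, cosh_zero] at h1
  exact h1

theorem F_contOn (h : Pre κ v) : ContinuousOn (F v) (Set.Ico 0 κ) := by
  intro t ht
  rcases ht.1.eq_or_lt with h0 | h0
  · subst h0
    exact (F_deriv0 h).continuousWithinAt.mono Set.Ico_subset_Ici_self
  · exact (F_deriv h ⟨h0, ht.2⟩).continuousAt.continuousWithinAt

theorem F_div_tendsto (h : Pre κ v) : Tendsto (fun t => F v t / t) (𝓝[>] 0) (𝓝 1) := by
  have h1 : HasDerivWithinAt (F v) 1 (Set.Ioi 0) 0 := (F_deriv0 h).mono Set.Ioi_subset_Ici_self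
  rw [hasDerivWithinAt_iff_tendsto_slope' (by simp)] at h1
  refine h1.congr (fun t => ?_)
  rw [slope_def_field, F_zero, sub_zero, sub_zero]

theorem exists_const (h : Pre κ v) : ∃ c : ℝ, ∀ t ∈ Set.Ioo 0 κ, t * deriv v t - F v t = c := by
  have hd : ∀ t ∈ Set.Ioo 0 κ, HasDerivAt (fun s => s * deriv v s - F v s) 0 t := by
    intro t ht
    have := (h.2.2.2 t ht).2.sub (F_deriv h ht)
    rw [sub_self] at this
    exact this
  exact isOpen_Ioo.exists_is_const_of_deriv_eq_zero isPreconnected_Ioo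
    (fun t ht => (hd t ht).differentiableAt.differentiableWithinAt) (fun t ht => (hd t ht).deriv)

theorem const_zero (h : Pre κ v) {c : ℝ} (hc : ∀ t ∈ Set.Ioo 0 κ, t * deriv v t - F v t = c) :
    c = 0 := by
  have hev : ∀ᶠ t in 𝓝[>] (0 : ℝ), |F v t / t| ≤ 2 ∧ t < κ := by
    have h1 : ∀ᶠ t in 𝓝[>] (0 : ℝ), |F v t / t| < 2 :=
      (F_div_tendsto h).abs.eventually (gt_mem_nhds (by norm_num))
    filter_upwards [h1, Ioo_mem_nhdsGT h.1] with t h2 h3 using ⟨h2.le, h3.2⟩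
  obtain ⟨δ, hδ, hsub⟩ := mem_nhdsGT_iff_exists_Ioo_subset.1 hev
  have hδ0 : 0 < δ := hδ
  have hw : ∀ t ∈ Set.Ioo 0 δ,
      HasDerivWithinAt (fun s => v s - c * log s) (F v t / t) (Set.Ioo 0 δ) t := by
    intro t ht
    have ht' : t ∈ Set.Ioo 0 κ := ⟨ht.1, (hsub ht).2⟩
    have h1 := (h.2.2.2 t ht').1.hasDerivAt.sub ((hasDerivAt_log ht.1.ne').const_mul c)
    have h2 : deriv v t - c * t⁻¹ = F v t / t := by
      rw [← hc t ht']
      have := ht.1.ne'
      field_simp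
      ring
    rw [h2] at h1
    exact h1.hasDerivWithinAt
  have hb : ∀ t, 0 < t → 2 * t < δ → |v (2 * t) - v t - c * log 2| ≤ 2 * t := by
    intro t ht h2
    have h3 := (convex_Ioo 0 δ).norm_image_sub_le_of_norm_hasDerivWithin_le (C := 2) hw
      (fun x hx => (hsub hx).1) (x := t) (y := 2 * t) ⟨ht, by linarith⟩ ⟨by linarith, h2⟩
    rw [Real.norm_eq_abs, Real.norm_eq_abs, log_mul two_ne_zero ht.ne'] at h3
    have h4 : |2 * t - t| = t := by rw [show 2 * t - t = t by ring, abs_of_pos ht]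
    rw [h4] at h3
    convert h3 using 2
    ring
  have hv : Tendsto v (𝓝[>] 0) (𝓝 0) := by
    have := (h.2.2.1.mono Set.Ioi_subset_Ici_self).tendsto
    rwa [h.2.1] at this
  have h2t : Tendsto (fun t : ℝ => 2 * t) (𝓝[>] 0) (𝓝[>] 0) := by
    refine tendsto_nhdsWithin_iff.2 ⟨?_, ?_⟩
    · have : Tendsto (fun t : ℝ => 2 * t) (𝓝 0) (𝓝 (2 * 0)) :=
        (continuous_const.mul continuous_id).tendsto 0
      rw [mul_zero] at this
      exact this.mono_left nhdsWithin_le_nhds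
    · filter_upwards [self_mem_nhdsWithin] with t ht
      have : (0 : ℝ) < t := ht
      show (0 : ℝ) < 2 * t
      linarith
  have hl : Tendsto (fun t => |v (2 * t) - v t - c * log 2|) (𝓝[>] 0) (𝓝 |0 - 0 - c * log 2|) :=
    (((hv.comp h2t).sub hv).sub tendsto_const_nhds).abs
  have hle : |0 - 0 - c * log 2| ≤ 0 := by
    refine le_of_tendsto_of_tendsto hl (tendsto_nhds_of_tendsto_nhdsWithin h2t) ?_
    filter_upwards [Ioo_mem_nhdsGT (half_pos hδ0)] with t ht
    exact hb t ht.1 (by linarith [ht.2])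
  have h5 : c * log 2 = 0 := by
    have := abs_nonpos_iff.1 hle
    linarith
  exact (mul_eq_zero.1 h5).resolve_right (log_pos one_lt_two).ne'

theorem v_deriv (h : Pre κ v) {t : ℝ} (ht : t ∈ Set.Ioo 0 κ) : HasDerivAt v (F v t / t) t := by
  obtain ⟨c, hc⟩ := exists_const h
  have h0 := const_zero h hc
  have h1 := hc t ht
  have h2 : deriv v t = F v t / t := by
    rw [eq_div_iff ht.1.ne']
    linarith
  rw [← h2]
  exact (h.2.2.2 t ht).1.hasDerivAt

theorem F_nonneg {t : ℝ} (ht : 0 ≤ t) : 0 ≤ F v t :=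
  intervalIntegral.integral_nonneg ht (fun _ _ => (cosh_pos _).le)

theorem v_mono (h : Pre κ v) : MonotoneOn v (Set.Ico 0 κ) := by
  refine monotoneOn_of_deriv_nonneg (convex_Ico 0 κ) (contOn h) ?_ ?_
  · rw [interior_Ico]
    exact fun t ht => (h.2.2.2 t ht).1.differentiableWithinAt
  · rw [interior_Ico]
    intro t ht
    rw [(v_deriv h ht).deriv]
    exact div_nonneg (F_nonneg ht.1.le) ht.1.le

theorem v_nonneg (h : Pre κ v) {t : ℝ} (ht : t ∈ Set.Ico 0 κ) : 0 ≤ v t := by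
  have := v_mono h ⟨le_rfl, h.1⟩ ht ht.1
  rwa [h.2.1] at this

theorem cosh_mono (h : Pre κ v) : MonotoneOn (fun t => cosh (v t)) (Set.Ico 0 κ) := by
  intro s hs t ht hst
  refine cosh_le_cosh.2 ?_
  rw [abs_of_nonneg (v_nonneg h hs), abs_of_nonneg (v_nonneg h ht)]
  exact v_mono h hs ht hst

theorem F_le (h : Pre κ v) {t : ℝ} (ht : t ∈ Set.Ico 0 κ) : F v t ≤ t * cosh (v t) := by
  have h1 : F v t ≤ ∫ _ in (0 : ℝ)..t, cosh (v t) := by
    refine intervalIntegral.integral_mono_on ht.1 (intInt h ht) intervalIntegrable_const ?_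
    intro s hs
    exact cosh_mono h ⟨hs.1, hs.2.trans_lt ht.2⟩ ht hs.2
  simpa using h1

theorem Fdiv_mono (h : Pre κ v) : MonotoneOn (fun t => F v t / t) (Set.Ioo 0 κ) := by
  have hd : ∀ t ∈ Set.Ioo 0 κ,
      HasDerivAt (fun t => F v t / t) ((cosh (v t) * t - F v t * 1) / t ^ 2) t :=
    fun t ht => (F_deriv h ht).div (hasDerivAt_id' t) ht.1.ne'
  refine monotoneOn_of_deriv_nonneg (convex_Ioo 0 κ)
    (fun t ht => (hd t ht).continuousAt.continuousWithinAt) ?_ ?_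
  · rw [interior_Ioo]
    exact fun t ht => (hd t ht).differentiableAt.differentiableWithinAt
  · rw [interior_Ioo]
    intro t ht
    rw [(hd t ht).deriv]
    refine div_nonneg ?_ (sq_nonneg t)
    have := F_le h ⟨ht.1.le, ht.2⟩
    linarith

theorem cosh_convex (h : Pre κ v) : ConvexOn ℝ (Set.Ico 0 κ) (fun t => cosh (v t)) := by
  have hd : ∀ t ∈ Set.Ioo 0 κ,
      HasDerivAt (fun t => cosh (v t)) (sinh (v t) * (F v t / t)) t :=
    fun t ht => (v_deriv h ht).cosh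
  refine MonotoneOn.convexOn_of_deriv (convex_Ico 0 κ) (coshContOn h) ?_ ?_
  · rw [interior_Ico]
    exact fun t ht => (hd t ht).differentiableAt.differentiableWithinAt
  · rw [interior_Ico]
    intro s hs t ht hst
    rw [(hd s hs).deriv, (hd t ht).deriv]
    have hs' : s ∈ Set.Ico 0 κ := ⟨hs.1.le, hs.2⟩
    have ht' : t ∈ Set.Ico 0 κ := ⟨ht.1.le, ht.2⟩
    exact mul_le_mul (sinh_le_sinh.2 (v_mono h hs' ht' hst)) (Fdiv_mono h hs ht hst)
      (div_nonneg (F_nonneg hs.1.le) hs.1.le) (sinh_nonneg_iff.2 (v_nonneg h ht'))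

theorem v_deriv0 (h : Pre κ v) : HasDerivWithinAt v 1 (Set.Ici 0) 0 := by
  refine hasDerivWithinAt_Ici_of_tendsto_deriv (s := Set.Ioo 0 κ)
    (fun t ht => (h.2.2.2 t ht).1.differentiableWithinAt)
    (h.2.2.1.mono (fun t ht => ht.1.le)) (Ioo_mem_nhdsGT h.1) ?_
  refine (F_div_tendsto h).congr' ?_
  filter_upwards [Ioo_mem_nhdsGT h.1] with t ht
  exact (v_deriv h ht).deriv.symm

/-- The comparison function `-2 log (1 - t / 4)`. -/
noncomputable def y (t : ℝ) : ℝ := -2 * log (1 - t / 4)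

theorem y_zero : y 0 = 0 := by simp [y]

theorem y_deriv {t : ℝ} (ht : t < 4) : HasDerivAt y (2 / (4 - t)) t := by
  have h0 : 1 - t / 4 ≠ 0 := by linarith
  have h1 : HasDerivAt (fun s : ℝ => 1 - s / 4) (-(1 / 4)) t :=
    ((hasDerivAt_id' t).div_const 4).const_sub 1
  have h2 := (h1.log h0).const_mul (-2)
  have h3 : -2 * (-(1 / 4) / (1 - t / 4)) = 2 / (4 - t) := by
    have : 4 - t ≠ 0 := by linarith
    field_simp
  rw [h3] at h2
  exact h2

theorem exp_y {t : ℝ} (ht : t < 4) : exp (y t) = 16 / (4 - t) ^ 2 := by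
  have h0 : 0 < 1 - t / 4 := by linarith
  have h1 : y t = -(log (1 - t / 4) + log (1 - t / 4)) := by unfold y; ring
  have h2 : 4 - t ≠ 0 := by linarith
  have h3 : 1 - t / 4 = (4 - t) / 4 := by ring
  rw [h1, exp_neg, exp_add, exp_log h0, h3]
  field_simp
  ring

theorem lt_cosh {t x : ℝ} (ht : t < 4) (hx : y t ≤ x) : 8 / (4 - t) ^ 2 < cosh x := by
  have h1 := exp_le_exp.2 hx
  rw [exp_y ht] at h1
  have h2 := exp_pos (-x)
  rw [cosh_eq]
  have h3 : 16 / (4 - t) ^ 2 = 2 * (8 / (4 - t) ^ 2) := by ring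
  linarith

theorem step (h : Pre κ v) (hκ : 4 < κ) {t : ℝ} (ht0 : 0 < t) (ht : t < 4)
    (hy : ∀ s ∈ Set.Icc 0 t, y s ≤ v s) : y t < v t := by
  have hsub : Set.Icc 0 t ⊆ Set.Ico 0 κ := fun s hs => ⟨hs.1, by linarith [hs.2]⟩
  have hq : ∀ s, s < 4 → HasDerivAt (fun s : ℝ => 2 * s / (4 - s)) (8 / (4 - s) ^ 2) s := by
    intro s hs
    have h0 : 4 - s ≠ 0 := by linarith
    have h1 := ((hasDerivAt_id' s).const_mul 2).div ((hasDerivAt_id' s).const_sub 4) h0
    have h2 : (2 * 1 * (4 - s) - 2 * s * -1) / (4 - s) ^ 2 = 8 / (4 - s) ^ 2 := by ring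
    rw [h2] at h1
    exact h1
  have hG : StrictMonoOn (fun s => F v s - 2 * s / (4 - s)) (Set.Icc 0 t) := by
    refine strictMonoOn_of_deriv_pos (convex_Icc 0 t) ?_ ?_
    · exact ((F_contOn h).mono hsub).sub
        (fun s hs => (hq s (hs.2.trans_lt ht)).continuousAt.continuousWithinAt)
    · rw [interior_Icc]
      intro s hs
      have hs4 : s < 4 := hs.2.trans ht
      have h1 := (F_deriv h ⟨hs.1, hs4.trans hκ⟩).sub (hq s hs4)
      have h2 : deriv (fun s => F v s - 2 * s / (4 - s)) s = cosh (v s) - 8 / (4 - s) ^ 2 :=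
        h1.deriv
      rw [h2]
      exact sub_pos.2 (lt_cosh hs4 (hy s ⟨hs.1.le, hs.2.le⟩))
  have hW : StrictMonoOn (fun s => v s - y s) (Set.Icc 0 t) := by
    refine strictMonoOn_of_deriv_pos (convex_Icc 0 t) ?_ ?_
    · exact ((contOn h).mono hsub).sub
        (fun s hs => (y_deriv (hs.2.trans_lt ht)).continuousAt.continuousWithinAt)
    · rw [interior_Icc]
      intro s hs
      have hs4 : s < 4 := hs.2.trans ht
      have h1 := (v_deriv h ⟨hs.1, hs4.trans hκ⟩).sub (y_deriv hs4)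
      have h2 : deriv (fun s => v s - y s) s = F v s / s - 2 / (4 - s) := h1.deriv
      rw [h2]
      have h3 := hG ⟨le_rfl, ht0.le⟩ ⟨hs.1.le, hs.2.le⟩ hs.1
      simp only [F_zero, mul_zero, zero_div, sub_zero] at h3
      have h4 : F v s / s - 2 / (4 - s) = (F v s - 2 * s / (4 - s)) / s := by
        have := hs.1.ne'
        have : 4 - s ≠ 0 := by linarith
        field_simp
      rw [h4]
      exact div_pos h3 hs.1
  have h5 := hW ⟨le_rfl, ht0.le⟩ ⟨ht0.le, le_rfl⟩ ht0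
  simp only [h.2.1, y_zero, sub_zero] at h5
  linarith

theorem y_le (h : Pre κ v) (hκ : 4 < κ) {b : ℝ} (hb : b < 4) :
    Set.Icc 0 b ⊆ {t | y t ≤ v t} := by
  have hsub : Set.Icc 0 b ⊆ Set.Ico 0 κ := fun s hs => ⟨hs.1, by linarith [hs.2]⟩
  refine IsClosed.Icc_subset_of_forall_mem_nhdsGT_of_Icc_subset ?_ ?_ ?_
  · rw [Set.inter_comm]
    exact isClosed_Icc.isClosed_le
      (fun s hs => (y_deriv (hs.2.trans_lt hb)).continuousAt.continuousWithinAt)
      ((contOn h).mono hsub)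
  · show y 0 ≤ v 0
    rw [y_zero, h.2.1]
  · intro t ht hy
    rcases ht.1.eq_or_lt with h0 | h0
    · subst h0
      have h1 : HasDerivWithinAt (fun s => v s - y s) (1 - 2 / (4 - 0)) (Set.Ioi 0) 0 :=
        ((v_deriv0 h).mono Set.Ioi_subset_Ici_self).sub
          (y_deriv (by norm_num)).hasDerivWithinAt
      rw [hasDerivWithinAt_iff_tendsto_slope' (by simp)] at h1
      have h2 := h1.eventually (lt_mem_nhds (show (0 : ℝ) < 1 - 2 / (4 - 0) by norm_num))
      filter_upwards [h2, self_mem_nhdsWithin] with s hs hs0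
      have hs1 : (0 : ℝ) < s := hs0
      rw [slope_def_field, h.2.1, y_zero, sub_zero, sub_zero, sub_zero] at hs
      have := (div_pos_iff_of_pos_right hs1).1 hs
      show y s ≤ v s
      linarith
    · have ht4 : t < 4 := ht.2.trans hb
      have h1 := step h hκ h0 ht4 (fun s hs => hy hs)
      have h2 : ∀ᶠ s in 𝓝 t, y s < v s :=
        (y_deriv ht4).continuousAt.eventually_lt
          (h.2.2.2 t ⟨h0, ht4.trans hκ⟩).1.continuousAt h1
      filter_upwards [h2.filter_mono nhdsWithin_le_nhds] with s hs using hs.le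

end PreA

theorem stPre : StPre := fun _ _ h =>
  ⟨fun _ ht => PreA.v_nonneg h ht, PreA.contOn h, PreA.v_mono h, PreA.cosh_mono h,
    PreA.cosh_convex h, PreA.v_deriv0 h, fun _ ht => PreA.v_deriv h ht⟩

theorem stFin : StFin := by
  intro κ v h
  by_contra hκ
  have hκ : 4 < κ := not_le.1 hκ
  have h4 : 0 ≤ v 4 := PreA.v_nonneg h ⟨by norm_num, hκ⟩
  have he : 0 < exp (-(v 4 + 1)) := exp_pos _
  have he1 : exp (-(v 4 + 1)) ≤ 1 := exp_le_one_iff.2 (by linarith)
  have hb : 4 - 4 * exp (-(v 4 + 1)) < 4 := by linarith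
  have hb0 : 0 ≤ 4 - 4 * exp (-(v 4 + 1)) := by linarith
  have h1 : PreA.y (4 - 4 * exp (-(v 4 + 1))) ≤ v (4 - 4 * exp (-(v 4 + 1))) :=
    PreA.y_le h hκ hb ⟨hb0, le_rfl⟩
  have h2 := PreA.v_mono h ⟨hb0, hb.trans hκ⟩ ⟨by norm_num, hκ⟩ hb.le
  have h3 : PreA.y (4 - 4 * exp (-(v 4 + 1))) = 2 * (v 4 + 1) := by
    unfold PreA.y
    rw [show 1 - (4 - 4 * exp (-(v 4 + 1))) / 4 = exp (-(v 4 + 1)) by ring, log_exp]
    ring
  linarith

end Pool.Agent.Lib.MP_f9c8ff_an.P3
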