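import Pool.Agent.Lib.MP_f9c8ff_an.P3.St

/-! The asymptotic lower bound for the blow-up time of the triangular system. -/

namespace Pool.Agent.Lib.MP_f9c8ff_an.P3

open Real Filter Topology

namespace Upper

/-- Left Riemann sums of a monotone function. -/
theorem riem {κ : ℝ} {f : ℝ → ℝ} (hf : MonotoneOn f (Set.Ico 0 κ)) {h : ℝ} (hh : 0 < h) (k : ℕ)
    (hk : k * h < κ) : h * ∑ j ∈ Finset.range k, f (j * h) ≤ ∫ s in (0 : ℝ)..(k * h), f s := by
  induction k with
  | zero => simp
  | succ k ih =>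
    push_cast at hk ⊢
    have h0 : (0 : ℝ) ≤ k * h := by positivity
    have h1 : (k : ℝ) * h ≤ (k + 1) * h := by linarith
    have i1 : IntervalIntegrable f MeasureTheory.volume 0 (k * h) := by
      apply MonotoneOn.intervalIntegrable
      refine hf.mono ?_
      rw [Set.uIcc_of_le h0]
      exact fun x hx => ⟨hx.1, by linarith [hx.2]⟩
    have i2 : IntervalIntegrable f MeasureTheory.volume (k * h) ((k + 1) * h) := by
      apply MonotoneOn.intervalIntegrable
      refine hf.mono ?_
      rw [Set.uIcc_of_le h1]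
      exact fun x hx => ⟨by linarith [hx.1], by linarith [hx.2]⟩
    have h2 := intervalIntegral.integral_mono_on h1
      (intervalIntegrable_const (μ := MeasureTheory.volume) (c := f (k * h))) i2
      (fun x hx => hf ⟨h0, by linarith⟩ ⟨by linarith [hx.1], by linarith [hx.2]⟩ hx.1)
    rw [intervalIntegral.integral_const, smul_eq_mul] at h2
    rw [← intervalIntegral.integral_add_adjacent_intervals i1 i2, Finset.sum_range_succ, mul_add]
    have := ih (by linarith)
    nlinarith

end Upper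

theorem stUpper (hc : StCmp) (ht : StTriPos) (hp : StPre) : StUpper := by
  intro κ v hv κ₁ h1
  by_cases h0 : κ₁ ≤ 0
  · exact ⟨0, fun N _ μ S hS => h0.trans (mul_nonneg (Nat.cast_nonneg N) hS.1.le)⟩
  have h0' : 0 < κ₁ := not_le.mp h0
  obtain ⟨-, vc, vm, fm, -, d0, d1⟩ := hp κ v hv
  obtain ⟨k2, hk1, hk2⟩ := exists_between h1
  obtain ⟨a, ha⟩ : ∃ a : ℝ, a = k2 / κ₁ := ⟨_, rfl⟩
  have ha1 : 1 < a := by rw [ha, lt_div_iff₀ h0']; linarith
  have hak : a * κ₁ = k2 := by rw [ha]; field_simp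
  obtain ⟨F, hF⟩ : ∃ F : ℝ, F = cosh (v k2) := ⟨_, rfl⟩
  have hF1 : 1 ≤ F := hF ▸ one_le_cosh _
  obtain ⟨δ, hδ, hδ2⟩ : ∃ δ > 0, ∀ t ∈ Set.Ico 0 κ, t < δ → cosh (v t) ≤ 2 := by
    have c1 : ContinuousWithinAt (fun t => cosh (v t)) (Set.Ico 0 κ) 0 :=
      continuous_cosh.continuousAt.comp_continuousWithinAt (vc 0 ⟨le_rfl, hv.1⟩)
    obtain ⟨δ, hδ, h⟩ := Metric.continuousWithinAt_iff.1 c1 1 one_pos
    refine ⟨δ, hδ, fun t ht htδ => ?_⟩
    have := h ht (by rw [Real.dist_eq, sub_zero, abs_of_nonneg ht.1]; exact htδ)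
    rw [hv.2.1, cosh_zero, Real.dist_eq, abs_lt] at this
    linarith [this.2]
  obtain ⟨N₀, hN₀⟩ := exists_nat_gt (F * k2 / (2 * (a - 1) * δ))
  refine ⟨N₀ + 1, fun N hN μ S hS => ?_⟩
  by_contra hlt
  have hlt' : N * μ < κ₁ := not_le.mp hlt
  have hμ := hS.1
  have hN1 : 1 ≤ N := by omega
  have hN2 : F * k2 < N * (2 * (a - 1) * δ) := by
    have hp : 0 < 2 * (a - 1) * δ := by have := sub_pos.2 ha1; positivity
    rw [div_lt_iff₀ hp] at hN₀
    have : (N₀ : ℝ) ≤ N := by exact_mod_cast (by omega : N₀ ≤ N)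
    nlinarith
  have hb : ∀ k ∈ Finset.Icc 1 N, ∀ x ∈ Set.Ico 0 μ, 0 ≤ k * (a * x) ∧ k * (a * x) ≤ k2 := by
    intro k hk x hx
    have hkN : (k : ℝ) ≤ N := by exact_mod_cast (Finset.mem_Icc.1 hk).2
    have hx0 := hx.1
    refine ⟨by positivity, ?_⟩
    have h2 : (k : ℝ) * x ≤ N * μ := mul_le_mul hkN hx.2.le hx0 (Nat.cast_nonneg N)
    nlinarith
  have key := hc N μ S (fun k x => v (k * (a * x))) (fun k x => rhs S k x)
    (fun k x => if x = 0 then k * a else
      (∫ s in (0 : ℝ)..(k * (a * x)), cosh (v s)) / (k * (a * x)) * (k * a))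
    (fun k hk => by simp [(hS.2.1 k hk).1, hv.2.1]) (ht N μ S hS)
    (fun k hk x hx => (hS.2.1 k hk).2 x hx)
    (fun k hk x hx => by
      have hl : HasDerivAt (fun x : ℝ => k * (a * x)) (k * a) x := by
        simpa using ((hasDerivAt_id x).const_mul a).const_mul (k : ℝ)
      have hk1 : (1 : ℝ) ≤ k := by exact_mod_cast (Finset.mem_Icc.1 hk).1
      split_ifs with e
      · subst e
        have d0' : HasDerivWithinAt v 1 (Set.Ici 0) (k * (a * 0)) := by simpa using d0
        have := d0'.comp (0 : ℝ) (s := Set.Ici 0) hl.hasDerivWithinAt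
          (fun y hy => by have : (0 : ℝ) ≤ y := hy; show (0 : ℝ) ≤ k * (a * y); positivity)
        simpa [Function.comp_def] using this
      · have hx0 : 0 < x := lt_of_le_of_ne hx.1 (Ne.symm e)
        exact ((d1 _ ⟨by positivity, by linarith [(hb k hk x hx).2]⟩).comp x hl).hasDerivWithinAt)
    (fun k hk x hx => by
      have hk0 := (Finset.mem_Icc.1 hk).1
      have hk1 : (1 : ℝ) ≤ k := by exact_mod_cast hk0
      rw [sub_self, sub_pos]
      split_ifs with e
      · subst e
        simp only [rhs, mul_zero, hv.2.1, cosh_zero, Finset.sum_const, Nat.card_Ico, nsmul_eq_mul,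
          mul_one, Nat.cast_sub hk0, Nat.cast_one]
        nlinarith
      · have hx0 : 0 < x := lt_of_le_of_ne hx.1 (Ne.symm e)
        have hh : 0 < a * x := by positivity
        obtain ⟨b0, b1⟩ := hb k hk x hx
        have r := Upper.riem fm hh k (by linarith)
        have s1 : ∑ j ∈ Finset.range k, cosh (v (j * (a * x))) =
            1 + ∑ j ∈ Finset.Ico 1 k, cosh (v (j * (a * x))) := by
          rw [Finset.range_eq_Ico, Finset.sum_eq_sum_Ico_succ_bot (by omega)]
          simp [hv.2.1]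
        have s2 : (k : ℝ) ≤ ∑ j ∈ Finset.range k, cosh (v (j * (a * x))) := by
          have := Finset.card_nsmul_le_sum (Finset.range k) (fun j => cosh (v (j * (a * x)))) 1
            (fun j _ => one_le_cosh _)
          simpa using this
        have s3 : cosh (v (k * (a * x))) / 2 < 1 + (a - 1) * k := by
          by_cases hc : F / 2 ≤ (a - 1) * k
          · have : cosh (v (k * (a * x))) ≤ F :=
              hF ▸ fm ⟨b0, by linarith⟩ ⟨by linarith, hk2⟩ b1
            linarith
          · have hc' : (a - 1) * k < F / 2 := not_le.mp hc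
            have hNp : (0 : ℝ) < N := by exact_mod_cast hN1
            have a0 : 0 < a - 1 := sub_pos.2 ha1
            have t1 : N * (a * x) ≤ k2 := (hb N (Finset.mem_Icc.2 ⟨hN1, le_rfl⟩) x hx).2
            have t2 : k * (a * x) < δ := by
              by_contra hc2
              have hc3 : δ ≤ k * (a * x) := not_lt.mp hc2
              have u1 : N * (2 * (a - 1) * δ) ≤ N * (2 * (a - 1) * (k * (a * x))) := by gcongr
              have u2 : (2 * ((a - 1) * k)) * (N * (a * x)) ≤ F * k2 :=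
                mul_le_mul (by linarith) t1 (by positivity) (by linarith)
              nlinarith
            have := hδ2 _ ⟨b0, by linarith⟩ t2
            nlinarith
        have e2 : (∫ s in (0 : ℝ)..(k * (a * x)), cosh (v s)) / (k * (a * x)) * (k * a) =
            (∫ s in (0 : ℝ)..(k * (a * x)), cosh (v s)) / x := by field_simp
        rw [e2, lt_div_iff₀ hx0]
        refine lt_of_lt_of_le ?_ r
        have s4 : rhs (fun k x => v (k * (a * x))) k x <
            a * ∑ j ∈ Finset.range k, cosh (v (j * (a * x))) := by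
          simp only [rhs]
          nlinarith
        nlinarith)
  have e1 : ∀ᶠ x in 𝓝[<] μ, v k2 < S N x := hS.2.2.eventually_gt_atTop _
  obtain ⟨x, hx1, hx2⟩ := (e1.and (Ioo_mem_nhdsLT hμ)).exists
  have hNm := Finset.mem_Icc.2 ⟨hN1, le_refl N⟩
  have hx3 : x ∈ Set.Ico 0 μ := ⟨hx2.1.le, hx2.2⟩
  obtain ⟨b0, b1⟩ := hb N hNm x hx3
  have := vm ⟨b0, by linarith⟩ ⟨by linarith, hk2⟩ b1
  have := key N hNm x hx3
  linarith

end Pool.Agent.Lib.MP_f9c8ff_an.P3
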