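import Pool.Agent.Lib.MP_f9c8ff_an.P3.TriEx
import Pool.Agent.Lib.MP_f9c8ff_an.P3.Cn
import Pool.Agent.Lib.MP_f9c8ff_an.P3.Herg
import Pool.Agent.Lib.MP_f9c8ff_an.P3.Back
import Pool.Agent.Lib.MP_f9c8ff_an.P3.Cmp
import Pool.Agent.Lib.MP_f9c8ff_an.P3.Pre
import Pool.Agent.Lib.MP_f9c8ff_an.P3.Lower
import Pool.Agent.Lib.MP_f9c8ff_an.P3.Upper
import Pool.Agent.Lib.MP_f9c8ff_an.P3.Bar
import Pool.Agent.Lib.MP_f9c8ff_an.P3.Ode

/-! Assembly: `Cn n → π / κ`. -/

namespace Pool.Agent.Lib.MP_f9c8ff_an.P3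

open Filter Topology Real

theorem tri_Cn {n : ℕ} (h : 1 ≤ n) : 1 ≤ n * Cn n ∧ Tri (n + 1) (π / (n * Cn n)) SS :=
  tri_ex stCn stHerg stBack h

theorem half_le {κ : ℝ} {v : ℝ → ℝ} (h : Sol κ v) {n : ℕ} (hn : 1 ≤ n) :
    ((n : ℝ) + 1 / 2) * (π / (n * Cn n)) ≤ κ := by
  have := stLower stCmp stPre κ v (n + 1) _ _ (by omega) h (tri_Cn hn).2
  push_cast at this
  convert this using 2
  ring

theorem tendsto_Cn {κ : ℝ} {v : ℝ → ℝ} (h : Sol κ v) : Tendsto Cn atTop (𝓝 (π / κ)) := by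
  have h1 : Tendsto (fun n : ℕ => (n : ℝ) * (π / (n * Cn n))) atTop (𝓝 κ) := by
    have hl : Tendsto (fun n : ℕ => ((n : ℝ) + 1) * (π / (n * Cn n))) atTop (𝓝 κ) := by
      refine tendsto_order.mpr ⟨fun a ha => ?_, fun a ha => ?_⟩
      · obtain ⟨b, hb1, hb2⟩ := exists_between ha
        obtain ⟨N, hN⟩ := stUpper stCmp stTriPos stPre κ v h.pre b hb2
        filter_upwards [eventually_ge_atTop (N + 1)] with n hn
        have := hN (n + 1) (by omega) _ _ (tri_Cn (n := n) (by omega)).2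
        push_cast at this
        linarith
      · have h2 : Tendsto (fun n : ℕ => κ * (1 + 1 / ((n : ℝ) + 1) * 2)) atTop
            (𝓝 (κ * (1 + 0 * 2))) :=
          ((tendsto_one_div_add_atTop_nhds_zero_nat.mul_const 2).const_add 1).const_mul κ
        have h3 : κ * (1 + 0 * 2) < a := by linarith
        filter_upwards [h2.eventually (gt_mem_nhds h3), eventually_ge_atTop 1] with n h4 hn
        refine lt_of_le_of_lt ?_ h4
        have h5 := half_le h hn
        have h6 : 0 < π / (n * Cn n) := (tri_Cn hn).2.1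
        have h7 : (0 : ℝ) ≤ n := n.cast_nonneg
        have h8 : (n : ℝ) + 1 ≤ ((n : ℝ) + 1 / 2) * (1 + 1 / ((n : ℝ) + 1) * 2) := by
          have : ((n : ℝ) + 1 / 2) * (1 + 1 / ((n : ℝ) + 1) * 2)
              = n + 1 + (3 * n + 1) / (2 * (n + 1)) := by field_simp; ring
          rw [this]
          have : 0 ≤ (3 * (n : ℝ) + 1) / (2 * (n + 1)) := by positivity
          linarith
        have h9 : 0 ≤ 1 + 1 / ((n : ℝ) + 1) * 2 := by positivity
        calc ((n : ℝ) + 1) * (π / (n * Cn n))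
            ≤ ((n : ℝ) + 1 / 2) * (1 + 1 / ((n : ℝ) + 1) * 2) * (π / (n * Cn n)) := by gcongr
          _ = ((n : ℝ) + 1 / 2) * (π / (n * Cn n)) * (1 + 1 / ((n : ℝ) + 1) * 2) := by ring
          _ ≤ _ := by gcongr
    have h2 := hl.mul ((tendsto_one_div_add_atTop_nhds_zero_nat (𝕜 := ℝ)).const_sub 1)
    rw [sub_zero, mul_one] at h2
    refine h2.congr fun n => ?_
    have : (n : ℝ) + 1 ≠ 0 := by positivity
    field_simp
    ring
  have h2 := (tendsto_const_nhds (x := π)).div h1 h.1.ne'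
  refine h2.congr' ?_
  filter_upwards [eventually_ge_atTop 1] with n hn
  have h3 := (tri_Cn hn).1
  have h4 : (n : ℝ) ≠ 0 := by exact_mod_cast (by omega : n ≠ 0)
  have h5 : Cn n ≠ 0 := fun h0 => by rw [h0] at h3; norm_num at h3
  have := pi_ne_zero
  simp only [Pi.div_apply]
  field_simp

theorem C_eq {κ : ℝ} {v : ℝ → ℝ} (h : Sol κ v) : C = π / κ := (tendsto_Cn h).limsup_eq

theorem kappa_eq {κ : ℝ} {v : ℝ → ℝ} (h : Sol κ v) : π / C = κ := by
  have := h.1.ne'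
  have := pi_ne_zero
  rw [C_eq h]; field_simp

theorem ser : StSer := stSer stBar stOde stFin

end Pool.Agent.Lib.MP_f9c8ff_an.P3
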