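import Pool.Agent.Lib.MP_f9c8ff_an.P3.Asym

/-! Feasibility of `μ / π` against the size of the Schur parameters. -/

namespace Pool.Agent.Lib.MP_f9c8ff_an.P3

open PowerSeries Filter Topology Asymptotics Metric

theorem normSq_step (a : ℝ) (p q : ℂ) :
    ‖q - a * p‖ ^ 2 - ‖p - a * q‖ ^ 2 = (1 - a ^ 2) * (‖q‖ ^ 2 - ‖p‖ ^ 2) := by
  simp only [Complex.sq_norm, Complex.normSq_apply, Complex.sub_re, Complex.sub_im,
    Complex.mul_re, Complex.mul_im, Complex.ofReal_re, Complex.ofReal_im]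
  ring

/-- Backward algorithm. -/
theorem back_poly {μ : ℝ} (hc : Real.cos (μ / 4) ≠ 0) : ∀ (d k : ℕ),
    (∀ j < k + d, |aa j μ| < 1) → ∃ p q : Polynomial ℂ,
      (∀ z : ℂ, ‖z‖ ≤ 1 → ‖p.eval z‖ < ‖q.eval z‖) ∧
      (X : ℂ⟦X⟧) ^ d ∣ cx (PP k μ) * q - cx (QQ k μ) * p
  | 0, k, _ => ⟨0, 1, by simp, by simp⟩
  | d + 1, k, h => by
    obtain ⟨p, q, h1, h2⟩ := back_poly hc d (k + 1) fun j hj => h j (by omega)
    have hq := QQ_ne hc k fun j hj => h j (by omega)
    have hX := congrArg cx (X_mul_PP hq)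
    have hQ := congrArg cx (QQ_succ k μ)
    simp only [map_mul, map_sub, cx_C, cx_X] at hX hQ
    have ha : aa k μ ^ 2 < 1 := by rw [sq_lt_one_iff_abs_lt_one]; exact h k (by omega)
    refine ⟨Polynomial.X * p + Polynomial.C (aa k μ : ℂ) * q,
      q + Polynomial.C (aa k μ : ℂ) * (Polynomial.X * p), fun z hz => ?_, ?_⟩
    · have h3 := normSq_step (-aa k μ) (z * p.eval z) (q.eval z)
      have h4 : ‖z * p.eval z‖ < ‖q.eval z‖ := by
        rw [norm_mul]
        exact (mul_le_of_le_one_left (norm_nonneg _) hz).trans_lt (h1 z hz)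
      have h5 : ‖z * p.eval z‖ ^ 2 < ‖q.eval z‖ ^ 2 := by gcongr
      simp only [Polynomial.eval_add, Polynomial.eval_mul, Polynomial.eval_X, Polynomial.eval_C]
      refine lt_of_pow_lt_pow_left₀ 2 (norm_nonneg _) ?_
      push_cast at h3
      simp only [neg_mul, sub_neg_eq_add, neg_sq] at h3
      have := mul_pos (sub_pos.mpr ha) (sub_pos.mpr h5)
      linarith
    · push_cast
      have := mul_dvd_mul_left (X : ℂ⟦X⟧) h2
      rw [← pow_succ'] at this
      convert this using 1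
      rw [hQ]
      linear_combination -(q : ℂ⟦X⟧) * hX

theorem cos_ne {μ : ℝ} (h0 : 0 ≤ μ) (h1 : μ < 2 * Real.pi) : Real.cos (μ / 4) ≠ 0 :=
  (Real.cos_pos_of_mem_Ioo ⟨by linarith [Real.pi_pos], by linarith⟩).ne'

theorem feas_of_lt (hb : StBack) {n : ℕ} {μ : ℝ} (h0 : 0 ≤ μ) (h1 : μ < 2 * Real.pi)
    (h : ∀ j < n + 1, |aa j μ| < 1) : Feas n (μ / Real.pi) := by
  obtain ⟨p, q, h2, h3⟩ := back_poly (cos_ne h0 h1) (n + 1) 0 (by simpa using h)
  exact hb n μ _ _ h0 h1 p.differentiable q.differentiable h2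
    ((((asym_sin μ (n + 1)).mul (Asym.poly q _)).sub
      ((asym_cos μ (n + 1)).mul (Asym.poly p _))).small h3)

/-- State of the forward algorithm. -/
def Fw (μ : ℝ) (k M : ℕ) : Prop := ∃ p q : ℂ → ℂ,
  DifferentiableOn ℂ p (ball 0 1) ∧ DifferentiableOn ℂ q (ball 0 1) ∧
  (∀ z ∈ ball (0 : ℂ) 1, q z ≠ 0 ∧ ‖p z‖ ≤ ‖q z‖) ∧
  Asym p (cx (PP k μ)) M ∧ Asym q (cx (QQ k μ)) M

theorem ball_mem : ball (0 : ℂ) 1 ∈ 𝓝 (0 : ℂ) := ball_mem_nhds 0 one_pos

theorem Fw.le {μ : ℝ} {k M : ℕ} (h : Fw μ k (M + 1)) : |aa k μ| ≤ 1 := by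
  obtain ⟨p, q, hp, hq, h1, h2, h3⟩ := h
  have e1 := h2.zero (hp.differentiableAt ball_mem).continuousAt
  have e2 := h3.zero (hq.differentiableAt ball_mem).continuousAt
  obtain ⟨h4, h5⟩ := h1 0 (mem_ball_self one_pos)
  rw [e1, e2, coeff_cx, coeff_cx, Complex.norm_real, Complex.norm_real, Real.norm_eq_abs,
    Real.norm_eq_abs] at h5
  rw [aa, abs_div]
  exact div_le_one_of_le₀ h5 (abs_nonneg _)

theorem Fw.step {μ : ℝ} {k M : ℕ} (h : Fw μ k (M + 1)) (hq0 : coeff 0 (QQ k μ) ≠ 0)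
    (ha : |aa k μ| < 1) : Fw μ (k + 1) M := by
  obtain ⟨p, q, hp, hq, h1, h2, h3⟩ := h
  have e1 := h2.zero (hp.differentiableAt ball_mem).continuousAt
  have e2 := h3.zero (hq.differentiableAt ball_mem).continuousAt
  have hX := congrArg cx (X_mul_PP hq0)
  have hQ := congrArg cx (QQ_succ k μ)
  simp only [map_mul, map_sub, cx_C, cx_X] at hX hQ
  set a := aa k μ with ha0
  have ha2 : a ^ 2 < 1 := by rwa [sq_lt_one_iff_abs_lt_one]
  have hne : ∀ z ∈ ball (0 : ℂ) 1, q z - a * p z ≠ 0 := by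
    intro z hz h0
    obtain ⟨h4, h5⟩ := h1 z hz
    have h6 : ‖q z‖ = |a| * ‖p z‖ := by
      rw [sub_eq_zero.mp h0, norm_mul, Complex.norm_real, Real.norm_eq_abs]
    have h7 : 0 < ‖q z‖ := norm_pos_iff.mpr h4
    nlinarith [abs_nonneg a, norm_nonneg (p z)]
  have hle : ∀ z ∈ ball (0 : ℂ) 1, ‖p z - a * q z‖ ≤ ‖q z - a * p z‖ := by
    intro z hz
    have h5 : ‖p z‖ ^ 2 ≤ ‖q z‖ ^ 2 := by gcongr; exact (h1 z hz).2
    refine le_of_pow_le_pow_left₀ two_ne_zero (norm_nonneg _) ?_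
    have := mul_nonneg (sub_pos.mpr ha2).le (sub_nonneg.mpr h5)
    linarith [normSq_step a (p z) (q z)]
  have dq : DifferentiableOn ℂ (fun z => q z - a * p z) (ball 0 1) :=
    hq.sub (hp.const_mul _)
  have dφ : DifferentiableOn ℂ (fun z => (p z - a * q z) / (q z - a * p z)) (ball 0 1) :=
    (hp.sub (hq.const_mul _)).div dq hne
  have φ0 : (p 0 - a * q 0) / (q 0 - a * p 0) = 0 := by
    rw [div_eq_zero_iff]
    left
    rw [e1, e2, coeff_cx, coeff_cx, ha0, aa]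
    have : ((coeff 0 (QQ k μ) : ℝ) : ℂ) ≠ 0 := by exact_mod_cast hq0
    push_cast
    field_simp
    ring
  refine ⟨fun z => dslope (fun z => (p z - a * q z) / (q z - a * p z)) 0 z * (q z - a * p z),
    fun z => q z - a * p z, ((Complex.differentiableOn_dslope ball_mem).mpr dφ).mul dq, dq,
    fun z hz => ⟨hne z hz, ?_⟩, ?_, ?_⟩
  · have := Complex.norm_dslope_le_div_of_mapsTo_ball (R₂ := 1) dφ (fun w hw => by
      rw [φ0, mem_closedBall_zero_iff, norm_div]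
      exact div_le_one_of_le₀ (hle w hw) (norm_nonneg _)) hz
    rw [norm_mul]
    exact mul_le_of_le_one_left (norm_nonneg _) (by simpa using this)
  · have h4 := h2.sub ((Asym.const (a : ℂ) _).mul h3)
    rw [← hX] at h4
    refine h4.div ?_
    filter_upwards [self_mem_nhdsWithin, nhdsWithin_le_nhds ball_mem] with z h5 h6
    have h7 : z ≠ 0 := h5
    have h8 := hne z h6
    rw [dslope_of_ne _ h7, slope_def_field, φ0, sub_zero, sub_zero, ← mul_assoc,
      mul_div_cancel₀ _ h7, div_mul_cancel₀ _ h8]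
  · rw [hQ]
    exact (h3.sub ((Asym.const (a : ℂ) _).mul h2)).mono

theorem sq_cos_sub (w : ℂ) : ‖Complex.cos w‖ ^ 2 - ‖Complex.sin w‖ ^ 2 = Real.cos (2 * w.re) := by
  rw [Complex.cos_eq w, Complex.sin_eq w]
  simp only [Complex.sq_norm, Complex.normSq_apply, ← Complex.ofReal_cos, ← Complex.ofReal_sin,
    ← Complex.ofReal_cosh, ← Complex.ofReal_sinh, ← Complex.ofReal_mul, Complex.sub_re,
    Complex.sub_im, Complex.add_re, Complex.add_im, Complex.mul_re, Complex.mul_im,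
    Complex.ofReal_re, Complex.ofReal_im, Complex.I_re, Complex.I_im]
  rw [Real.cos_two_mul']
  linear_combination (Real.cos w.re ^ 2 - Real.sin w.re ^ 2) * Real.cosh_sq w.im

theorem fw_zero (hh : StHerg) {n : ℕ} {μ : ℝ} (h : Feas n (μ / Real.pi)) : Fw μ 0 (n + 1) := by
  obtain ⟨f, hd, hb, hO⟩ := hh n _ h
  have hpi : (Real.pi : ℂ) ≠ 0 := by exact_mod_cast Real.pi_ne_zero
  have dU : DifferentiableOn ℂ (fun z => (Real.pi : ℂ) / 4 * f z) (ball 0 1) := hd.const_mul _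
  have hU : (fun z => (Real.pi : ℂ) / 4 * f z - uu μ z) =O[𝓝[≠] 0] fun z : ℂ => z ^ (n + 1) := by
    refine (hO.const_mul_left ((Real.pi : ℂ) / 4)).congr_left fun z => ?_
    rw [uu]; push_cast; field_simp
  have tu : Tendsto (uu μ) (𝓝[≠] 0) (𝓝 (uu μ 0)) := by
    have : ContinuousAt (uu μ) 0 := by
      unfold uu
      exact continuousAt_const.mul (ContinuousAt.div (by fun_prop) (by fun_prop) (by simp))
    exact this.tendsto.mono_left nhdsWithin_le_nhds
  have tU : Tendsto (fun z => (Real.pi : ℂ) / 4 * f z) (𝓝[≠] 0) (𝓝 (uu μ 0)) := by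
    have h5 : Tendsto (fun z : ℂ => z ^ (n + 1)) (𝓝[≠] 0) (𝓝 0) := by
      have : Tendsto (fun z : ℂ => z ^ (n + 1)) (𝓝 0) (𝓝 (0 ^ (n + 1))) :=
        (continuous_pow (n + 1)).tendsto 0
      rw [zero_pow (Nat.succ_ne_zero n)] at this
      exact this.mono_left nhdsWithin_le_nhds
    simpa using (hU.trans_tendsto h5).add tu
  have key : ∀ {g : ℂ → ℂ} {g' : ℂ}, HasStrictDerivAt g g' (uu μ 0) →
      (fun z => g ((Real.pi : ℂ) / 4 * f z) - g (uu μ z)) =O[𝓝[≠] 0]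
        fun z : ℂ => z ^ (n + 1) := by
    intro g g' hg
    have h1 := hg.hasStrictFDerivAt.isBigO_sub.comp_tendsto
      (by rw [nhds_prod_eq]; exact tU.prodMk tu)
    exact h1.trans hU
  refine ⟨fun z => Complex.sin ((Real.pi : ℂ) / 4 * f z),
    fun z => Complex.cos ((Real.pi : ℂ) / 4 * f z), dU.csin, dU.ccos, fun z hz => ?_,
    (asym_sin μ _).congr (key (Complex.hasStrictDerivAt_sin _)) (by simp),
    (asym_cos μ _).congr (key (Complex.hasStrictDerivAt_cos _)) (by simp)⟩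
  set w := (Real.pi : ℂ) / 4 * f z with hw
  have h1 : w.re = Real.pi / 4 * (f z).re := by
    have : (Real.pi : ℂ) / 4 = ((Real.pi / 4 : ℝ) : ℂ) := by push_cast; ring
    rw [hw, this, Complex.re_ofReal_mul]
  have h2 := abs_le.mp (hb z hz)
  have h3 : 0 ≤ Real.cos (2 * w.re) := by
    refine Real.cos_nonneg_of_mem_Icc ⟨?_, ?_⟩ <;> rw [h1] <;> nlinarith [Real.pi_pos]
  have h4 : ‖Complex.sin w‖ ≤ ‖Complex.cos w‖ :=
    le_of_pow_le_pow_left₀ two_ne_zero (norm_nonneg _) (by linarith [sq_cos_sub w])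
  refine ⟨fun (h0 : Complex.cos w = 0) => ?_, h4⟩
  have h5 : Complex.sin w = 0 := by
    rw [h0, norm_zero] at h4
    exact norm_le_zero_iff.mp h4
  have := Complex.sin_sq_add_cos_sq w
  rw [h0, h5] at this
  simp at this

theorem le_of_feas (hh : StHerg) {n : ℕ} {μ : ℝ} (hc : Real.cos (μ / 4) ≠ 0)
    (h : Feas n (μ / Real.pi)) {k : ℕ} (hk : k ≤ n) (ha : ∀ j < k, |aa j μ| < 1) :
    |aa k μ| ≤ 1 := by
  have : ∀ j ≤ k, Fw μ j (n - j + 1) := by
    intro j
    induction j with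
    | zero => exact fun _ => fw_zero hh h
    | succ j ih =>
      intro hj
      have h1 := ih (by omega)
      have e : n - j = n - (j + 1) + 1 := by omega
      rw [e] at h1
      exact h1.step (QQ_ne hc j fun i hi => ha i (by omega)) (ha j (by omega))
  exact (this k le_rfl).le

end Pool.Agent.Lib.MP_f9c8ff_an.P3
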