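import Pool.Agent.Lib.MP_f9c8ff_an.P3.Defs

/-! Interface statements for the proof that the Nikolskii constant is `π / κ`. -/

namespace Pool.Agent.Lib.MP_f9c8ff_an.P3

open Real Filter Topology Asymptotics

/-- `lam * P 0 ≤ mean |P|` for all real trigonometric polynomials of degree at most `n`. -/
def Feas (n : ℕ) (lam : ℝ) : Prop :=
  ∀ a b : ℕ → ℝ, lam * trig n a b 0 ≤ 1 / (2 * π) * ∫ θ in (-π)..π, |trig n a b θ|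

/-- `Sol` without the blow-up clause. -/
def Pre (κ : ℝ) (v : ℝ → ℝ) : Prop :=
  0 < κ ∧ v 0 = 0 ∧ ContinuousWithinAt v (Set.Ici 0) 0 ∧
  (∀ t ∈ Set.Ioo 0 κ, DifferentiableAt ℝ v t ∧
    HasDerivAt (fun s => s * deriv v s) (cosh (v t)) t)

theorem Sol.pre {κ : ℝ} {v : ℝ → ℝ} (h : Sol κ v) : Pre κ v :=
  ⟨h.1, h.2.1, h.2.2.1, h.2.2.2.1⟩

/-- Right-hand side of the triangular system. -/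
noncomputable def rhs (S : ℕ → ℝ → ℝ) (k : ℕ) (x : ℝ) : ℝ :=
  ∑ j ∈ Finset.Ico 1 k, cosh (S j x) + cosh (S k x) / 2

/-- The model function `u(z) = (μ/4)(1+z)/(1-z)`. -/
noncomputable def uu (μ : ℝ) (z : ℂ) : ℂ := (μ : ℂ) / 4 * ((1 + z) / (1 - z))

def StCn : Prop := ∀ n : ℕ, 1 ≤ n → (∃ lam : ℝ, 0 < lam ∧ Feas n lam) →
  1 ≤ n * Cn n ∧ Feas n (1 / (n * Cn n)) ∧ ∀ lam : ℝ, Feas n lam → lam ≤ 1 / (n * Cn n)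

def StHerg : Prop := ∀ (n : ℕ) (lam : ℝ), Feas n lam →
  ∃ h : ℂ → ℂ, DifferentiableOn ℂ h (Metric.ball 0 1) ∧
    (∀ z ∈ Metric.ball (0 : ℂ) 1, |(h z).re| ≤ 1) ∧
    (fun z : ℂ => h z - (lam : ℂ) * ((1 + z) / (1 - z))) =O[𝓝[≠] 0] fun z : ℂ => z ^ (n + 1)

def StBack : Prop := ∀ (n : ℕ) (μ : ℝ) (p q : ℂ → ℂ), 0 ≤ μ → μ < 2 * π →
  Differentiable ℂ p → Differentiable ℂ q → (∀ z : ℂ, ‖z‖ ≤ 1 → ‖p z‖ < ‖q z‖) →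
  ((fun z : ℂ => Complex.sin (uu μ z) * q z - Complex.cos (uu μ z) * p z) =O[𝓝[≠] 0]
    fun z : ℂ => z ^ (n + 1)) → Feas n (μ / π)

def StCmp : Prop := ∀ (N : ℕ) (b : ℝ) (S T S' T' : ℕ → ℝ → ℝ),
  (∀ k ∈ Finset.Icc 1 N, S k 0 ≤ T k 0) →
  (∀ k ∈ Finset.Icc 1 N, ∀ x ∈ Set.Ico 0 b, 0 ≤ S k x) →
  (∀ k ∈ Finset.Icc 1 N, ∀ x ∈ Set.Ico 0 b, HasDerivWithinAt (S k) (S' k x) (Set.Ici 0) x) →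
  (∀ k ∈ Finset.Icc 1 N, ∀ x ∈ Set.Ico 0 b, HasDerivWithinAt (T k) (T' k x) (Set.Ici 0) x) →
  (∀ k ∈ Finset.Icc 1 N, ∀ x ∈ Set.Ico 0 b, S' k x - rhs S k x < T' k x - rhs T k x) →
  ∀ k ∈ Finset.Icc 1 N, ∀ x ∈ Set.Ico 0 b, S k x ≤ T k x

def StTriPos : Prop := ∀ (N : ℕ) (μ : ℝ) (S : ℕ → ℝ → ℝ), Tri N μ S →
  ∀ k ∈ Finset.Icc 1 N, ∀ x ∈ Set.Ico 0 μ, 0 ≤ S k x

def StTriUniq : Prop := ∀ (N : ℕ) (μ μ' : ℝ) (S S' : ℕ → ℝ → ℝ), 1 ≤ N →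
  Tri N μ S → Tri N μ' S' → μ = μ'

def StPre : Prop := ∀ (κ : ℝ) (v : ℝ → ℝ), Pre κ v →
  (∀ t ∈ Set.Ico 0 κ, 0 ≤ v t) ∧ ContinuousOn v (Set.Ico 0 κ) ∧ MonotoneOn v (Set.Ico 0 κ) ∧
  MonotoneOn (fun t => cosh (v t)) (Set.Ico 0 κ) ∧
  ConvexOn ℝ (Set.Ico 0 κ) (fun t => cosh (v t)) ∧
  HasDerivWithinAt v 1 (Set.Ici 0) 0 ∧
  ∀ t ∈ Set.Ioo 0 κ, HasDerivAt v ((∫ s in (0 : ℝ)..t, cosh (v s)) / t) t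

def StFin : Prop := ∀ (κ : ℝ) (v : ℝ → ℝ), Pre κ v → κ ≤ 4

def StLower : Prop := ∀ (κ : ℝ) (v : ℝ → ℝ) (N : ℕ) (μ : ℝ) (S : ℕ → ℝ → ℝ), 1 ≤ N →
  Sol κ v → Tri N μ S → ((N : ℝ) - 1 / 2) * μ ≤ κ

def StUpper : Prop := ∀ (κ : ℝ) (v : ℝ → ℝ), Pre κ v → ∀ κ₁ : ℝ, κ₁ < κ →
  ∃ N₀ : ℕ, ∀ N : ℕ, N₀ ≤ N → ∀ (μ : ℝ) (S : ℕ → ℝ → ℝ), Tri N μ S → κ₁ ≤ N * μ

def StBar : Prop := ∀ v c s : ℕ → ℝ, Rec v c s →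
  (∀ k, 0 ≤ v k ∧ 0 ≤ c k ∧ 0 ≤ s k) ∧
  ∀ t M : ℝ, 0 ≤ t → (∀ K, ∑ k ∈ Finset.range K, v k * t ^ k ≤ M) →
    Summable fun k => v k * (t + exp (-(M + 1))) ^ k

def StOde : Prop := ∀ v c s : ℕ → ℝ, Rec v c s → (∀ k, 0 ≤ v k ∧ 0 ≤ c k ∧ 0 ≤ s k) →
  ∀ ρ : ℝ, 0 < ρ → (∀ t ∈ Set.Ico 0 ρ, Summable fun k => v k * t ^ k) →
    Pre ρ fun t => ∑' k, v k * t ^ k

def StSer : Prop := (∃ v c s : ℕ → ℝ, Rec v c s) ∧ ∀ v c s : ℕ → ℝ, Rec v c s →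
  ∃ κ : ℝ, Sol κ (fun t => ∑' k, v k * t ^ k) ∧
    ∀ t : ℝ, 0 ≤ t → ((Summable fun k => v k * t ^ k) ↔ t < κ)

end Pool.Agent.Lib.MP_f9c8ff_an.P3
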