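import Pool.Agent.Lib.MP_f9c8ff_an.P3.Schur

/-! The triangular system blows up exactly at `π / (n * Cn n)`. -/

namespace Pool.Agent.Lib.MP_f9c8ff_an.P3

open Filter Topology Set

noncomputable def SS (k : ℕ) (x : ℝ) : ℝ :=
  ∑ j ∈ Finset.range k, (Real.log (1 + aa j x) - Real.log (1 - aa j x))

theorem exp_SS {k : ℕ} {x : ℝ} (h : ∀ j < k, |aa j x| < 1) : Real.exp (SS k x) = EE k x := by
  rw [SS, Real.exp_sum, EE]
  refine Finset.prod_congr rfl fun j hj => ?_
  have := abs_lt.mp (h j (Finset.mem_range.mp hj))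
  rw [Real.exp_sub, Real.exp_log (by linarith [this.1]), Real.exp_log (by linarith [this.2])]

theorem cosh_SS {k : ℕ} {x : ℝ} (h : ∀ j < k, |aa j x| < 1) :
    Real.cosh (SS k x) = 4 * dd k x := by
  rw [Real.cosh_eq, Real.exp_neg, exp_SS h, dd]; ring

theorem SS_deriv {x : ℝ} (hc : Real.cos (x / 4) ≠ 0) : ∀ k, (∀ j < k, |aa j x| < 1) →
    HasDerivAt (SS k) (∑ j ∈ Finset.Ico 1 k, Real.cosh (SS j x) + 2 * cc k x) x
  | 0, _ => by
    have : SS 0 = fun _ => 0 := by funext y; simp [SS]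
    rw [this]
    simpa [cc] using hasDerivAt_const x (0 : ℝ)
  | k + 1, h => by
    have h' : ∀ j < k, |aa j x| < 1 := fun j hj => h j (by omega)
    have h1 := SS_deriv hc k h'
    have h2 := aa_deriv hc h'
    have hab := abs_lt.mp (h k (by omega))
    have h3 : 1 - aa k x ≠ 0 := by linarith [hab.2]
    have h4 : 1 + aa k x ≠ 0 := by linarith [hab.1]
    have hE := (EE_pos h').ne'
    have : SS (k + 1) = fun y => SS k y + (Real.log (1 + aa k y) - Real.log (1 - aa k y)) := by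
      funext y; rw [SS, Finset.sum_range_succ, ← SS]
    rw [this]
    refine (h1.add (((h2.const_add 1).log h4).sub ((h2.const_sub 1).log h3))).congr_deriv ?_
    have e1 : ∑ j ∈ Finset.Ico 1 (k + 1), Real.cosh (SS j x)
        = ∑ j ∈ Finset.Ico 1 k, Real.cosh (SS j x) + 4 * cc k x := by
      rcases Nat.eq_zero_or_pos k with rfl | hk
      · simp [cc]
      · rw [Finset.sum_Ico_succ_top hk, cosh_SS h', cc, if_neg hk.ne']
    have e2 : cc (k + 1) x = (EE k x * ((1 + aa k x) / (1 - aa k x))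
        + (EE k x * ((1 + aa k x) / (1 - aa k x)))⁻¹) / 8 := by
      rw [cc, if_neg k.succ_ne_zero, dd, EE, Finset.prod_range_succ, ← EE]
    rw [e1, e2]
    field_simp
    ring

theorem good_nhds {μ : ℝ} (hc : Real.cos (μ / 4) ≠ 0) {N : ℕ} (h : ∀ j < N, |aa j μ| < 1) :
    ∀ᶠ x in 𝓝 μ, ∀ j < N, |aa j x| < 1 := by
  have : ∀ j ∈ Finset.range N, ∀ᶠ x in 𝓝 μ, |aa j x| < 1 := by
    intro j hj
    have hj' := Finset.mem_range.mp hj
    have h1 := (aa_deriv hc (k := j) fun i hi => h i (by omega)).continuousAt.abs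
    exact h1.eventually_lt continuousAt_const (h j hj')
  filter_upwards [(Finset.eventually_all _).mpr this] with x hx j hj
  exact hx j (Finset.mem_range.mpr hj)

theorem aa_deriv_pos {μ : ℝ} {k : ℕ} (h : ∀ j < k, |aa j μ| < 1) (h1 : |aa k μ| ≤ 1) :
    0 < cc k μ * (1 - aa k μ ^ 2)
      + (EE k μ * (1 + aa k μ) ^ 2 + (EE k μ)⁻¹ * (1 - aa k μ) ^ 2) / 8 := by
  have hE := EE_pos h
  have hE' := inv_pos.mpr hE
  have h2 : 0 ≤ cc k μ := by
    rw [cc]; split_ifs
    · exact le_rfl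
    · rw [dd]; positivity
  have h3 : aa k μ ^ 2 ≤ 1 := by rwa [sq_le_one_iff_abs_le_one]
  have h4 := mul_nonneg h2 (sub_nonneg.mpr h3)
  have h5 : 0 < EE k μ * (1 + aa k μ) ^ 2 + (EE k μ)⁻¹ * (1 - aa k μ) ^ 2 := by
    rcases le_total 0 (aa k μ) with h6 | h6
    · have : 0 < 1 + aa k μ := by linarith
      positivity
    · have : 0 < 1 - aa k μ := by linarith
      positivity
  linarith

theorem Feas.mono {n : ℕ} {l l' : ℝ} (h : Feas n l) (h0 : 0 ≤ l') (h1 : l' ≤ l) : Feas n l' := by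
  intro a b
  rcases le_total 0 (trig n a b 0) with h2 | h2
  · exact (mul_le_mul_of_nonneg_right h1 h2).trans (h a b)
  · refine (mul_nonpos_of_nonneg_of_nonpos h0 h2).trans ?_
    have := Real.pi_pos
    exact mul_nonneg (by positivity)
      (intervalIntegral.integral_nonneg (by linarith) fun _ _ => abs_nonneg _)

theorem exists_gt_good {μ : ℝ} (h0 : 0 ≤ μ) (h1 : μ < 2 * Real.pi) {N : ℕ}
    (h : ∀ j < N, |aa j μ| < 1) : ∃ x, μ < x ∧ x < 2 * Real.pi ∧ ∀ j < N, |aa j x| < 1 := by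
  have h2 := (good_nhds (cos_ne h0 h1) h).and (Iio_mem_nhds h1)
  obtain ⟨x, ⟨h3, h4⟩, h5⟩ :=
    ((h2.filter_mono nhdsWithin_le_nhds).and (self_mem_nhdsWithin (s := Ioi μ))).exists
  exact ⟨x, h5, h4, h3⟩

theorem tri_ex (hn : StCn) (hh : StHerg) (hb : StBack) {n : ℕ} (h1 : 1 ≤ n) :
    1 ≤ n * Cn n ∧ Tri (n + 1) (Real.pi / (n * Cn n)) SS := by
  have hpi := Real.pi_pos
  obtain ⟨x0, hx0, hx1, hx2⟩ := exists_gt_good le_rfl (by linarith) (N := n + 1)
    (fun j _ => by simp [(aa_at_zero j).2])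
  obtain ⟨c1, c2, c3⟩ := hn n h1 ⟨_, div_pos hx0 hpi, feas_of_lt hb hx0.le hx1 hx2⟩
  refine ⟨c1, ?_⟩
  set m := Real.pi / (n * Cn n) with hm
  have c0 : 0 < n * Cn n := by linarith
  have m0 : 0 < m := div_pos hpi c0
  have m1 : m ≤ Real.pi := div_le_self hpi.le c1
  have me : m / Real.pi = 1 / (n * Cn n) := by rw [hm]; field_simp
  have hcos : ∀ x, 0 ≤ x → x ≤ m → Real.cos (x / 4) ≠ 0 := fun x a b => cos_ne a (by linarith)
  have hle : ∀ x, 0 ≤ x → x ≤ m → ∀ k ≤ n, (∀ j < k, |aa j x| < 1) → |aa k x| ≤ 1 := by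
    intro x a b k hk hj
    refine le_of_feas hh (hcos x a b) (c2.mono (by positivity) ?_) hk hj
    rw [← me]; gcongr
  have hlt : ∀ k ≤ n, ∀ x ∈ Ico 0 m, |aa k x| < 1 := by
    intro k
    induction k using Nat.strong_induction_on with
    | _ k ih =>
      intro hk x hx
      have hj : ∀ y ∈ Ico 0 m, ∀ j < k, |aa j y| < 1 :=
        fun y hy j hj => ih j hj (by omega) y hy
      rcases hx.1.eq_or_lt with rfl | hx'
      · simp [(aa_at_zero k).2]
      have h2 := hle x hx.1 hx.2.le k hk (hj x hx)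
      have h3 := aa_deriv (hcos x hx.1 hx.2.le) (hj x hx)
      have h4 := aa_deriv_pos (hj x hx) h2
      have h5 : ∀ᶠ y in 𝓝 x, |aa k y| ≤ 1 := by
        filter_upwards [Ioo_mem_nhds hx' hx.2] with y hy
        exact hle y hy.1.le hy.2.le k hk (hj y ⟨hy.1.le, hy.2⟩)
      refine lt_of_le_of_ne h2 fun h6 => h4.ne' ?_
      rcases (abs_eq zero_le_one).mp h6 with h7 | h7
      · refine IsLocalMax.hasDerivAt_eq_zero ?_ h3
        filter_upwards [h5] with y hy
        rw [h7]; exact (abs_le.mp hy).2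
      · refine IsLocalMin.hasDerivAt_eq_zero ?_ h3
        filter_upwards [h5] with y hy
        rw [h7]; exact (abs_le.mp hy).1
  have hnn : ∀ k ≤ n, ∀ x ∈ Ico 0 m, 0 ≤ aa k x := by
    intro k hk x hx
    have hd : ∀ y ∈ Ico 0 m, HasDerivAt (aa k) _ y := fun y hy =>
      aa_deriv (hcos y hy.1 hy.2.le) fun j hj => hlt j (by omega) y hy
    have := monotoneOn_of_deriv_nonneg (convex_Ico 0 m)
      (fun y hy => (hd y hy).continuousAt.continuousWithinAt)
      (fun y hy => (hd y (interior_subset hy)).differentiableAt.differentiableWithinAt)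
      (fun y hy => by
        have hy' := interior_subset hy
        rw [(hd y hy').deriv]
        exact (aa_deriv_pos (fun j hj => hlt j (by omega) y hy') (hlt k hk y hy').le).le)
    have h2 := this ⟨le_rfl, m0⟩ hx hx.1
    rwa [(aa_at_zero k).2] at h2
  have hbad : ∃ k, k < n + 1 ∧ ¬ |aa k m| < 1 := by
    by_contra h2
    push Not at h2
    obtain ⟨x, h3, h4, h5⟩ := exists_gt_good m0.le (by linarith) h2
    have h6 := c3 _ (feas_of_lt hb (by linarith) h4 h5)
    rw [← me, div_le_div_iff_of_pos_right hpi] at h6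
    linarith
  refine ⟨m0, fun k hk => ⟨by simp [SS, (aa_at_zero _).2], fun x hx => ?_⟩, ?_⟩
  · obtain ⟨k1, k2⟩ := Finset.mem_Icc.mp hk
    have hj : ∀ j < k, |aa j x| < 1 := fun j hj => hlt j (by omega) x hx
    refine (SS_deriv (hcos x hx.1 hx.2.le) k hj).hasDerivWithinAt.congr_deriv ?_
    rw [cosh_SS hj, cc, if_neg (by omega)]; ring
  · classical
    obtain ⟨k1, k2⟩ := Nat.find_spec hbad
    set k := Nat.find hbad with hk
    have hj : ∀ j < k, |aa j m| < 1 := fun j hj => by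
      have := Nat.find_min hbad hj
      push Not at this
      exact this (by omega)
    have h2 : |aa k m| = 1 := le_antisymm (hle m m0.le le_rfl k (by omega) hj) (not_lt.mp k2)
    have h3 : Tendsto (aa k) (𝓝[<] m) (𝓝 (aa k m)) :=
      (aa_deriv (hcos m m0.le le_rfl) hj).continuousAt.tendsto.mono_left nhdsWithin_le_nhds
    have hev : ∀ᶠ x in 𝓝[<] m, x ∈ Ico 0 m := Ico_mem_nhdsLT m0
    have h4 : 0 ≤ aa k m := ge_of_tendsto h3 (hev.mono fun x hx => hnn k (by omega) x hx)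
    rw [abs_of_nonneg h4] at h2
    have h5 : Tendsto (fun x => 1 - aa k x) (𝓝[<] m) (𝓝[>] 0) := by
      refine tendsto_nhdsWithin_iff.mpr ⟨?_, hev.mono fun x hx => ?_⟩
      · simpa [h2] using h3.const_sub 1
      · exact sub_pos.mpr (abs_lt.mp (hlt k (by omega) x hx)).2
    have h6 := tendsto_neg_atBot_atTop.comp (Real.tendsto_log_nhdsGT_zero.comp h5)
    refine tendsto_atTop_mono' _ (hev.mono fun x hx => ?_) h6
    have h7 : ∀ j ∈ Finset.range (n + 1), 0 ≤ Real.log (1 + aa j x) ∧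
        Real.log (1 - aa j x) ≤ 0 := by
      intro j hj
      have hj' : j ≤ n := by simpa [Nat.lt_succ_iff] using hj
      have a1 := hnn j hj' x hx
      have a2 := (abs_lt.mp (hlt j hj' x hx)).2
      exact ⟨Real.log_nonneg (by linarith), Real.log_nonpos (by linarith) (by linarith)⟩
    have h8 := Finset.single_le_sum
      (f := fun j => Real.log (1 + aa j x) - Real.log (1 - aa j x))
      (fun j hj => by linarith [(h7 j hj).1, (h7 j hj).2]) (Finset.mem_range.mpr k1)
    have h9 := (h7 k (Finset.mem_range.mpr k1)).1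
    simp only [Function.comp, SS]
    linarith

end Pool.Agent.Lib.MP_f9c8ff_an.P3
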